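import Pool.Agent.H5Width.Defs

namespace H5Width

variable {I K R S : Type}

lemma val_none (A : Alg I K R) (C : Circuit I K) (t : ℕ) (h : C[t]? = none) :
    val A C t = A.zero := by
  rw [val, h]

lemma val_some (A : Alg I K R) (C : Circuit I K) (t : ℕ) (G : Gate I K) (h : C[t]? = some G) :
    val A C t = if G.isMul then A.mul (argVal A C t G.left) (argVal A C t G.right)
      else A.add (argVal A C t G.left) (argVal A C t G.right) := by
  rw [val, h]
  rfl

lemma argVal_inp (A : Alg I K R) (C : Circuit I K) (t : ℕ) (i : I) :
    argVal A C t (.inp i) = A.inp i := rfl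

lemma argVal_const (A : Alg I K R) (C : Circuit I K) (t : ℕ) (c : K) :
    argVal A C t (.const c) = A.const c := rfl

lemma argVal_gate (A : Alg I K R) (C : Circuit I K) (t g : ℕ) (h : g < t) :
    argVal A C t (.gate g) = val A C g := by
  simp [argVal, Arg.eval, h]

lemma argVal_gate' (A : Alg I K R) (C : Circuit I K) (t g : ℕ) (h : ¬ g < t) :
    argVal A C t (.gate g) = A.zero := by
  simp [argVal, Arg.eval, h]

/-- Logical relation between two algebras. -/
lemma val_rel (A : Alg I K R) (B : Alg I K S) (C : Circuit I K) (Rel : R → S → Prop)
    (h0 : Rel A.zero B.zero) (hi : ∀ i, Rel (A.inp i) (B.inp i))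
    (hc : ∀ c, Rel (A.const c) (B.const c))
    (ha : ∀ a b a' b', Rel a a' → Rel b b' → Rel (A.add a b) (B.add a' b'))
    (hm : ∀ a b a' b', Rel a a' → Rel b b' → Rel (A.mul a b) (B.mul a' b')) (t : ℕ) :
    Rel (val A C t) (val B C t) := by
  induction t using Nat.strong_induction_on with
  | _ t ih =>
    have harg : ∀ a : Arg I K, Rel (argVal A C t a) (argVal B C t a) := by
      intro a
      cases a with
      | inp i => exact hi i
      | const c => exact hc c
      | gate g =>
        by_cases h : g < t
        · rw [argVal_gate A C t g h, argVal_gate B C t g h]; exact ih g h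
        · rw [argVal_gate' A C t g h, argVal_gate' B C t g h]; exact h0
    cases hG : C[t]? with
    | none => rw [val_none A C t hG, val_none B C t hG]; exact h0
    | some G =>
      rw [val_some A C t G hG, val_some B C t G hG]
      split_ifs
      · exact hm _ _ _ _ (harg _) (harg _)
      · exact ha _ _ _ _ (harg _) (harg _)

/-- Logical relation, with the structure of the multiplication gates available. -/
lemma val_rel' (A : Alg I K R) (B : Alg I K S) (C : Circuit I K) (Rel : R → S → Prop)
    (h0 : Rel A.zero B.zero) (hi : ∀ i, Rel (A.inp i) (B.inp i))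
    (hc : ∀ c, Rel (A.const c) (B.const c))
    (ha : ∀ a b a' b', Rel a a' → Rel b b' → Rel (A.add a b) (B.add a' b'))
    (hm : ∀ (t : ℕ) (G : Gate I K), C[t]? = some G → G.isMul = true →
      Rel (argVal A C t G.left) (argVal B C t G.left) →
      Rel (argVal A C t G.right) (argVal B C t G.right) →
      Rel (A.mul (argVal A C t G.left) (argVal A C t G.right))
        (B.mul (argVal B C t G.left) (argVal B C t G.right))) (t : ℕ) :
    Rel (val A C t) (val B C t) ∧ ∀ a : Arg I K, Rel (argVal A C t a) (argVal B C t a) := by
  induction t using Nat.strong_induction_on with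
  | _ t ih =>
    have harg : ∀ a : Arg I K, Rel (argVal A C t a) (argVal B C t a) := by
      intro a
      cases a with
      | inp i => exact hi i
      | const c => exact hc c
      | gate g =>
        by_cases h : g < t
        · rw [argVal_gate A C t g h, argVal_gate B C t g h]; exact (ih g h).1
        · rw [argVal_gate' A C t g h, argVal_gate' B C t g h]; exact h0
    refine ⟨?_, harg⟩
    cases hG : C[t]? with
    | none => rw [val_none A C t hG, val_none B C t hG]; exact h0
    | some G =>
      rw [val_some A C t G hG, val_some B C t G hG]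
      split_ifs with hb
      · exact hm t G hG hb (harg _) (harg _)
      · exact ha _ _ _ _ (harg _) (harg _)

/-- The algebra of sets of monomials: `mon i` is the monomial of the input `i`, and constants
satisfying `nz` contribute the monomial `1`. -/
def monAlg {V : Type} (mon : I → V →₀ ℕ) (nz : K → Prop) : Alg I K (Set (V →₀ ℕ)) where
  add a b := a ∪ b
  mul a b := {m | ∃ x ∈ a, ∃ y ∈ b, m = x + y}
  zero := ∅
  inp i := {mon i}
  const c := {m | m = 0 ∧ nz c}

end H5Width
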