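import Pool.Agent.H5Width.Trop

namespace H5Width

open Finset Classical

variable {n d : ℕ}

/-- Terms: positive part (with multiplicities) and negative part. -/
def termAlg {V : Type} : Alg (V × Bool) Bool (Set ((V →₀ ℕ) × Set V)) where
  add a b := a ∪ b
  mul a b := {z | ∃ x ∈ a, ∃ y ∈ b, z = (x.1 + y.1, x.2 ∪ y.2)}
  zero := ∅
  inp l := if l.2 = true then {(Finsupp.single l.1 1, ∅)} else {(0, {l.1})}
  const c := {z | z = (0, ∅) ∧ c = true}

lemma rel_bool {V : Type} (x : V → Bool) (C : Circuit (V × Bool) Bool) (t : ℕ) :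
    val (boolAlg x) C t = true ↔ ∃ y ∈ val termAlg C t, (∀ e, y.1 e ≠ 0 → x e = true) ∧
      ∀ e ∈ y.2, x e = false := by
  refine val_rel (boolAlg x) termAlg C (fun b s => b = true ↔ ∃ y ∈ s,
    (∀ e, y.1 e ≠ 0 → x e = true) ∧ ∀ e ∈ y.2, x e = false) ?_ ?_ ?_ ?_ ?_ t
  · simp [boolAlg, termAlg]
  · rintro ⟨v, b⟩
    cases b
    · simp [boolAlg, termAlg]
    · simp only [boolAlg, termAlg, if_true, Set.mem_singleton_iff, exists_eq_left,
        Set.mem_empty_iff_false, false_imp_iff, implies_true, and_true]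
      constructor
      · intro h e he
        rw [Finsupp.single_apply] at he
        split_ifs at he with h'
        · rw [← h']; exact h
        · exact absurd rfl he
      · intro h
        exact h v (by simp)
  · intro c
    simp [boolAlg, termAlg]
  · intro a b s s' h1 h2
    show (a || b) = true ↔ ∃ y ∈ s ∪ s', _
    rw [Bool.or_eq_true, h1, h2]
    constructor
    · rintro (⟨y, hy, h⟩ | ⟨y, hy, h⟩)
      · exact ⟨y, Or.inl hy, h⟩
      · exact ⟨y, Or.inr hy, h⟩
    · rintro ⟨y, hy | hy, h⟩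
      · exact Or.inl ⟨y, hy, h⟩
      · exact Or.inr ⟨y, hy, h⟩
  · intro a b s s' h1 h2
    show (a && b) = true ↔ ∃ z ∈ {z : (V →₀ ℕ) × Set V | ∃ x ∈ s, ∃ y ∈ s',
      z = (x.1 + y.1, x.2 ∪ y.2)}, _
    rw [Bool.and_eq_true, h1, h2]
    constructor
    · rintro ⟨⟨y, hy, h3, h4⟩, ⟨z, hz, h5, h6⟩⟩
      refine ⟨_, ⟨y, hy, z, hz, rfl⟩, ?_, ?_⟩
      · intro e he
        simp only [Finsupp.coe_add, Pi.add_apply] at he
        by_cases h : y.1 e = 0
        · exact h5 e (by omega)
        · exact h3 e h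
      · rintro e (he | he)
        · exact h4 e he
        · exact h6 e he
    · rintro ⟨_, ⟨y, hy, z, hz, rfl⟩, h3, h4⟩
      refine ⟨⟨y, hy, fun e he => h3 e ?_, fun e he => h4 e (Or.inl he)⟩,
        ⟨z, hz, fun e he => h3 e ?_, fun e he => h4 e (Or.inr he)⟩⟩
      · simp only [Finsupp.coe_add, Pi.add_apply]; omega
      · simp only [Finsupp.coe_add, Pi.add_apply]; omega

/-- In a decomposable circuit, the terms are consistent and multilinear. -/
lemma rel_vars {V : Type} (C : Circuit (V × Bool) Bool) (hC : Decomposable Prod.fst C) (t : ℕ) :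
    ∀ y ∈ val (termAlg (V := V)) C t,
      (∀ e, y.1 e ≠ 0 → e ∈ val (varsAlg (K := Bool) (Prod.fst : V × Bool → V)) C t) ∧
      (∀ e ∈ y.2, e ∈ val (varsAlg (K := Bool) (Prod.fst : V × Bool → V)) C t) ∧
      (∀ e, y.1 e ≤ 1) ∧ ∀ e, y.1 e ≠ 0 → e ∉ y.2 := by
  refine (val_rel' (varsAlg (K := Bool) (Prod.fst : V × Bool → V)) (termAlg (V := V)) C
    (fun W s => ∀ y ∈ s, (∀ e, y.1 e ≠ 0 → e ∈ W) ∧ (∀ e ∈ y.2, e ∈ W) ∧
      (∀ e, y.1 e ≤ 1) ∧ ∀ e, y.1 e ≠ 0 → e ∉ y.2) ?_ ?_ ?_ ?_ ?_ t).1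
  · intro y hy; exact absurd hy (Set.notMem_empty _)
  · rintro ⟨v, b⟩
    cases b
    · rintro y rfl
      simp [varsAlg]
    · rintro y rfl
      simp only [varsAlg, Set.mem_singleton_iff, Set.mem_empty_iff_false, false_imp_iff,
        implies_true, true_and, not_false_eq_true, and_true]
      constructor
      · intro e he
        rw [Finsupp.single_apply] at he
        split_ifs at he with h'
        · exact h'.symm
        · exact absurd rfl he
      · intro e
        rw [Finsupp.single_apply]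
        split_ifs <;> omega
  · rintro c y ⟨rfl, _⟩
    simp [varsAlg]
  · rintro a b s s' h1 h2 y (hy | hy)
    · obtain ⟨a1, a2, a3, a4⟩ := h1 y hy
      exact ⟨fun e he => Or.inl (a1 e he), fun e he => Or.inl (a2 e he), a3, a4⟩
    · obtain ⟨a1, a2, a3, a4⟩ := h2 y hy
      exact ⟨fun e he => Or.inr (a1 e he), fun e he => Or.inr (a2 e he), a3, a4⟩
  · intro s G hG hb h1 h2
    have hdis := hC s G hG hb
    rintro _ ⟨y, hy, z, hz, rfl⟩
    obtain ⟨a1, a2, a3, a4⟩ := h1 y hy
    obtain ⟨b1, b2, b3, b4⟩ := h2 z hz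
    have hd' : ∀ e, e ∈ argVal (varsAlg (K := Bool) (Prod.fst : V × Bool → V)) C s G.left →
        e ∈ argVal (varsAlg (K := Bool) (Prod.fst : V × Bool → V)) C s G.right → False :=
      fun e he he' => Set.disjoint_left.mp hdis he he'
    refine ⟨fun e he => ?_, fun e he => ?_, fun e => ?_, fun e he => ?_⟩
    · simp only [Finsupp.coe_add, Pi.add_apply] at he
      by_cases h : y.1 e = 0
      · exact Or.inr (b1 e (by omega))
      · exact Or.inl (a1 e h)
    · rcases he with he | he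
      · exact Or.inl (a2 e he)
      · exact Or.inr (b2 e he)
    · simp only [Finsupp.coe_add, Pi.add_apply]
      have h3 := a3 e
      have h4 := b3 e
      by_cases h5 : y.1 e = 0
      · omega
      · by_cases h6 : z.1 e = 0
        · omega
        · exact absurd (b1 e h6) (fun h => hd' e (a1 e h5) h)
    · simp only [Finsupp.coe_add, Pi.add_apply] at he
      rintro (he' | he')
      · by_cases h : y.1 e = 0
        · exact hd' e (a2 e he') (b1 e (by omega))
        · exact a4 e h he'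
      · by_cases h : z.1 e = 0
        · exact hd' e (a1 e (by omega)) (b2 e he')
        · exact b4 e h he'

/-- The positive monomial of a literal. -/
noncomputable def litMon (n d : ℕ) (l : Edge n d × Bool) : Edge n d →₀ ℕ :=
  if l.2 = true then Finsupp.single l.1 1 else 0

lemma term_mon (C : Circuit (Edge n d × Bool) Bool) (t : ℕ) :
    Prod.fst '' (val (termAlg (V := Edge n d)) C t)
      = val (monAlg (litMon n d) (fun c : Bool => c = true)) C t := by
  refine val_rel (termAlg (V := Edge n d))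
    (monAlg (litMon n d) (fun c : Bool => c = true)) C
    (fun p s => Prod.fst '' p = s) ?_ ?_ ?_ ?_ ?_ t
  · simp [termAlg, monAlg]
  · rintro ⟨v, b⟩
    cases b <;> simp [termAlg, monAlg, litMon]
  · intro c
    ext m
    simp only [termAlg, monAlg, Set.mem_image, Set.mem_ofPred_eq]
    constructor
    · rintro ⟨_, ⟨rfl, h⟩, rfl⟩; exact ⟨rfl, h⟩
    · rintro ⟨rfl, h⟩; exact ⟨_, ⟨rfl, h⟩, rfl⟩
  · rintro p q _ _ rfl rfl
    exact Set.image_union _ _ _
  · rintro p q _ _ rfl rfl
    ext m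
    constructor
    · rintro ⟨_, ⟨x, hx, y, hy, rfl⟩, rfl⟩
      exact ⟨x.1, ⟨x, hx, rfl⟩, y.1, ⟨y, hy, rfl⟩, rfl⟩
    · rintro ⟨_, ⟨x, hx, rfl⟩, _, ⟨y, hy, rfl⟩, rfl⟩
      exact ⟨_, ⟨x, hx, y, hy, rfl⟩, rfl⟩

theorem lower_bool (C : Circuit (Edge n d × Bool) Bool) (hD : Decomposable Prod.fst C)
    (hC : ∀ x : Edge n d → Bool, out (boolAlg x) C = true ↔
      ∃ p : ℕ → Fin n, ∀ i : Fin d, x (i, p i, p (i + 1)) = true)
    (k r w : ℕ) (hr : 1 ≤ r) (hw : 1 ≤ w)
    (hn : 4 * r ^ 2 * w ≤ n) (hk : 2 ^ (k + 1) ≤ d + 1) (hW : WidthLE C w) :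
    r ^ k < C.length := by
  refine core_min (litMon n d) (fun c : Bool => c = true) (fun l => ?_) C ?_ ?_
    k r w hr hw hn hk hW
  · unfold litMon
    split_ifs
    · exact Or.inr ⟨_, rfl⟩
    · exact Or.inl rfl
  · rw [out, ← term_mon]
    rintro m ⟨y, hy, rfl⟩
    obtain ⟨_, _, _, h4⟩ := rel_vars C hD _ y hy
    have h1 : out (boolAlg fun e => decide (y.1 e ≠ 0)) C = true := by
      rw [out, rel_bool]
      refine ⟨y, hy, fun e he => by simpa using he, fun e he => ?_⟩
      by_contra hne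
      simp only [ne_eq, decide_not, Bool.not_eq_false', decide_eq_true_eq] at hne
      exact h4 e hne he
    obtain ⟨q, hq⟩ := (hC _).mp h1
    exact ⟨q, pathMon_le_of fun i => by simpa using hq i⟩
  · intro p
    rw [out, ← term_mon]
    have h1 : out (boolAlg fun e => decide (pathMon n d p e ≠ 0)) C = true := by
      rw [hC]
      exact ⟨p, fun i => by simp [pathMon_self]⟩
    rw [out, rel_bool] at h1
    obtain ⟨y, hy, h2, _⟩ := h1
    obtain ⟨_, _, h3, _⟩ := rel_vars C hD _ y hy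
    have h2' : ∀ e, y.1 e ≠ 0 → pathMon n d p e ≠ 0 := fun e he => by simpa using h2 e he
    refine ⟨y.1, ⟨y, hy, rfl⟩, ?_, ?_⟩
    · refine le_trans ?_ (degree_pathMon (n := n) (d := d) p).le
      refine Finsupp.degree_mono fun e => ?_
      by_cases h : y.1 e = 0
      · rw [h]; exact Nat.zero_le _
      · have := h3 e
        have := h2' e h
        omega
    · intro e he
      rw [Finsupp.mem_support_iff] at he ⊢
      exact h2' e he

/-! ### Monotone Boolean circuits of minimal degree -/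

lemma rel_mono {V : Type} (x : V → Bool) (C : Circuit V Bool) (t : ℕ) :
    val (monoAlg x) C t = true ↔ ∃ m ∈ val (monAlg (fun v => Finsupp.single v 1)
      (fun c : Bool => c = true)) C t, ∀ e, m e ≠ 0 → x e = true := by
  refine val_rel (monoAlg x) (monAlg (fun v => Finsupp.single v 1) (fun c : Bool => c = true)) C
    (fun b s => b = true ↔ ∃ m ∈ s, ∀ e, m e ≠ 0 → x e = true) ?_ ?_ ?_ ?_ ?_ t
  · simp [monoAlg, monAlg]
  · intro v
    simp only [monoAlg, monAlg, Set.mem_singleton_iff, exists_eq_left]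
    constructor
    · intro h e he
      rw [Finsupp.single_apply] at he
      split_ifs at he with h'
      · rw [← h']; exact h
      · exact absurd rfl he
    · intro h
      exact h v (by simp)
  · intro c
    simp [monoAlg, monAlg]
  · intro a b s s' h1 h2
    show (a || b) = true ↔ ∃ y ∈ s ∪ s', _
    rw [Bool.or_eq_true, h1, h2]
    constructor
    · rintro (⟨y, hy, h⟩ | ⟨y, hy, h⟩)
      · exact ⟨y, Or.inl hy, h⟩
      · exact ⟨y, Or.inr hy, h⟩
    · rintro ⟨y, hy | hy, h⟩
      · exact Or.inl ⟨y, hy, h⟩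
      · exact Or.inr ⟨y, hy, h⟩
  · intro a b s s' h1 h2
    show (a && b) = true ↔ ∃ z ∈ {z : V →₀ ℕ | ∃ x ∈ s, ∃ y ∈ s', z = x + y}, _
    rw [Bool.and_eq_true, h1, h2]
    constructor
    · rintro ⟨⟨y, hy, h3⟩, ⟨z, hz, h5⟩⟩
      refine ⟨_, ⟨y, hy, z, hz, rfl⟩, ?_⟩
      intro e he
      simp only [Finsupp.coe_add, Pi.add_apply] at he
      by_cases h : y e = 0
      · exact h5 e (by omega)
      · exact h3 e h
    · rintro ⟨_, ⟨y, hy, z, hz, rfl⟩, h3⟩
      refine ⟨⟨y, hy, fun e he => h3 e ?_⟩, ⟨z, hz, fun e he => h3 e ?_⟩⟩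
      · simp only [Finsupp.coe_add, Pi.add_apply]; omega
      · simp only [Finsupp.coe_add, Pi.add_apply]; omega

lemma rel_deg {V K : Type} (nz : K → Prop) (C : Circuit V K) (t : ℕ) :
    ∀ m ∈ val (monAlg (fun v : V => Finsupp.single v 1) nz) C t,
      m.degree ≤ val degAlg C t := by
  refine val_rel degAlg (monAlg (fun v : V => Finsupp.single v 1) nz) C
    (fun k s => ∀ m ∈ s, m.degree ≤ k) ?_ ?_ ?_ ?_ ?_ t
  · intro m hm; exact absurd hm (Set.notMem_empty _)
  · rintro v m rfl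
    rw [Finsupp.degree_single]; rfl
  · rintro c m ⟨rfl, _⟩
    simp
  · rintro a b s s' h1 h2 m (hm | hm)
    · exact le_trans (h1 m hm) (le_max_left _ _)
    · exact le_trans (h2 m hm) (le_max_right _ _)
  · rintro a b s s' h1 h2 _ ⟨y, hy, z, hz, rfl⟩
    rw [map_add]
    exact add_le_add (h1 y hy) (h2 z hz)

theorem lower_mono (C : Circuit (Edge n d) Bool) (hD : out degAlg C ≤ d)
    (hC : ∀ x : Edge n d → Bool, out (monoAlg x) C = true ↔
      ∃ p : ℕ → Fin n, ∀ i : Fin d, x (i, p i, p (i + 1)) = true)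
    (k r w : ℕ) (hr : 1 ≤ r) (hw : 1 ≤ w)
    (hn : 4 * r ^ 2 * w ≤ n) (hk : 2 ^ (k + 1) ≤ d + 1) (hW : WidthLE C w) :
    r ^ k < C.length := by
  refine core_min (fun v => Finsupp.single v 1) (fun c : Bool => c = true)
    (fun v => Or.inr ⟨v, rfl⟩) C ?_ ?_ k r w hr hw hn hk hW
  · intro m hm
    have h1 : out (monoAlg fun e => decide (m e ≠ 0)) C = true := by
      rw [out, rel_mono]
      exact ⟨m, hm, fun e he => by simpa using he⟩
    obtain ⟨q, hq⟩ := (hC _).mp h1
    exact ⟨q, pathMon_le_of fun i => by simpa using hq i⟩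
  · intro p
    have h1 : out (monoAlg fun e => decide (pathMon n d p e ≠ 0)) C = true := by
      rw [hC]
      exact ⟨p, fun i => by simp [pathMon_self]⟩
    rw [out, rel_mono] at h1
    obtain ⟨m, hm, h2⟩ := h1
    refine ⟨m, hm, le_trans (rel_deg _ C _ m hm) hD, ?_⟩
    intro e he
    rw [Finsupp.mem_support_iff] at he ⊢
    simpa using h2 e he

end H5Width
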