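import Mathlib

namespace H5Width

open Finset

lemma card_fix (n M : ℕ) (y : Fin M) (c : Fin n) :
    ((univ : Finset (Fin M → Fin n)).filter fun a => a y = c).card * n = n ^ M := by
  classical
  have h1 : ((univ : Finset (Fin M → Fin n)).filter fun a => a y = c)
      = Fintype.piFinset fun z => if z = y then {c} else univ := by
    ext a
    simp only [mem_filter, mem_univ, true_and, Fintype.mem_piFinset]
    constructor
    · intro h z
      by_cases hz : z = y
      · subst hz; simp [h]
      · simp [hz]
    · intro h
      simpa using h y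
  rw [h1, Fintype.card_piFinset]
  rw [← Finset.mul_prod_erase univ _ (mem_univ y)]
  have h2 : ∀ z ∈ univ.erase y, (if z = y then ({c} : Finset (Fin n)) else univ).card = n := by
    intro z hz
    rw [if_neg (ne_of_mem_erase hz)]
    simp
  rw [Finset.prod_congr rfl h2, Finset.prod_const, Finset.card_erase_of_mem (mem_univ y)]
  simp only [if_true, card_singleton, one_mul, card_univ, Fintype.card_fin]
  rw [← pow_succ]
  congr 1
  have := y.2
  omega

/-- The combinatorial core of the trade-off. -/
theorem tradeoff (n w r L : ℕ) (hr : 1 ≤ r) (hw : 1 ≤ w) (hn : 4 * r ^ 2 * w ≤ n)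
    (cov : (ℕ → Fin n) → ℕ → ℕ → Prop)
    (mono : ∀ p t t' i, t ≤ t' → cov p t i → cov p t' i)
    (G : ℕ → Finset ℕ) (hG : ∀ t, (G t).card ≤ w)
    (S : ℕ → ℕ → Prop) (q : ℕ → ℕ → Fin n)
    (star : ∀ p t i, i + 1 < L → ¬ (cov p t i ↔ cov p t (i + 1)) →
      ∃ g ∈ G t, ¬ (S g i ↔ S g (i + 1)) ∧
        ∀ j, j + 1 < L → ¬ (S g j ↔ S g (j + 1)) → p (j + 1) = q g (j + 1))
    (E : ℕ → Finset (ℕ × Fin n × Fin n)) (hE : ∀ t, (E t).card ≤ 2)
    (base : ∀ p t i, i < L → ¬ cov p t i → cov p (t + 1) i → (i, p i, p (i + 1)) ∈ E t) :
    ∀ k M b t0 t1, M = 2 ^ (k + 1) → b + M ≤ L + 1 → t0 ≤ t1 → t1 ≤ t0 + r ^ k →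
      ∀ A : Finset (Fin M → Fin n),
        (∀ a ∈ A, ∃ p : ℕ → Fin n, (∀ j : Fin M, p (b + j) = a j) ∧
          ∀ i, b ≤ i → i + 1 < b + M → ¬ cov p t0 i ∧ cov p t1 i) →
        A.card * (2 * r) < n ^ M := by
  classical
  intro k
  induction k with
  | zero =>
    intro M b t0 t1 hM hb h01 h1 A hA
    obtain rfl : M = 2 := by simpa using hM
    have hcard : A.card ≤ 2 := by
      refine le_trans ?_ (hE t0)
      refine Finset.card_le_card_of_injOn (fun a => (b, a 0, a 1)) ?_ ?_
      · intro a ha
        obtain ⟨p, hp, hc⟩ := hA a ha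
        obtain ⟨hc0, hc1⟩ := hc b le_rfl (by norm_num)
        have ht : t1 = t0 + 1 := by
          rcases Nat.eq_or_lt_of_le h01 with h | h
          · subst h; exact absurd hc1 hc0
          · simp at h1; omega
        subst ht
        have := base p t0 b (by omega) hc0 hc1
        have e0 : p b = a 0 := by simpa using hp 0
        have e1 : p (b + 1) = a 1 := by simpa using hp 1
        rw [e0, e1] at this
        exact this
      · intro a ha a' ha' h
        simp only [Prod.mk.injEq, true_and] at h
        funext j
        have : j = 0 ∨ j = 1 := by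
          rcases j with ⟨j, hj⟩
          interval_cases j
          · left; rfl
          · right; rfl
        rcases this with rfl | rfl
        · exact h.1
        · exact h.2
    have h4 : 4 * r ≤ n := by
      calc 4 * r = 4 * r * 1 := by ring
        _ ≤ 4 * r ^ 2 * w := by
            have : r ≤ r ^ 2 := by nlinarith
            nlinarith
        _ ≤ n := hn
    have : A.card * (2 * r) ≤ 4 * r := by nlinarith
    have h5 : n < n ^ 2 := by
      have : 4 ≤ n := by nlinarith
      nlinarith
    omega
  | succ k ih =>
    intro M' b t0 t1 hM' hb h01 h1 A hA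
    obtain ⟨M, hM⟩ : ∃ M, M = 2 ^ (k + 1) := ⟨_, rfl⟩
    have h2M : M' = M + M := by rw [hM', hM]; ring
    have hM2 : 2 ≤ M := by
      rw [hM]
      calc 2 = 2 ^ 1 := by norm_num
        _ ≤ 2 ^ (k + 1) := Nat.pow_le_pow_right (by norm_num) (by omega)
    by_contra hcon
    push Not at hcon
    obtain ⟨N, hN⟩ : ∃ N, N = n ^ M' := ⟨_, rfl⟩
    obtain ⟨X, hX⟩ : ∃ X, X = n ^ M := ⟨_, rfl⟩
    rw [← hN] at hcon
    have hNX : N = X * X := by rw [hN, hX, h2M, pow_add]
    have hnpos : 0 < n := by
      have : 0 < 4 * r ^ 2 * w := by positivity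
      omega
    have : Nonempty (Fin n) := ⟨⟨0, hnpos⟩⟩
    -- choose the paths
    choose! path hpath hcov using hA
    -- boundaries
    let T : ℕ → ℕ := fun j => t0 + j * r ^ k
    -- designated positions
    let inner : ℕ → Prop := fun g => ∃ x, b ≤ x ∧ x + 2 < b + M' ∧ ¬ (S g x ↔ S g (x + 1))
    let pos : ℕ → ℕ := fun g => if h : inner g then h.choose else b
    have hpos : ∀ g, inner g → b ≤ pos g ∧ pos g + 2 < b + M' ∧ ¬ (S g (pos g) ↔ S g (pos g + 1)) := by
      intro g hg
      simp only [pos, dif_pos hg]
      exact hg.choose_spec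
    have hposlt : ∀ g, pos g + 1 - b < M' := by
      intro g
      by_cases hg : inner g
      · have := hpos g hg; omega
      · simp only [pos, dif_neg hg]; omega
    let Bad : ℕ → Finset (Fin M' → Fin n) := fun g =>
      univ.filter fun a => a ⟨pos g + 1 - b, hposlt g⟩ = q g (pos g + 1)
    have hBad : ∀ g, (Bad g).card * n = N := fun g => by rw [hN]; exact card_fix n M' _ _
    let BadAll : Finset (Fin M' → Fin n) :=
      (Finset.Ico 1 r).biUnion fun j => (G (T j)).biUnion Bad
    have hBadAll : BadAll.card * (4 * r) ≤ N := by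
      have h1 : BadAll.card * n ≤ (r - 1) * w * N := by
        have : BadAll.card ≤ ∑ j ∈ Finset.Ico 1 r, ∑ g ∈ G (T j), (Bad g).card := by
          refine le_trans Finset.card_biUnion_le ?_
          exact Finset.sum_le_sum fun j _ => Finset.card_biUnion_le
        calc BadAll.card * n ≤ (∑ j ∈ Finset.Ico 1 r, ∑ g ∈ G (T j), (Bad g).card) * n :=
              Nat.mul_le_mul_right _ this
          _ = ∑ j ∈ Finset.Ico 1 r, ∑ g ∈ G (T j), (Bad g).card * n := by
              rw [Finset.sum_mul]
              exact Finset.sum_congr rfl fun j _ => Finset.sum_mul _ _ _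
          _ = ∑ j ∈ Finset.Ico 1 r, (G (T j)).card * N := by
              refine Finset.sum_congr rfl fun j _ => ?_
              rw [Finset.sum_congr rfl fun g _ => hBad g, Finset.sum_const, smul_eq_mul]
          _ ≤ ∑ j ∈ Finset.Ico 1 r, w * N :=
              Finset.sum_le_sum fun j _ => Nat.mul_le_mul_right _ (hG _)
          _ = (r - 1) * w * N := by
              rw [Finset.sum_const, Nat.card_Ico, smul_eq_mul]; ring
      have h2 : BadAll.card * (4 * r) * n ≤ N * n := by
        calc BadAll.card * (4 * r) * n = BadAll.card * n * (4 * r) := by ring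
          _ ≤ (r - 1) * w * N * (4 * r) := Nat.mul_le_mul_right _ h1
          _ = N * (4 * (r - 1) * r * w) := by ring
          _ ≤ N * (4 * r ^ 2 * w) := by
              refine Nat.mul_le_mul_left _ ?_
              refine Nat.mul_le_mul_right _ ?_
              have : (r - 1) * r ≤ r * r := Nat.mul_le_mul_right _ (Nat.sub_le _ _)
              nlinarith
          _ ≤ N * n := Nat.mul_le_mul_left _ hn
      exact Nat.le_of_mul_le_mul_right h2 hnpos
    -- the good part
    let A' := A \ BadAll
    have hA' : N ≤ A'.card * (4 * r) := by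
      have h1 : A.card ≤ A'.card + BadAll.card := by
        have := Finset.le_card_sdiff BadAll A
        have h2 : A'.card = (A \ BadAll).card := rfl
        omega
      nlinarith
    have hconst : ∀ a ∈ A', ∀ j, 1 ≤ j → j < r → ∀ i, b ≤ i → i + 1 < b + M' →
        (cov (path a) (T j) i ↔ cov (path a) (T j) b) := by
      intro a ha j hj1 hjr i hbi
      have haA : a ∈ A := (Finset.mem_sdiff.mp ha).1
      have haB : a ∉ BadAll := (Finset.mem_sdiff.mp ha).2
      induction i, hbi using Nat.le_induction with
      | base => intro _; rfl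
      | succ i hbi ihi =>
        intro hi
        rw [← ihi (by omega)]
        by_contra hne
        have hne' : ¬ (cov (path a) (T j) i ↔ cov (path a) (T j) (i + 1)) := fun h => hne h.symm
        obtain ⟨g, hg, hS, hall⟩ := star (path a) (T j) i (by omega) hne'
        have hin : inner g := ⟨i, hbi, by omega, hS⟩
        obtain ⟨hp1, hp2, hp3⟩ := hpos g hin
        have hq := hall (pos g) (by omega) hp3
        apply haB
        simp only [BadAll, Finset.mem_biUnion, Finset.mem_Ico]
        refine ⟨j, ⟨hj1, hjr⟩, g, hg, ?_⟩
        simp only [Bad, Finset.mem_filter, Finset.mem_univ, true_and]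
        rw [← hq, ← hpath a haA ⟨pos g + 1 - b, hposlt g⟩]
        congr 1
        simp only
        omega
    -- the index of the subinterval
    have hidx : ∀ a ∈ A', ∃ j, j < r ∧ ∀ i, b ≤ i → i + 1 < b + M' →
        ¬ cov (path a) (T j) i ∧ cov (path a) (T (j + 1)) i := by
      intro a ha
      have haA : a ∈ A := (Finset.mem_sdiff.mp ha).1
      have hlast : ∀ i, b ≤ i → i + 1 < b + M' → cov (path a) (T r) i := by
        intro i hi hi'
        refine mono _ t1 _ _ ?_ (hcov a haA i hi hi').2
        simp only [T]
        calc t1 ≤ t0 + r ^ (k + 1) := h1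
          _ = t0 + r * r ^ k := by rw [pow_succ, mul_comm]
      have hfirst : ∀ i, b ≤ i → i + 1 < b + M' → ¬ cov (path a) (T 0) i := by
        intro i hi hi'
        have := (hcov a haA i hi hi').1
        simpa [T] using this
      have hbb : b + 1 < b + M' := by omega
      have hex : ∃ j, cov (path a) (T j) b := ⟨r, hlast b le_rfl hbb⟩
      let j0 := Nat.find hex
      have hj0 : cov (path a) (T j0) b := Nat.find_spec hex
      have hj0min : ∀ j, j < j0 → ¬ cov (path a) (T j) b := fun j hj => Nat.find_min hex hj
      have hj0r : j0 ≤ r := Nat.find_min' hex (hlast b le_rfl hbb)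
      have hj0pos : 1 ≤ j0 := by
        by_contra h
        have : j0 = 0 := by omega
        rw [this] at hj0
        exact hfirst b le_rfl hbb hj0
      refine ⟨j0 - 1, by omega, fun i hi hi' => ⟨?_, ?_⟩⟩
      · by_cases hz : j0 - 1 = 0
        · rw [hz]; exact hfirst i hi hi'
        · rw [hconst a ha (j0 - 1) (by omega) (by omega) i hi hi']
          exact hj0min _ (by omega)
      · have e : j0 - 1 + 1 = j0 := by omega
        rw [e]
        by_cases hz : j0 = r
        · rw [hz]; exact hlast i hi hi'
        · rw [hconst a ha j0 hj0pos (by omega) i hi hi']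
          exact hj0
    choose! J hJr hJ using hidx
    -- every fibre is small
    have hfib : ∀ j ∈ Finset.range r, (A'.filter fun a => J a = j).card * (4 * r ^ 2) < N := by
      intro j _
      set F := A'.filter fun a => J a = j with hF
      let f1 : (Fin M' → Fin n) → (Fin M → Fin n) := fun a x => a ⟨x, by omega⟩
      let f2 : (Fin M' → Fin n) → (Fin M → Fin n) := fun a x => a ⟨M + x, by omega⟩
      have hmul : F.card ≤ (F.image f1).card * (F.image f2).card := by
        rw [← Finset.card_product]
        refine Finset.card_le_card_of_injOn (fun a => (f1 a, f2 a)) ?_ ?_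
        · intro a ha
          simp only [Finset.coe_product, Set.mem_prod, Finset.mem_coe]
          exact ⟨Finset.mem_image_of_mem _ ha, Finset.mem_image_of_mem _ ha⟩
        · intro a _ a' _ h
          simp only [Prod.mk.injEq] at h
          funext x
          by_cases hx : (x : ℕ) < M
          · have := congrFun h.1 ⟨x, hx⟩
            simpa [f1] using this
          · have := congrFun h.2 ⟨(x : ℕ) - M, by have := x.2; omega⟩
            simp only [f2] at this
            have e : (⟨M + ((x : ℕ) - M), by have := x.2; omega⟩ : Fin M') = x := by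
              apply Fin.ext; simp only; omega
            rwa [e] at this
      have hT : T (j + 1) = T j + r ^ k := by simp only [T]; ring
      have i1 : (F.image f1).card * (2 * r) < X := by
        rw [hX]
        refine ih M b (T j) (T (j + 1)) hM (by omega) (by rw [hT]; omega) (by rw [hT]) _ ?_
        intro a'' ha''
        obtain ⟨a, ha, rfl⟩ := Finset.mem_image.mp ha''
        obtain ⟨haA', hJa⟩ := Finset.mem_filter.mp ha
        have haA : a ∈ A := (Finset.mem_sdiff.mp haA').1
        refine ⟨path a, fun x => ?_, fun i hi hi' => ?_⟩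
        · exact hpath a haA ⟨x, by omega⟩
        · rw [← hJa]
          exact hJ a haA' i hi (by omega)
      have i2 : (F.image f2).card * (2 * r) < X := by
        rw [hX]
        refine ih M (b + M) (T j) (T (j + 1)) hM (by omega) (by rw [hT]; omega) (by rw [hT]) _ ?_
        intro a'' ha''
        obtain ⟨a, ha, rfl⟩ := Finset.mem_image.mp ha''
        obtain ⟨haA', hJa⟩ := Finset.mem_filter.mp ha
        have haA : a ∈ A := (Finset.mem_sdiff.mp haA').1
        refine ⟨path a, fun x => ?_, fun i hi hi' => ?_⟩
        · have := hpath a haA ⟨M + x, by omega⟩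
          simp only at this
          rw [← add_assoc] at this
          exact this
        · rw [← hJa]
          exact hJ a haA' i (by omega) (by omega)
      calc F.card * (4 * r ^ 2) ≤ (F.image f1).card * (F.image f2).card * (4 * r ^ 2) :=
            Nat.mul_le_mul_right _ hmul
        _ = ((F.image f1).card * (2 * r)) * ((F.image f2).card * (2 * r)) := by ring
        _ < X * X := Nat.mul_lt_mul'' i1 i2
        _ = N := hNX.symm
    have hsum : A'.card = ∑ j ∈ Finset.range r, (A'.filter fun a => J a = j).card :=
      Finset.card_eq_sum_card_fiberwise fun a ha => Finset.mem_range.mpr (hJr a ha)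
    have hlt : A'.card * (4 * r ^ 2) < r * N := by
      rw [hsum, Finset.sum_mul]
      calc ∑ j ∈ Finset.range r, (A'.filter fun a => J a = j).card * (4 * r ^ 2)
          < ∑ j ∈ Finset.range r, N :=
            Finset.sum_lt_sum_of_nonempty (Finset.nonempty_range_iff.mpr (by omega)) hfib
        _ = r * N := by rw [Finset.sum_const, Finset.card_range, smul_eq_mul]
    have hge : r * N ≤ A'.card * (4 * r ^ 2) := by
      calc r * N ≤ r * (A'.card * (4 * r)) := Nat.mul_le_mul_left _ hA'
        _ = A'.card * (4 * r ^ 2) := by ring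
    omega

end H5Width
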