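import Pool.Agent.H5Width.Basic
import Pool.Agent.H5Width.Comb

namespace H5Width

open Finset Classical

variable {I K : Type} {n d : ℕ}

lemma pathMon_apply (p : ℕ → Fin n) (e : Edge n d) :
    pathMon n d p e = if e.2.1 = p e.1 ∧ e.2.2 = p (e.1 + 1) then 1 else 0 := by
  rcases e with ⟨i, u, v⟩
  simp only [pathMon, Finsupp.coe_finsetSum, Finset.sum_apply, Finsupp.single_apply,
    Prod.mk.injEq]
  rw [Finset.sum_eq_single i]
  · simp only [true_and, eq_comm]
  · intro j _ hj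
    simp [hj]
  · simp

lemma pathMon_le_one (p : ℕ → Fin n) (e : Edge n d) : pathMon n d p e ≤ 1 := by
  rw [pathMon_apply]; split_ifs <;> omega

lemma pathMon_self (p : ℕ → Fin n) (i : Fin d) : pathMon n d p (i, p i, p (i + 1)) = 1 := by
  rw [pathMon_apply]; simp

lemma eq_of_pathMon (p : ℕ → Fin n) (e : Edge n d) (h : pathMon n d p e ≠ 0) :
    e = (e.1, p e.1, p (e.1 + 1)) := by
  rw [pathMon_apply] at h
  split_ifs at h with h'
  · rcases e with ⟨i, u, v⟩
    simp only at h' ⊢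
    rw [h'.1, h'.2]
  · exact absurd rfl h

lemma degree_pathMon (p : ℕ → Fin n) : (pathMon n d p).degree = d := by
  rw [pathMon, map_sum]
  simp [Finsupp.degree_single]

/-- Everything the core argument needs to know about a circuit. -/
structure Data (n d : ℕ) (I K : Type) where
  mon : I → Edge n d →₀ ℕ
  nz : K → Prop
  C : Circuit I K
  hmon : ∀ i, mon i = 0 ∨ ∃ e, mon i = Finsupp.single e 1
  hd : 0 < d
  hn : 0 < n
  H1 : ∀ p, pathMon n d p ∈ out (monAlg mon nz) C
  H2 : ∀ m ∈ out (monAlg mon nz) C, m.degree = d → ∃ p, m = pathMon n d p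
  H3 : (∀ m ∈ out (monAlg mon nz) C, d ≤ m.degree) ∨
    (∀ m ∈ out (monAlg mon nz) C, m.degree ≤ d)

namespace Data

variable (X : Data n d I K)

/-- The monomials of a gate. -/
def D (t : ℕ) : Set (Edge n d →₀ ℕ) := val (monAlg X.mon X.nz) X.C t

/-- The monomials of an argument. -/
def DA (t : ℕ) (a : Arg I K) : Set (Edge n d →₀ ℕ) := argVal (monAlg X.mon X.nz) X.C t a

/-- The monomials of the output. -/
def O : Set (Edge n d →₀ ℕ) := out (monAlg X.mon X.nz) X.C

/-- The monomial `m` of gate `g` occurs in a derivation of the path `p`. -/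
def Used (p : ℕ → Fin n) (g : ℕ) (m : Edge n d →₀ ℕ) : Prop :=
  m ≠ 0 ∧ m ≤ pathMon n d p ∧ m ∈ X.D g ∧ ∀ m' ∈ X.D g, pathMon n d p - m + m' ∈ X.O

lemma degree_swap {P m m' : Edge n d →₀ ℕ} (h : m ≤ P) :
    (P - m + m').degree + m.degree = P.degree + m'.degree := by
  have h1 : P - m + m = P := tsub_add_cancel_of_le h
  have h2 : (P - m).degree + m.degree = P.degree := by
    rw [← map_add, h1]
  rw [map_add]
  omega

lemma degree_eq_of {P m m' P' : Edge n d →₀ ℕ} (hm : m ≤ P) (hm' : m' ≤ P')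
    (hP : P.degree = d) (hP' : P'.degree = d)
    (h1 : P - m + m' ∈ X.O) (h2 : P' - m' + m ∈ X.O) : m.degree = m'.degree := by
  have e1 := degree_swap (m' := m') hm
  have e2 := degree_swap (m' := m) hm'
  rcases X.H3 with h | h
  · have a1 := h _ h1
    have a2 := h _ h2
    omega
  · have a1 := h _ h1
    have a2 := h _ h2
    omega

lemma noMerge (p : ℕ → Fin n) (g : ℕ) (m1 m2 : Edge n d →₀ ℕ) (h1 : X.Used p g m1)
    (h2 : X.Used p g m2) (hle : m1 + m2 ≤ pathMon n d p) : False := by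
  have o1 := h1.2.2.2 m2 h2.2.2.1
  have o2 := h2.2.2.2 m1 h1.2.2.1
  have hdeg := X.degree_eq_of h1.2.1 h2.2.1 (degree_pathMon p) (degree_pathMon p) o1 o2
  have e1 := degree_swap (m' := m2) h1.2.1
  rw [degree_pathMon] at e1
  obtain ⟨q, hq⟩ := X.H2 _ o1 (by omega)
  obtain ⟨e, he⟩ : ∃ e, m2 e ≠ 0 := by
    by_contra hcon
    push Not at hcon
    exact h2.1 (Finsupp.ext hcon)
  have h3 := congrArg (fun f => f e) hq
  have h4 := hle e
  have h5 := pathMon_le_one (d := d) q e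
  simp only [Finsupp.coe_add, Finsupp.coe_tsub, Pi.add_apply, Pi.sub_apply] at h3 h4
  omega

/-- Two paths that use the same gate. -/
lemma swap (p q : ℕ → Fin n) (g : ℕ) (m m' : Edge n d →₀ ℕ) (h1 : X.Used p g m)
    (h2 : X.Used q g m') : ∃ s, pathMon n d q - m' + m = pathMon n d s := by
  have o1 := h1.2.2.2 m' h2.2.2.1
  have o2 := h2.2.2.2 m h1.2.2.1
  have hdeg := X.degree_eq_of h1.2.1 h2.2.1 (degree_pathMon p) (degree_pathMon q) o1 o2
  have e1 := degree_swap (m' := m) h2.2.1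
  rw [degree_pathMon] at e1
  exact X.H2 _ o2 (by omega)

lemma off_path {p : ℕ → Fin n} {m : Edge n d →₀ ℕ} (h : m ≤ pathMon n d p) (i : Fin d)
    (u v : Fin n) (hne : m (i, u, v) ≠ 0) : u = p i ∧ v = p (i + 1) := by
  have h1 := h (i, u, v)
  have h2 : pathMon n d p (i, u, v) ≠ 0 := by omega
  have := eq_of_pathMon p _ h2
  simp only [Prod.mk.injEq, true_and] at this
  exact this

lemma swap_level (p q : ℕ → Fin n) (g : ℕ) (m m' : Edge n d →₀ ℕ) (h1 : X.Used p g m)
    (h2 : X.Used q g m') (i : Fin d) :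
    m (i, p i, p (i + 1)) ≠ 0 ↔ m' (i, q i, q (i + 1)) ≠ 0 := by
  obtain ⟨s, hs⟩ := X.swap p q g m m' h1 h2
  have hs' : ∀ e, pathMon n d q e - m' e + m e = pathMon n d s e := by
    intro e
    have := congrArg (fun f => f e) hs
    simpa using this
  constructor
  · intro hm hm'
    have a1 := hs' (i, q i, q (i + 1))
    rw [pathMon_self, hm'] at a1
    have a2 := hs' (i, p i, p (i + 1))
    have b1 := eq_of_pathMon s (i, q i, q (i + 1)) (by omega)
    have b2 := eq_of_pathMon s (i, p i, p (i + 1)) (by omega)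
    simp only at b1 b2
    rw [b1] at a1
    rw [b2] at hm
    have := pathMon_le_one (d := d) s (i, s i, s (i + 1))
    omega
  · intro hm' hm
    have a1 := hs' (i, s i, s (i + 1))
    rw [pathMon_self] at a1
    have c1 : m (i, s i, s (i + 1)) = 0 := by
      by_contra hc
      obtain ⟨e1, e2⟩ := off_path h1.2.1 i _ _ hc
      rw [e1, e2] at hc
      exact hc hm
    have c2 : pathMon n d q (i, s i, s (i + 1)) ≠ 0 := by omega
    have c3 := eq_of_pathMon q _ c2
    simp only [Prod.mk.injEq, true_and] at c3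
    rw [c3.1, c3.2, pathMon_self, c3.1.symm, c3.2.symm] at a1
    rw [c3.1, c3.2] at c1 a1
    omega

lemma swap_vertex (p q : ℕ → Fin n) (g : ℕ) (m m' : Edge n d →₀ ℕ) (h1 : X.Used p g m)
    (h2 : X.Used q g m') (i : ℕ) (hi : i + 1 < d)
    (hne : ¬ (m (⟨i, by omega⟩, p i, p (i + 1)) ≠ 0 ↔
      m (⟨i + 1, hi⟩, p (i + 1), p (i + 1 + 1)) ≠ 0)) : p (i + 1) = q (i + 1) := by
  have hi0 : i < d := by omega
  obtain ⟨s, hs⟩ := X.swap p q g m m' h1 h2
  have hs' : ∀ e, pathMon n d q e - m' e + m e = pathMon n d s e := by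
    intro e
    have := congrArg (fun f => f e) hs
    simpa using this
  have L1 := X.swap_level p q g m m' h1 h2 ⟨i, hi0⟩
  have L2 := X.swap_level p q g m m' h1 h2 ⟨i + 1, hi⟩
  simp only at L1 L2
  by_cases hA : m (⟨i, hi0⟩, p i, p (i + 1)) ≠ 0
  · have hB : m (⟨i + 1, hi⟩, p (i + 1), p (i + 1 + 1)) = 0 := by
      by_contra hB; exact hne ⟨fun _ => hB, fun _ => hA⟩
    have hB' : m' (⟨i + 1, hi⟩, q (i + 1), q (i + 1 + 1)) = 0 := by
      by_contra hc; exact (L2.mpr hc) hB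
    have a1 := hs' (⟨i, hi0⟩, p i, p (i + 1))
    have a2 := hs' (⟨i + 1, hi⟩, q (i + 1), q (i + 1 + 1))
    have s2 := pathMon_self (d := d) q ⟨i + 1, hi⟩
    simp only at s2
    rw [s2, hB'] at a2
    have b1 := eq_of_pathMon s (⟨i, hi0⟩, p i, p (i + 1)) (by omega)
    have b2 := eq_of_pathMon s (⟨i + 1, hi⟩, q (i + 1), q (i + 1 + 1)) (by omega)
    simp only [Prod.mk.injEq, true_and] at b1 b2
    rw [b1.2, b2.1]
  · have hB : m (⟨i + 1, hi⟩, p (i + 1), p (i + 1 + 1)) ≠ 0 := by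
      by_contra hB
      exact hne ⟨fun h => absurd h hA, fun h => absurd hB h⟩
    have hA' : m' (⟨i, hi0⟩, q i, q (i + 1)) = 0 := by
      by_contra hc; exact hA (L1.mpr hc)
    have a1 := hs' (⟨i + 1, hi⟩, p (i + 1), p (i + 1 + 1))
    have a2 := hs' (⟨i, hi0⟩, q i, q (i + 1))
    have s2 := pathMon_self (d := d) q ⟨i, hi0⟩
    simp only at s2
    rw [s2, hA'] at a2
    have b1 := eq_of_pathMon s (⟨i + 1, hi⟩, p (i + 1), p (i + 1 + 1)) (by omega)
    have b2 := eq_of_pathMon s (⟨i, hi0⟩, q i, q (i + 1)) (by omega)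
    simp only [Prod.mk.injEq, true_and] at b1 b2
    rw [b1.1, b2.2]

end Data

end H5Width
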