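import Mathlib

/-!
# Circuits with size, depth and width

Straight-line circuits of fan-in two over arbitrary algebras of values.
-/

namespace H5Width

/-- An argument of a gate: an input, a constant, or the value of an earlier gate, given by its
number. -/
inductive Arg (I K : Type) where
  | inp (i : I)
  | const (c : K)
  | gate (g : ℕ)

/-- A gate of fan-in two: a multiplication gate (`isMul = true`) or an addition gate. -/
structure Gate (I K : Type) where
  isMul : Bool
  left : Arg I K
  right : Arg I K

/-- A circuit is the list of its gates, in an order in which they can be evaluated; its size is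
the length of the list and the last gate is the output. -/
abbrev Circuit (I K : Type) := List (Gate I K)

/-- An algebra of values: how gates are evaluated. `zero` is the value of an argument that refers
to a gate which has not been evaluated yet. -/
structure Alg (I K R : Type) where
  add : R → R → R
  mul : R → R → R
  zero : R
  inp : I → R
  const : K → R

variable {I K R S : Type}

/-- The value of an argument of gate number `t`, given the values of the earlier gates. -/
def Arg.eval (A : Alg I K R) (t : ℕ) (prev : (g : ℕ) → g < t → R) : Arg I K → R
  | .inp i => A.inp i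
  | .const c => A.const c
  | .gate g => if h : g < t then prev g h else A.zero

/-- The value of gate number `t` of the circuit. -/
def val (A : Alg I K R) (C : Circuit I K) (t : ℕ) : R :=
  match C[t]? with
  | none => A.zero
  | some G =>
    if G.isMul then
      A.mul (G.left.eval A t fun g _ => val A C g) (G.right.eval A t fun g _ => val A C g)
    else
      A.add (G.left.eval A t fun g _ => val A C g) (G.right.eval A t fun g _ => val A C g)
termination_by t

/-- The value of the argument `a` of gate number `t`. -/
def argVal (A : Alg I K R) (C : Circuit I K) (t : ℕ) (a : Arg I K) : R :=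
  a.eval A t fun g _ => val A C g

/-- The value of the output gate. -/
def out (A : Alg I K R) (C : Circuit I K) : R := val A C (C.length - 1)

/-- Gate number `s` has gate number `g` as an argument. -/
def Uses (C : Circuit I K) (s g : ℕ) : Prop :=
  ∃ G, C[s]? = some G ∧ (G.left = .gate g ∨ G.right = .gate g)

/-- The gates among the first `t` that are used by one of the other gates. -/
def live (C : Circuit I K) (t : ℕ) : Set ℕ := {g | g < t ∧ ∃ s, t ≤ s ∧ Uses C s g}

/-- The width of the circuit is at most `w`: at each time at most `w` values have to be
remembered. -/
def WidthLE (C : Circuit I K) (w : ℕ) : Prop := ∀ t, (live C t).ncard ≤ w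

/-- The algebra that computes the depth of gates. -/
def depthAlg : Alg I K ℕ where
  add a b := max a b + 1
  mul a b := max a b + 1
  zero := 0
  inp _ := 0
  const _ := 0

/-- The algebra that collects the inputs on which a gate depends, through `f`. -/
def varsAlg {V : Type} (f : I → V) : Alg I K (Set V) where
  add a b := a ∪ b
  mul a b := a ∪ b
  zero := ∅
  inp i := {f i}
  const _ := ∅

/-- The circuit is decomposable: the two arguments of a multiplication gate never depend on a
common variable. Here `f i` is the variable of the input `i`. -/
def Decomposable {V : Type} (f : I → V) (C : Circuit I K) : Prop :=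
  ∀ (t : ℕ) (G : Gate I K), C[t]? = some G → G.isMul = true →
    Disjoint (argVal (varsAlg f) C t G.left) (argVal (varsAlg f) C t G.right)

/-- The algebra that computes the syntactic degree of gates. -/
def degAlg : Alg I K ℕ where
  add a b := max a b
  mul a b := a + b
  zero := 0
  inp _ := 1
  const _ := 0

/-- The variables of the product of `d` matrices of size `n`: `(i, u, v)` is the entry `(u, v)` of
the `i`-th matrix, or the arc from the vertex `u` of layer `i` to the vertex `v` of layer
`i + 1`. -/
abbrev Edge (n d : ℕ) := Fin d × Fin n × Fin n

/-- The monomial of the path that visits the vertex `p i` of layer `i`, for `i = 0, ..., d`. -/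
noncomputable def pathMon (n d : ℕ) (p : ℕ → Fin n) : Edge n d →₀ ℕ :=
  ∑ i : Fin d, Finsupp.single (i, p i, p (i + 1)) 1

/-- The algebra of polynomials over the semiring `R`; the constants are elements of `R`. -/
noncomputable def polyAlg (V R : Type) [CommSemiring R] : Alg V R (MvPolynomial V R) where
  add a b := a + b
  mul a b := a * b
  zero := 0
  inp := MvPolynomial.X
  const := MvPolynomial.C

/-- The algebra `(min, +)` on `ℕ ∪ {∞}`, at the weights `x`. -/
noncomputable def minAlg {V : Type} (x : V → ℕ) : Alg V ℕ∞ ℕ∞ where
  add a b := min a b
  mul a b := a + b
  zero := ⊤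
  inp v := (x v : ℕ∞)
  const c := c

/-- The algebra `(max, +)` on `ℕ ∪ {-∞}`, at the weights `x`. -/
def maxAlg {V : Type} (x : V → ℕ) : Alg V (WithBot ℕ) (WithBot ℕ) where
  add a b := max a b
  mul a b := a + b
  zero := ⊥
  inp v := (x v : WithBot ℕ)
  const c := c

/-- Monotone Boolean evaluation at the assignment `x`. -/
def monoAlg {V : Type} (x : V → Bool) : Alg V Bool Bool where
  add a b := a || b
  mul a b := a && b
  zero := false
  inp v := x v
  const c := c

/-- Boolean evaluation at the assignment `x`; the input `(v, true)` is the variable `v` and the
input `(v, false)` is its negation. -/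
def boolAlg {V : Type} (x : V → Bool) : Alg (V × Bool) Bool Bool where
  add a b := a || b
  mul a b := a && b
  zero := false
  inp l := if l.2 then x l.1 else !(x l.1)
  const c := c

/-- The circuit models. -/
inductive Model where
  /-- Boolean circuits of `∨`, `∧`, constants, variables and negated variables, in which the two
  arguments of an `∧` never depend on a common variable. -/
  | decomposable
  /-- Monotone Boolean circuits of syntactic degree at most `d`. -/
  | monotone
  /-- Monotone arithmetic circuits (`+`, `×`, nonnegative real constants) that compute the
  polynomial `∑ p, ∏ i, x (i, p i, p (i + 1))`. -/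
  | counting
  /-- Monotone arithmetic circuits that compute any polynomial with the same monomials, with
  arbitrary positive coefficients. -/
  | support
  /-- Circuits of `min`, `+` and constants that compute the least weight of a path. -/
  | minPlus
  /-- Circuits of `max`, `+` and constants that compute the greatest weight of a path. -/
  | maxPlus

/-- `HasCircuit n d s D w μ`: in the model `μ`, the problem of the paths through the layered graph
with `d + 1` layers of `n` vertices has a circuit of size at most `s`, depth at most `D` and width
at most `w`. -/
def HasCircuit (n d s D w : ℕ) : Model → Prop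
  | .decomposable => ∃ C : Circuit (Edge n d × Bool) Bool,
      C.length ≤ s ∧ out depthAlg C ≤ D ∧ WidthLE C w ∧ Decomposable Prod.fst C ∧
      ∀ x : Edge n d → Bool, out (boolAlg x) C = true ↔
        ∃ p : ℕ → Fin n, ∀ i : Fin d, x (i, p i, p (i + 1)) = true
  | .monotone => ∃ C : Circuit (Edge n d) Bool,
      C.length ≤ s ∧ out depthAlg C ≤ D ∧ WidthLE C w ∧ out degAlg C ≤ d ∧
      ∀ x : Edge n d → Bool, out (monoAlg x) C = true ↔
        ∃ p : ℕ → Fin n, ∀ i : Fin d, x (i, p i, p (i + 1)) = true
  | .counting => ∃ C : Circuit (Edge n d) NNReal,
      C.length ≤ s ∧ out depthAlg C ≤ D ∧ WidthLE C w ∧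
      out (polyAlg (Edge n d) NNReal) C = ∑ p : Fin (d + 1) → Fin n, ∏ i : Fin d,
        MvPolynomial.X (i, p i.castSucc, p i.succ)
  | .support => ∃ C : Circuit (Edge n d) NNReal,
      C.length ≤ s ∧ out depthAlg C ≤ D ∧ WidthLE C w ∧
      ((out (polyAlg (Edge n d) NNReal) C).support : Set (Edge n d →₀ ℕ))
        = Set.range (pathMon n d)
  | .minPlus => ∃ C : Circuit (Edge n d) ℕ∞,
      C.length ≤ s ∧ out depthAlg C ≤ D ∧ WidthLE C w ∧
      ∀ x : Edge n d → ℕ, IsLeast
        (Set.range fun p : ℕ → Fin n => ((∑ i : Fin d, x (i, p i, p (i + 1)) : ℕ) : ℕ∞))
        (out (minAlg x) C)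
  | .maxPlus => ∃ C : Circuit (Edge n d) (WithBot ℕ),
      C.length ≤ s ∧ out depthAlg C ≤ D ∧ WidthLE C w ∧
      ∀ x : Edge n d → ℕ, IsGreatest
        (Set.range fun p : ℕ → Fin n => ((∑ i : Fin d, x (i, p i, p (i + 1)) : ℕ) : WithBot ℕ))
        (out (maxAlg x) C)

end H5Width
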