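import Pool.Agent.H5Width.BoolC

namespace H5Width

open Finset Classical

variable {I K R S V : Type}

/-- Formulas without constants. -/
inductive Fm (I : Type) where
  | inp (i : I)
  | op (isMul : Bool) (f g : Fm I)

/-- The value of a formula. -/
def Fm.eval (A : Alg I K R) : Fm I → R
  | .inp i => A.inp i
  | .op b f g => if b then A.mul (f.eval A) (g.eval A) else A.add (f.eval A) (g.eval A)

lemma Fm.eval_rel (A : Alg I K R) (B : Alg I K S) (Rel : R → S → Prop)
    (hi : ∀ i, Rel (A.inp i) (B.inp i))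
    (ha : ∀ a b a' b', Rel a a' → Rel b b' → Rel (A.add a b) (B.add a' b'))
    (hm : ∀ a b a' b', Rel a a' → Rel b b' → Rel (A.mul a b) (B.mul a' b')) (f : Fm I) :
    Rel (f.eval A) (f.eval B) := by
  induction f with
  | inp i => exact hi i
  | op b f g ihf ihg =>
    cases b
    · exact ha _ _ _ _ ihf ihg
    · exact hm _ _ _ _ ihf ihg

lemma val_append (A : Alg I K R) (C C' : Circuit I K) (t : ℕ) (ht : t < C.length) :
    val A (C ++ C') t = val A C t := by
  induction t using Nat.strong_induction_on with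
  | _ t ih =>
    have hg : (C ++ C')[t]? = C[t]? := List.getElem?_append_left ht
    obtain ⟨G, hG⟩ : ∃ G, C[t]? = some G := ⟨C[t], List.getElem?_eq_getElem ht⟩
    have harg : ∀ a : Arg I K, argVal A (C ++ C') t a = argVal A C t a := by
      intro a
      cases a with
      | inp i => rfl
      | const c => rfl
      | gate g =>
        by_cases h : g < t
        · rw [argVal_gate _ _ _ _ h, argVal_gate _ _ _ _ h, ih g h (by omega)]
        · rw [argVal_gate' _ _ _ _ h, argVal_gate' _ _ _ _ h]
    rw [val_some A (C ++ C') t G (by rw [hg, hG]), val_some A C t G hG, harg, harg]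

lemma argVal_append (A : Alg I K R) (C C' : Circuit I K) (t : ℕ) (ht : t ≤ C.length)
    (a : Arg I K) : argVal A (C ++ C') t a = argVal A C t a := by
  cases a with
  | inp i => rfl
  | const c => rfl
  | gate g =>
    by_cases h : g < t
    · rw [argVal_gate _ _ _ _ h, argVal_gate _ _ _ _ h, val_append A C C' g (by omega)]
    · rw [argVal_gate' _ _ _ _ h, argVal_gate' _ _ _ _ h]

/-- The argument `a` represents the formula `f` after the circuit `C`. -/
def Rep (C : Circuit I K) (a : Arg I K) (f : Fm I) : Prop :=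
  (∀ g, a = .gate g → g < C.length) ∧
    ∀ (R : Type) (A : Alg I K R), argVal A C C.length a = f.eval A

lemma Rep.append {C : Circuit I K} {a : Arg I K} {f : Fm I} (h : Rep C a f) (C' : Circuit I K) :
    Rep (C ++ C') a f := by
  refine ⟨fun g hg => ?_, fun R A => ?_⟩
  · have := h.1 g hg
    rw [List.length_append]; omega
  · have h2 := h.2 R A
    cases a with
    | inp i => exact h2
    | const c => exact h2
    | gate g =>
      have hg := h.1 g rfl
      rw [argVal_gate _ _ _ _ (by rw [List.length_append]; omega), val_append A C C' g hg]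
      rw [argVal_gate _ _ _ _ hg] at h2
      exact h2

lemma decomposable_append_one {fv : I → V} {C : Circuit I K} (hC : Decomposable fv C)
    (G : Gate I K) (hG : G.isMul = true →
      Disjoint (argVal (varsAlg fv) C C.length G.left)
        (argVal (varsAlg fv) C C.length G.right)) :
    Decomposable fv (C ++ [G]) := by
  intro t G' hG' hb
  by_cases ht : t < C.length
  · rw [List.getElem?_append_left ht] at hG'
    rw [argVal_append _ _ _ _ ht.le, argVal_append _ _ _ _ ht.le]
    exact hC t G' hG' hb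
  · have ht' : t = C.length := by
      by_contra hne
      have : (C ++ [G])[t]? = none :=
        List.getElem?_eq_none (by rw [List.length_append, List.length_singleton]; omega)
      rw [this] at hG'
      cases hG'
    subst ht'
    rw [List.getElem?_append_right le_rfl, Nat.sub_self] at hG'
    simp only [List.getElem?_cons_zero, Option.some.injEq] at hG'
    subst hG'
    rw [argVal_append _ _ _ _ le_rfl, argVal_append _ _ _ _ le_rfl]
    exact hG hb

lemma rep_one {C : Circuit I K} {a b : Arg I K} {f g : Fm I} (ha : Rep C a f) (hb : Rep C b g)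
    (m : Bool) : Rep (C ++ [⟨m, a, b⟩]) (.gate C.length) (.op m f g) := by
  refine ⟨fun g hg => ?_, fun R A => ?_⟩
  · cases hg
    rw [List.length_append, List.length_singleton]; omega
  · rw [argVal_gate _ _ _ _ (by rw [List.length_append, List.length_singleton]; omega)]
    rw [val_some A (C ++ [(⟨m, a, b⟩ : Gate I K)]) C.length (⟨m, a, b⟩ : Gate I K)
      (by rw [List.getElem?_append_right le_rfl, Nat.sub_self]; rfl)]
    rw [argVal_append _ _ _ _ le_rfl, argVal_append _ _ _ _ le_rfl, ha.2 R A, hb.2 R A]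
    rfl

/-- The set of variables of a formula. -/
def Fm.vars (fv : I → V) : Fm I → Set V
  | .inp i => {fv i}
  | .op _ f g => f.vars fv ∪ g.vars fv

lemma Fm.eval_vars (fv : I → V) (f : Fm I) : f.eval (varsAlg (K := K) fv) = f.vars fv := by
  induction f with
  | inp i => rfl
  | op b f g ihf ihg =>
    cases b
    · show f.eval (varsAlg fv) ∪ g.eval (varsAlg fv) = _
      rw [ihf, ihg]; rfl
    · show f.eval (varsAlg fv) ∪ g.eval (varsAlg fv) = _
      rw [ihf, ihg]; rfl

lemma build (fv : I → V) (S : List (Bool × Fm I × Fm I)) :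
    ∀ C : Circuit I K, Decomposable fv C →
      (∀ s ∈ S, (∃ a, Rep C a s.2.1) ∧ (∃ b, Rep C b s.2.2) ∧
        (s.1 = true → Disjoint (s.2.1.vars fv) (s.2.2.vars fv))) →
      ∃ C' : Circuit I K, Decomposable fv C' ∧ C'.length = C.length + S.length ∧
        (∀ a f, Rep C a f → Rep C' a f) ∧ ∀ s ∈ S, ∃ a, Rep C' a (.op s.1 s.2.1 s.2.2) := by
  induction S with
  | nil =>
    intro C hC _
    exact ⟨C, hC, by simp, fun _ _ h => h, fun s hs => absurd hs (by simp)⟩
  | cons s S ih =>
    intro C hC h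
    obtain ⟨⟨a, ha⟩, ⟨b, hb⟩, hd⟩ := h s (by simp)
    have hC1 : Decomposable fv (C ++ [(⟨s.1, a, b⟩ : Gate I K)]) := by
      refine decomposable_append_one hC _ fun hm => ?_
      rw [ha.2, hb.2, Fm.eval_vars, Fm.eval_vars]
      exact hd hm
    obtain ⟨C', h1, h2, h3, h4⟩ := ih (C ++ [⟨s.1, a, b⟩]) hC1 (by
      intro s' hs'
      obtain ⟨⟨a', ha'⟩, ⟨b', hb'⟩, hd'⟩ := h s' (by simp [hs'])
      exact ⟨⟨a', ha'.append _⟩, ⟨b', hb'.append _⟩, hd'⟩)
    refine ⟨C', h1, ?_, fun a f hf => h3 a f (hf.append _), ?_⟩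
    · rw [h2, List.length_append, List.length_singleton, List.length_cons]; omega
    · intro s' hs'
      rcases List.mem_cons.mp hs' with rfl | hs'
      · exact ⟨_, h3 _ _ (rep_one ha hb _)⟩
      · exact h4 s' hs'

lemma build_family {ι : Type} [Fintype ι] (fv : I → V) (F : ι → Bool × Fm I × Fm I)
    (C : Circuit I K) (hC : Decomposable fv C)
    (h : ∀ i, (∃ a, Rep C a (F i).2.1) ∧ (∃ b, Rep C b (F i).2.2) ∧
        ((F i).1 = true → Disjoint ((F i).2.1.vars fv) ((F i).2.2.vars fv))) :
    ∃ C' : Circuit I K, Decomposable fv C' ∧ C'.length = C.length + Fintype.card ι ∧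
      (∀ a f, Rep C a f → Rep C' a f) ∧ ∀ i, ∃ a, Rep C' a (.op (F i).1 (F i).2.1 (F i).2.2) := by
  obtain ⟨C', h1, h2, h3, h4⟩ := build fv ((univ : Finset ι).toList.map F) C hC (by
    intro s hs
    obtain ⟨i, _, rfl⟩ := List.mem_map.mp hs
    exact h i)
  refine ⟨C', h1, ?_, h3, fun i => ?_⟩
  · rw [h2, List.length_map, Finset.length_toList, Finset.card_univ]
  · exact h4 (F i) (List.mem_map.mpr ⟨i, by simp, rfl⟩)

/-- A balanced sum of `2 ^ m` formulas. -/
def bs : (m : ℕ) → (ℕ → Fm I) → ℕ → Fm I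
  | 0, F, s => F s
  | m + 1, F, s => .op false (bs m F (2 * s)) (bs m F (2 * s + 1))

lemma bs_eval (A : Alg I K R) [AddCommMonoid R] (hA : ∀ a b, A.add a b = a + b)
    (m : ℕ) (F : ℕ → Fm I) (s : ℕ) :
    (bs m F s).eval A = ∑ w ∈ range (2 ^ m), (F (s * 2 ^ m + w)).eval A := by
  induction m generalizing s with
  | zero => simp [bs]
  | succ m ih =>
    have h1 : (bs (m + 1) F s).eval A = (bs m F (2 * s)).eval A + (bs m F (2 * s + 1)).eval A := by
      rw [← hA]; rfl
    rw [h1, ih, ih, pow_succ, mul_two, Finset.sum_range_add]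
    congr 1
    · refine Finset.sum_congr rfl fun w _ => ?_
      congr 2; ring
    · refine Finset.sum_congr rfl fun w _ => ?_
      congr 2; ring

lemma bs_depth (m D : ℕ) (F : ℕ → Fm I) (hF : ∀ w, (F w).eval (depthAlg (K := K)) ≤ D) (s : ℕ) :
    (bs m F s).eval (depthAlg (K := K)) ≤ D + m := by
  induction m generalizing s with
  | zero => exact hF s
  | succ m ih =>
    show max _ _ + 1 ≤ _
    have := ih (2 * s)
    have := ih (2 * s + 1)
    omega

lemma bs_vars (fv : I → V) (m : ℕ) (F : ℕ → Fm I) (W : Set V) (hF : ∀ w, (F w).vars fv ⊆ W)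
    (s : ℕ) : (bs m F s).vars fv ⊆ W := by
  induction m generalizing s with
  | zero => exact hF s
  | succ m ih => exact Set.union_subset (ih _) (ih _)

lemma bs_deg (m D : ℕ) (F : ℕ → Fm I) (hF : ∀ w, (F w).eval (degAlg (K := K)) ≤ D) (s : ℕ) :
    (bs m F s).eval (degAlg (K := K)) ≤ D := by
  induction m generalizing s with
  | zero => exact hF s
  | succ m ih => exact max_le (ih _) (ih _)

/-- Building many balanced sums at once. -/
lemma build_bs_round {ι : Type} [Fintype ι] (fv : I → V) (m : ℕ) (F : ι → ℕ → Fm I)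
    (C : Circuit I K) (hC : Decomposable fv C) (h : ∀ i w, w < 2 ^ m → ∃ a, Rep C a (F i w)) :
    ∀ r, r ≤ m → ∃ C' : Circuit I K, Decomposable fv C' ∧
      C'.length + Fintype.card ι * 2 ^ (m - r) = C.length + Fintype.card ι * 2 ^ m ∧
      (∀ a f, Rep C a f → Rep C' a f) ∧
      ∀ i s, s < 2 ^ (m - r) → ∃ a, Rep C' a (bs r (F i) s) := by
  intro r
  induction r with
  | zero => intro _; exact ⟨C, hC, by simp, fun _ _ h => h, fun i s hs => h i s hs⟩
  | succ r ih =>
    intro hr
    obtain ⟨C1, h1, h2, h3, h4⟩ := ih (by omega)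
    have hpow : 2 ^ (m - r) = 2 * 2 ^ (m - (r + 1)) := by
      rw [← pow_succ']; congr 1; omega
    obtain ⟨C2, g1, g2, g3, g4⟩ := build_family (ι := ι × Fin (2 ^ (m - (r + 1)))) fv
      (fun z => (false, bs r (F z.1) (2 * z.2), bs r (F z.1) (2 * z.2 + 1))) C1 h1 (by
        rintro ⟨i, s, hs⟩
        exact ⟨h4 i _ (by simp only; omega), h4 i _ (by simp only; omega),
          fun h => absurd h (by simp)⟩)
    refine ⟨C2, g1, ?_, fun a f hf => g3 a f (h3 a f hf), fun i s hs => g4 (i, ⟨s, hs⟩)⟩
    rw [g2, ← h2, Fintype.card_prod, Fintype.card_fin, hpow]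
    ring

lemma build_bs {ι : Type} [Fintype ι] (fv : I → V) (m : ℕ) (F : ι → ℕ → Fm I)
    (C : Circuit I K) (hC : Decomposable fv C) (h : ∀ i w, w < 2 ^ m → ∃ a, Rep C a (F i w)) :
    ∃ C' : Circuit I K, Decomposable fv C' ∧
      C'.length + Fintype.card ι = C.length + Fintype.card ι * 2 ^ m ∧
      (∀ a f, Rep C a f → Rep C' a f) ∧ ∀ i, ∃ a, Rep C' a (bs m (F i) 0) := by
  obtain ⟨C', h1, h2, h3, h4⟩ := build_bs_round fv m F C hC h m le_rfl
  refine ⟨C', h1, ?_, h3, fun i => h4 i 0 (by simp)⟩
  simpa using h2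

end H5Width
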