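import Pool.Agent.H5Width.Main

namespace H5Width

open Finset Classical

variable {n d : ℕ}

/-! ### Polynomials -/

lemma mem_support_add {V R : Type} [CommSemiring R] (hpos : ∀ a b : R, a + b = 0 → a = 0)
    (p q : MvPolynomial V R) (m : V →₀ ℕ) :
    m ∈ (p + q).support ↔ m ∈ p.support ∨ m ∈ q.support := by
  simp only [MvPolynomial.mem_support_iff, MvPolynomial.coeff_add]
  constructor
  · intro h
    by_contra hcon
    push Not at hcon
    exact h (by rw [hcon.1, hcon.2, add_zero])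
  · rintro (h | h) hs
    · exact h (hpos _ _ hs)
    · exact h (hpos _ _ (by rw [add_comm]; exact hs))

lemma sum_eq_zero_pos {R ι : Type} [CommSemiring R] (hpos : ∀ a b : R, a + b = 0 → a = 0)
    (s : Finset ι) (f : ι → R) (h : ∑ i ∈ s, f i = 0) : ∀ i ∈ s, f i = 0 := by
  intro i hi
  rw [← Finset.add_sum_erase s f hi] at h
  exact hpos _ _ h

lemma mem_support_mul {V R : Type} [CommSemiring R] [NoZeroDivisors R]
    (hpos : ∀ a b : R, a + b = 0 → a = 0) (p q : MvPolynomial V R) (m : V →₀ ℕ) :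
    m ∈ (p * q).support ↔ ∃ x ∈ p.support, ∃ y ∈ q.support, m = x + y := by
  simp only [MvPolynomial.mem_support_iff, MvPolynomial.coeff_mul]
  constructor
  · intro h
    obtain ⟨⟨x, y⟩, hxy, hne⟩ := Finset.exists_ne_zero_of_sum_ne_zero h
    rw [HasAntidiagonal.mem_antidiagonal] at hxy
    exact ⟨x, left_ne_zero_of_mul hne, y, right_ne_zero_of_mul hne, hxy.symm⟩
  · rintro ⟨x, hx, y, hy, rfl⟩ hs
    have := sum_eq_zero_pos hpos _ _ hs (x, y) (by simp)
    rcases mul_eq_zero.mp this with h | h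
    · exact hx h
    · exact hy h

lemma support_out {V R : Type} [CommSemiring R] [NoZeroDivisors R] [Nontrivial R]
    (hpos : ∀ a b : R, a + b = 0 → a = 0) (C : Circuit V R) (t : ℕ) :
    ((val (polyAlg V R) C t).support : Set (V →₀ ℕ))
      = val (monAlg (fun v => Finsupp.single v 1) (fun c : R => c ≠ 0)) C t := by
  refine val_rel (polyAlg V R) (monAlg (fun v => Finsupp.single v 1) (fun c : R => c ≠ 0)) C
    (fun p s => (p.support : Set (V →₀ ℕ)) = s) ?_ ?_ ?_ ?_ ?_ t
  · simp [polyAlg, monAlg]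
  · intro v
    simp [polyAlg, monAlg, MvPolynomial.support_X]
  · intro c
    ext m
    simp only [polyAlg, monAlg, Finset.mem_coe, MvPolynomial.mem_support_iff,
      MvPolynomial.coeff_C, Set.mem_ofPred_eq]
    split_ifs with h
    · simp [h.symm]
    · simp [Ne.symm h]
  · rintro p q _ _ rfl rfl
    ext m
    simp only [polyAlg, monAlg, Finset.mem_coe, Set.mem_union]
    exact mem_support_add hpos p q m
  · rintro p q _ _ rfl rfl
    ext m
    simp only [polyAlg, monAlg, Finset.mem_coe, Set.mem_ofPred_eq]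
    exact mem_support_mul hpos p q m

theorem lower_poly {R : Type} [CommSemiring R] [NoZeroDivisors R] [Nontrivial R]
    (hpos : ∀ a b : R, a + b = 0 → a = 0) (C : Circuit (Edge n d) R) (F : MvPolynomial (Edge n d) R)
    (hF : (F.support : Set (Edge n d →₀ ℕ)) = Set.range (pathMon n d))
    (hC : out (polyAlg (Edge n d) R) C = F) (k r w : ℕ) (hr : 1 ≤ r) (hw : 1 ≤ w)
    (hn : 4 * r ^ 2 * w ≤ n) (hk : 2 ^ (k + 1) ≤ d + 1) (hW : WidthLE C w) :
    r ^ k < C.length := by
  have hout : out (monAlg (fun v => Finsupp.single v 1) (fun c : R => c ≠ 0)) C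
      = Set.range (pathMon n d) := by
    rw [← hF, ← hC, out, out, support_out hpos]
  have hn0 : 0 < n := by
    have : 0 < 4 * r ^ 2 * w := by positivity
    omega
  have hd0 : 0 < d := by
    have : 2 ≤ 2 ^ (k + 1) := by
      calc 2 = 2 ^ 1 := by norm_num
        _ ≤ 2 ^ (k + 1) := Nat.pow_le_pow_right (by norm_num) (by omega)
    omega
  exact Data.core
    { mon := fun v => Finsupp.single v 1
      nz := fun c : R => c ≠ 0
      C := C
      hmon := fun v => Or.inr ⟨v, rfl⟩
      hd := hd0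
      hn := hn0
      H1 := fun p => by rw [hout]; exact ⟨p, rfl⟩
      H2 := fun m hm _ => by
        rw [hout] at hm
        obtain ⟨p, hp⟩ := hm
        exact ⟨p, hp.symm⟩
      H3 := Or.inl fun m hm => by
        rw [hout] at hm
        obtain ⟨p, rfl⟩ := hm
        rw [degree_pathMon] } k r w hr hw hn hk hW

/-! ### The tropical semirings -/

/-- The weight of a monomial. -/
def wt {V : Type} (x : V → ℕ) (m : V →₀ ℕ) : ℕ := m.sum fun e k => k * x e

lemma wt_zero {V : Type} (x : V → ℕ) : wt x 0 = 0 := by simp [wt]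

lemma wt_add {V : Type} (x : V → ℕ) (m m' : V →₀ ℕ) : wt x (m + m') = wt x m + wt x m' := by
  rw [wt, Finsupp.sum_add_index' (by simp) (by intros; ring)]
  rfl

lemma wt_single {V : Type} (x : V → ℕ) (v : V) : wt x (Finsupp.single v 1) = x v := by
  simp [wt]

lemma wt_pathMon (x : Edge n d → ℕ) (p : ℕ → Fin n) :
    wt x (pathMon n d p) = ∑ i : Fin d, x (i, p i, p (i + 1)) := by
  have : ∀ (s : Finset (Fin d)), wt x (∑ i ∈ s, Finsupp.single (i, p i, p (i + 1)) 1)
      = ∑ i ∈ s, x (i, p i, p (i + 1)) := by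
    intro s
    induction s using Finset.induction_on with
    | empty => simp [wt_zero]
    | insert a s ha ih => rw [Finset.sum_insert ha, Finset.sum_insert ha, wt_add, wt_single, ih]
  exact this univ

lemma wt_eq_sum {V : Type} [Fintype V] (x : V → ℕ) (m : V →₀ ℕ) :
    wt x m = ∑ e, m e * x e := by
  rw [wt, Finsupp.sum_fintype _ _ (by simp)]

/-- Pairs of a constant and a monomial. -/
def pairAlg {V K : Type} (toNat : K → Set ℕ) : Alg V K (Set (ℕ × (V →₀ ℕ))) where
  add a b := a ∪ b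
  mul a b := {m | ∃ x ∈ a, ∃ y ∈ b, m = x + y}
  zero := ∅
  inp i := {(0, Finsupp.single i 1)}
  const c := {y | y.2 = 0 ∧ y.1 ∈ toNat c}

lemma pair_mon {V K : Type} (toNat : K → Set ℕ) (C : Circuit V K) (t : ℕ) :
    Prod.snd '' (val (pairAlg (V := V) toNat) C t)
      = val (monAlg (fun v => Finsupp.single v 1) (fun c => (toNat c).Nonempty)) C t := by
  refine val_rel (pairAlg (V := V) toNat)
    (monAlg (fun v => Finsupp.single v 1) (fun c => (toNat c).Nonempty)) C
    (fun p s => Prod.snd '' p = s) ?_ ?_ ?_ ?_ ?_ t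
  · simp [pairAlg, monAlg]
  · intro v; simp [pairAlg, monAlg]
  · intro c
    ext m
    simp only [pairAlg, monAlg, Set.mem_image, Set.mem_ofPred_eq, Prod.exists, exists_eq_right]
    constructor
    · rintro ⟨a, h1, h2⟩; exact ⟨h1, a, h2⟩
    · rintro ⟨h1, a, h2⟩; exact ⟨a, h1, h2⟩
  · rintro p q _ _ rfl rfl
    exact Set.image_union _ _ _
  · rintro p q _ _ rfl rfl
    ext m
    constructor
    · rintro ⟨_, ⟨x, hx, y, hy, rfl⟩, rfl⟩
      exact ⟨x.2, ⟨x, hx, rfl⟩, y.2, ⟨y, hy, rfl⟩, rfl⟩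
    · rintro ⟨_, ⟨x, hx, rfl⟩, _, ⟨y, hy, rfl⟩, rfl⟩
      exact ⟨x + y, ⟨x, hx, y, hy, rfl⟩, rfl⟩

end H5Width
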