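import Pool.Agent.H5Width.BoolC

namespace H5Width

open Finset Classical

variable {n d : ℕ}

lemma nnreal_pos (a b : NNReal) (h : a + b = 0) : a = 0 := by
  exact (add_eq_zero.mp h).1

/-- The path polynomial has exactly the path monomials. -/
lemma support_pathPoly {R : Type} [CommSemiring R] [Nontrivial R]
    (hpos : ∀ a b : R, a + b = 0 → a = 0) :
    ((∑ p : Fin (d + 1) → Fin n, ∏ i : Fin d, MvPolynomial.X (i, p i.castSucc, p i.succ) :
      MvPolynomial (Edge n d) R).support : Set (Edge n d →₀ ℕ)) = Set.range (pathMon n d) := by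
  have h1 : ∀ p : Fin (d + 1) → Fin n,
      (∏ i : Fin d, MvPolynomial.X (i, p i.castSucc, p i.succ) : MvPolynomial (Edge n d) R)
        = MvPolynomial.monomial (pathMon n d fun j => p ⟨min j d, by omega⟩) 1 := by
    intro p
    rw [pathMon, MvPolynomial.monomial_sum_one]
    refine Finset.prod_congr rfl fun i _ => ?_
    have e1 : (⟨min (i : ℕ) d, by omega⟩ : Fin (d + 1)) = i.castSucc := by
      apply Fin.ext; simp only [Fin.val_castSucc]; omega
    have e2 : (⟨min ((i : ℕ) + 1) d, by omega⟩ : Fin (d + 1)) = i.succ := by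
      apply Fin.ext; simp only [Fin.val_succ]; omega
    rw [e1, e2]
    rfl
  ext m
  rw [Finset.sum_congr rfl fun p _ => h1 p]
  simp only [Finset.mem_coe, MvPolynomial.mem_support_iff, MvPolynomial.coeff_sum,
    MvPolynomial.coeff_monomial, Set.mem_range]
  constructor
  · intro h
    obtain ⟨p, _, hp⟩ := Finset.exists_ne_zero_of_sum_ne_zero h
    split_ifs at hp with h'
    · exact ⟨_, h'⟩
    · exact absurd rfl hp
  · rintro ⟨p, rfl⟩ hs
    have := sum_eq_zero_pos hpos _ _ hs (fun i => p i) (mem_univ _)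
    have e : pathMon n d (fun j => p ((⟨min j d, by omega⟩ : Fin (d + 1)) : ℕ))
        = pathMon n d p := by
      rw [pathMon, pathMon]
      refine Finset.sum_congr rfl fun i _ => ?_
      have e1 : min (i : ℕ) d = i := by omega
      have e2 : min ((i : ℕ) + 1) d = i + 1 := by omega
      simp only [e1, e2]
    rw [if_pos e] at this
    exact one_ne_zero this

/-- The lower bound in all models. -/
theorem lower_all (n d s D w r k : ℕ) (μ : Model) (hr : 1 ≤ r) (hw : 1 ≤ w)
    (hn : 4 * r ^ 2 * w ≤ n) (hk : 2 ^ (k + 1) ≤ d + 1) (h : HasCircuit n d s D w μ) :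
    r ^ k < s := by
  cases μ with
  | decomposable =>
    obtain ⟨C, h1, _, h3, h4, h5⟩ := h
    exact lt_of_lt_of_le (lower_bool C h4 h5 k r w hr hw hn hk h3) h1
  | monotone =>
    obtain ⟨C, h1, _, h3, h4, h5⟩ := h
    exact lt_of_lt_of_le (lower_mono C h4 h5 k r w hr hw hn hk h3) h1
  | counting =>
    obtain ⟨C, h1, _, h3, h4⟩ := h
    exact lt_of_lt_of_le (lower_poly nnreal_pos C _ (support_pathPoly nnreal_pos) h4 k r w
      hr hw hn hk h3) h1
  | support =>
    obtain ⟨C, h1, _, h3, h4⟩ := h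
    exact lt_of_lt_of_le (lower_poly nnreal_pos C _ h4 rfl k r w hr hw hn hk h3) h1
  | minPlus =>
    obtain ⟨C, h1, _, h3, h4⟩ := h
    exact lt_of_lt_of_le (lower_min C h4 k r w hr hw hn hk h3) h1
  | maxPlus =>
    obtain ⟨C, h1, _, h3, h4⟩ := h
    exact lt_of_lt_of_le (lower_max C h4 k r w hr hw hn hk h3) h1

/-- Polynomial size forces linear width. -/
theorem lower_linear (m c D w : ℕ) (μ : Model) (hc : c < m) (hw : 1 ≤ w)
    (h : HasCircuit (2 ^ m) (2 ^ m) ((2 ^ m) ^ c) D w μ) : 2 ^ m < 4 ^ (c + 2) * w := by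
  by_contra hcon
  push Not at hcon
  have e : m - 1 + 1 = m := by omega
  have h1 := lower_all (2 ^ m) (2 ^ m) ((2 ^ m) ^ c) D w (2 ^ (c + 1)) (m - 1) μ
    Nat.one_le_two_pow hw (by
      have h4 : (2 ^ (c + 1)) ^ 2 = 4 ^ (c + 1) := by
        rw [← pow_mul, mul_comm (c + 1) 2, pow_mul]
        norm_num
      have : 4 * (2 ^ (c + 1)) ^ 2 * w = 4 ^ (c + 2) * w := by
        rw [h4, pow_succ 4 (c + 1)]
        ring
      rw [this]; exact hcon) (by rw [e]; omega) h
  rw [← pow_mul, ← pow_mul] at h1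
  have h2 := (Nat.pow_lt_pow_iff_right (by norm_num : 1 < 2)).mp h1
  have h3 : m * c ≤ (c + 1) * (m - 1) := by
    obtain ⟨q, rfl⟩ : ∃ q, m = q + 1 := ⟨m - 1, by omega⟩
    simp only [Nat.add_sub_cancel]
    nlinarith
  omega

end H5Width
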