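import Pool.Agent.H5Width.Trace

namespace H5Width

open Finset Classical

variable {I K : Type} {n d : ℕ}

namespace Data

variable (X : Data n d I K)

/-- The inputs read by an argument, as a set of at most one element. -/
noncomputable def argEdges (a : Arg I K) : Finset (ℕ × Fin n × Fin n) :=
  match a with
  | .inp i => (X.mon i).support.image fun e => ((e.1 : ℕ), e.2.1, e.2.2)
  | .const _ => ∅
  | .gate _ => ∅

lemma argEdges_card (a : Arg I K) : (X.argEdges a).card ≤ 1 := by
  cases a with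
  | inp i =>
    refine le_trans Finset.card_image_le ?_
    rcases X.hmon i with h | ⟨e, h⟩
    · rw [h]; simp
    · rw [h]
      exact le_trans (Finset.card_le_card Finsupp.support_single_subset) (by simp)
  | const c => simp [argEdges]
  | gate g => simp [argEdges]

lemma argIs_mem (a : Arg I K) (e : Edge n d) (h : X.ArgIs a e) :
    ((e.1 : ℕ), e.2.1, e.2.2) ∈ X.argEdges a := by
  obtain ⟨i, rfl, hi⟩ := h
  simp only [argEdges]
  exact Finset.mem_image_of_mem (fun e : Edge n d => ((e.1 : ℕ), e.2.1, e.2.2))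
    (Finsupp.mem_support_iff.mpr hi)

/-- The inputs read by gate number `t`. -/
noncomputable def gateEdges (t : ℕ) : Finset (ℕ × Fin n × Fin n) :=
  match X.C[t]? with
  | none => ∅
  | some G => X.argEdges G.left ∪ X.argEdges G.right

lemma gateEdges_card (t : ℕ) : (X.gateEdges t).card ≤ 2 := by
  unfold gateEdges
  split
  · simp
  · refine le_trans (Finset.card_union_le _ _) ?_
    exact add_le_add (X.argEdges_card _) (X.argEdges_card _)

lemma base (p : ℕ → Fin n) (t i : ℕ) (hi : i < d) (h0 : ¬ X.cov p t i)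
    (h1 : X.cov p (t + 1) i) : (i, p i, p (i + 1)) ∈ X.gateEdges t := by
  have ht : t < X.C.length := by
    by_contra h
    exact h0 (Or.inl (by omega))
  set s := X.C.length - (t + 1) with hs
  have hc1 : X.Cov (X.seq p s) (⟨i, hi⟩, p i, p (i + 1)) ≠ 0 := by
    rcases h1 with h1 | ⟨_, h1⟩
    · have : s = 0 := by omega
      rw [this, X.Cov_seq_zero]
      have := pathMon_self (d := d) p ⟨i, hi⟩
      simp only at this
      rw [this]
      exact one_ne_zero
    · exact h1
  have hc0 : X.Cov (X.seq p (s + 1)) (⟨i, hi⟩, p i, p (i + 1)) = 0 := by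
    by_contra hne
    refine h0 (Or.inr ⟨hi, ?_⟩)
    have : X.C.length - t = s + 1 := by omega
    rw [this]
    exact hne
  have hstep := (X.seq_valid p (s + 1) (by omega)).2 (by omega)
  have e1 : X.C.length - (s + 1) = t := by omega
  rw [e1, Nat.add_sub_cancel] at hstep
  obtain ⟨G, hG, hArg⟩ := hstep.2.2 _ hc1 hc0
  simp only [gateEdges, hG]
  rcases hArg with h | h
  · exact Finset.mem_union_left _ (X.argIs_mem _ _ h)
  · exact Finset.mem_union_right _ (X.argIs_mem _ _ h)

/-- A reference path and monomial for each gate. -/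
noncomputable def ref (g : ℕ) : (ℕ → Fin n) × (Edge n d →₀ ℕ) :=
  if h : ∃ q m, X.Used q g m then (h.choose, h.choose_spec.choose) else (fun _ => ⟨0, X.hn⟩, 0)

lemma ref_used (g : ℕ) (h : ∃ q m, X.Used q g m) : X.Used (X.ref g).1 g (X.ref g).2 := by
  simp only [ref, dif_pos h]
  exact h.choose_spec.choose_spec

/-- The levels of the monomials of a gate. -/
def S (g i : ℕ) : Prop :=
  ∃ h : i < d, (X.ref g).2 (⟨i, h⟩, (X.ref g).1 i, (X.ref g).1 (i + 1)) ≠ 0

lemma live_finite (t : ℕ) : (live X.C t).Finite :=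
  (Set.finite_lt_nat t).subset fun _ h => h.1

lemma star (p : ℕ → Fin n) (t i : ℕ) (hi : i + 1 < d)
    (hne : ¬ (X.cov p t i ↔ X.cov p t (i + 1))) :
    ∃ g ∈ (X.live_finite t).toFinset, ¬ (X.S g i ↔ X.S g (i + 1)) ∧
      ∀ j, j + 1 < d → ¬ (X.S g j ↔ X.S g (j + 1)) → p (j + 1) = (X.ref g).1 (j + 1) := by
  have ht : t < X.C.length := by
    by_contra h
    exact hne ⟨fun _ => Or.inl (by omega), fun _ => Or.inl (by omega)⟩
  have hi0 : i < d := by omega
  set s := X.C.length - t with hs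
  have hV := (X.seq_valid p s (by omega)).1
  have e1 : X.C.length - s = t := by omega
  rw [e1] at hV
  set μ := X.seq p s with hμ
  have hcov : ∀ j (hj : j < d), X.cov p t j ↔ X.Cov μ (⟨j, hj⟩, p j, p (j + 1)) ≠ 0 := by
    intro j hj
    constructor
    · rintro (h | ⟨_, h⟩)
      · omega
      · exact h
    · intro h; exact Or.inr ⟨hj, h⟩
  rw [hcov i hi0, hcov (i + 1) hi] at hne
  -- find the gate
  have hCov : ∀ e, X.Cov μ e = ∑ g ∈ range X.C.length, μ g e := by
    intro e
    simp [Cov, Finsupp.coe_finsetSum]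
  have hex : ∃ g, ¬ (μ g (⟨i, hi0⟩, p i, p (i + 1)) ≠ 0 ↔
      μ g (⟨i + 1, hi⟩, p (i + 1), p (i + 1 + 1)) ≠ 0) := by
    by_contra hcon
    push Not at hcon
    apply hne
    rw [hCov, hCov]
    rw [Ne, Ne, Finset.sum_eq_zero_iff, Finset.sum_eq_zero_iff]
    refine not_congr (forall_congr' fun g => forall_congr' fun _ => ?_)
    exact not_iff_not.mp (hcon g)
  obtain ⟨g, hg⟩ := hex
  have hμg : μ g ≠ 0 := by
    intro h0
    apply hg
    rw [h0]
    simp
  obtain ⟨hgt, hlive, hU⟩ := hV.1 g hμg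
  have hR := X.ref_used g ⟨p, μ g, hU⟩
  have hlev : ∀ j (hj : j < d), X.S g j ↔ μ g (⟨j, hj⟩, p j, p (j + 1)) ≠ 0 := by
    intro j hj
    rw [X.swap_level p (X.ref g).1 g (μ g) (X.ref g).2 hU hR ⟨j, hj⟩]
    constructor
    · rintro ⟨_, h⟩; exact h
    · intro h; exact ⟨hj, h⟩
  refine ⟨g, ?_, ?_, ?_⟩
  · rw [Set.Finite.mem_toFinset]
    refine ⟨hgt, ?_⟩
    rcases hlive with h | h
    · exact h
    · omega
  · rw [hlev i hi0, hlev (i + 1) hi]; exact hg
  · intro j hj hSj
    rw [hlev j (by omega), hlev (j + 1) hj] at hSj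
    exact X.swap_vertex p (X.ref g).1 g (μ g) (X.ref g).2 hU hR j hj hSj

/-- The trade-off between size and width. -/
theorem core (k r w : ℕ) (hr : 1 ≤ r) (hw : 1 ≤ w) (hn : 4 * r ^ 2 * w ≤ n)
    (hk : 2 ^ (k + 1) ≤ d + 1) (hW : WidthLE X.C w) : r ^ k < X.C.length := by
  by_contra hcon
  push Not at hcon
  have h := tradeoff n w r d hr hw hn X.cov X.cov_mono (fun t => (X.live_finite t).toFinset)
    (fun t => by
      rw [← Set.ncard_eq_toFinset_card _ (X.live_finite t)]
      exact hW t) X.S (fun g => (X.ref g).1) X.star X.gateEdges X.gateEdges_card X.base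
    k (2 ^ (k + 1)) 0 0 X.C.length rfl (by omega) (Nat.zero_le _) (by omega) univ (by
      intro a _
      refine ⟨fun j => if h : j < 2 ^ (k + 1) then a ⟨j, h⟩ else ⟨0, X.hn⟩, fun j => ?_,
        fun i _ hi => ⟨X.not_cov_zero _ _, Or.inl le_rfl⟩⟩
      simp)
  rw [Finset.card_univ, Fintype.card_fun, Fintype.card_fin, Fintype.card_fin] at h
  have : n ^ 2 ^ (k + 1) ≤ n ^ 2 ^ (k + 1) * (2 * r) := Nat.le_mul_of_pos_right _ (by omega)
  omega

end Data

end H5Width
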