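import Pool.Agent.H5Width.Formula

namespace H5Width

open Finset Classical

variable {I K R S V : Type}

section

variable (m d : ℕ) (hd : 0 < d) (ι : Edge (2 ^ m) d → I)

/-- The vertex with number `w mod 2 ^ m`. -/
def vx (m w : ℕ) : Fin (2 ^ m) := ⟨w % 2 ^ m, Nat.mod_lt _ (by positivity)⟩

/-- The formula for the paths from vertex `u` of layer `a` to vertex `v` of layer `a + 2 ^ j`. -/
def WF : ℕ → ℕ → Fin (2 ^ m) → Fin (2 ^ m) → Fm I
  | 0, a, u, v => .inp (ι (⟨a % d, Nat.mod_lt _ hd⟩, u, v))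
  | j + 1, a, u, v => bs m (fun w => .op true (WF j a u (vx m w)) (WF j (a + 2 ^ j) (vx m w) v)) 0

/-- The formula for all paths with `2 ^ k` steps. -/
def TF (k : ℕ) : Fm I :=
  bs (m + m) (fun s => WF m d hd ι k 0 (vx m (s / 2 ^ m)) (vx m s)) 0

lemma WF_depth (j a : ℕ) (u v : Fin (2 ^ m)) :
    (WF m d hd ι j a u v).eval (depthAlg (K := K)) ≤ j * (m + 1) := by
  induction j generalizing a u v with
  | zero => exact Nat.zero_le _
  | succ j ih =>
    rw [WF]
    refine le_trans (bs_depth m (j * (m + 1) + 1) _ (fun w => ?_) 0) ?_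
    · show max _ _ + 1 ≤ _
      have h1 := ih a u (vx m w)
      have h2 := ih (a + 2 ^ j) (vx m w) v
      omega
    · rw [Nat.succ_mul]; omega

lemma TF_depth (k : ℕ) :
    (TF m d hd ι k).eval (depthAlg (K := K)) ≤ k * (m + 1) + 2 * m := by
  refine le_trans (bs_depth (m + m) (k * (m + 1)) _ (fun _ => WF_depth m d hd ι k _ _ _) 0) ?_
  omega

lemma WF_deg (j a : ℕ) (u v : Fin (2 ^ m)) :
    (WF m d hd ι j a u v).eval (degAlg (K := K)) ≤ 2 ^ j := by
  induction j generalizing a u v with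
  | zero => exact le_rfl
  | succ j ih =>
    rw [WF]
    refine bs_deg m _ _ (fun w => ?_) 0
    show _ + _ ≤ _
    have h1 := ih a u (vx m w)
    have h2 := ih (a + 2 ^ j) (vx m w) v
    rw [pow_succ]
    omega

lemma TF_deg (k : ℕ) :
    (TF m d hd ι k).eval (degAlg (K := K)) ≤ 2 ^ k :=
  bs_deg (m + m) _ _ (fun _ => WF_deg m d hd ι k _ _ _) 0

/-- The variables of `WF j a` are in the levels `a, ..., a + 2 ^ j - 1`. -/
lemma WF_vars (fv : I → Edge (2 ^ m) d) (hfv : ∀ e, fv (ι e) = e) (j a : ℕ)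
    (ha : a + 2 ^ j ≤ d) (u v : Fin (2 ^ m)) :
    (WF m d hd ι j a u v).vars fv ⊆ {e | a ≤ (e.1 : ℕ) ∧ (e.1 : ℕ) < a + 2 ^ j} := by
  induction j generalizing a u v with
  | zero =>
    rintro e he
    have he' : e = fv (ι (⟨a % d, Nat.mod_lt _ hd⟩, u, v)) := he
    rw [he', hfv]
    have : a % d = a := Nat.mod_eq_of_lt (by simp at ha; omega)
    simp [this]
  | succ j ih =>
    rw [WF]
    have hp : 2 ^ (j + 1) = 2 ^ j + 2 ^ j := by rw [pow_succ]; ring
    have hp0 : 0 < 2 ^ j := by positivity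
    refine bs_vars fv m _ _ (fun w => ?_) 0
    rw [Fm.vars]
    refine Set.union_subset ?_ ?_
    · refine (ih a (by omega) u (vx m w)).trans ?_
      rintro e ⟨h1, h2⟩
      exact ⟨h1, by omega⟩
    · refine (ih (a + 2 ^ j) (by omega) (vx m w) v).trans ?_
      rintro e ⟨h1, h2⟩
      exact ⟨by omega, by omega⟩

/-- A shallow circuit for all paths. -/
theorem exists_nc (k : ℕ) (hk : d = 2 ^ k) (hm : 1 ≤ m) (fv : I → Edge (2 ^ m) d)
    (hfv : ∀ e, fv (ι e) = e) :
    ∃ C : Circuit I K, Decomposable fv C ∧ C.length ≤ 2 * d * 2 ^ (3 * m) ∧ 0 < C.length ∧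
      Rep C (.gate (C.length - 1)) (TF m d hd ι k) := by
  obtain ⟨n, hn⟩ : ∃ n, n = 2 ^ m := ⟨_, rfl⟩
  have hn1 : 1 ≤ n := by rw [hn]; exact Nat.one_le_two_pow
  have hn3 : 2 ^ (3 * m) = n * n * n := by rw [hn, ← pow_add, ← pow_add]; congr 1; ring
  rw [hn3]
  -- the gates for the windows of length `2 ^ j`
  have key : ∀ j, j ≤ k → ∃ C : Circuit I K, Decomposable fv C ∧
      C.length + 2 ^ (k - j) * (2 * (n * n * n)) ≤ 2 ^ k * (2 * (n * n * n)) ∧
      ∀ b, b < 2 ^ (k - j) → ∀ u v, ∃ a, Rep C a (WF m d hd ι j (b * 2 ^ j) u v) := by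
    intro j
    induction j with
    | zero =>
      intro _
      refine ⟨[], fun t G hG => by simp at hG, by simp, fun b hb u v => ?_⟩
      refine ⟨.inp (ι (⟨(b * 2 ^ 0) % d, Nat.mod_lt _ hd⟩, u, v)), ?_, fun R A => rfl⟩
      intro g hg
      cases hg
    | succ j ih =>
      intro hj
      obtain ⟨C0, h1, h2, h3⟩ := ih (by omega)
      have hp : 2 ^ (k - j) = 2 * 2 ^ (k - (j + 1)) := by
        rw [← pow_succ']; congr 1; omega
      have hp0 : 0 < 2 ^ j := by positivity
      have hp1 : 2 ^ (j + 1) = 2 * 2 ^ j := by rw [pow_succ]; ring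
      set B := 2 ^ (k - (j + 1)) with hB
      have hBk : B * 2 ^ (j + 1) = d := by rw [hB, hk, ← pow_add]; congr 1; omega
      have e0 : ∀ b : ℕ, b * 2 ^ (j + 1) = (2 * b) * 2 ^ j := fun b => by rw [hp1]; ring
      have e1 : ∀ b : ℕ, b * 2 ^ (j + 1) + 2 ^ j = (2 * b + 1) * 2 ^ j := fun b => by
        rw [hp1]; ring
      -- products
      obtain ⟨C1, g1, g2, g3, g4⟩ := build_family
        (ι := Fin B × Fin (2 ^ m) × Fin (2 ^ m) × Fin (2 ^ m)) fv
        (fun z => (true, WF m d hd ι j (z.1 * 2 ^ (j + 1)) z.2.1 (vx m z.2.2.2),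
          WF m d hd ι j (z.1 * 2 ^ (j + 1) + 2 ^ j) (vx m z.2.2.2) z.2.2.1)) C0 h1 (by
          rintro ⟨⟨b, hb⟩, u, v, w⟩
          refine ⟨?_, ?_, fun _ => ?_⟩
          · simp only [e0]; exact h3 _ (by omega) _ _
          · simp only [e1]; exact h3 _ (by omega) _ _
          · have hbd : b * 2 ^ (j + 1) + 2 ^ (j + 1) ≤ d := by
              calc b * 2 ^ (j + 1) + 2 ^ (j + 1) = (b + 1) * 2 ^ (j + 1) := by ring
                _ ≤ B * 2 ^ (j + 1) := Nat.mul_le_mul_right _ (by omega)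
                _ = d := hBk
            rw [Set.disjoint_left]
            intro e he he'
            have a1 := WF_vars m d hd ι fv hfv j (b * 2 ^ (j + 1)) (by omega) _ _ he
            have a2 := WF_vars m d hd ι fv hfv j (b * 2 ^ (j + 1) + 2 ^ j) (by omega) _ _ he'
            simp only [Set.mem_ofPred_eq] at a1 a2
            omega)
      obtain ⟨C2, f1, f2, f3, f4⟩ := build_bs
        (ι := Fin B × Fin (2 ^ m) × Fin (2 ^ m)) fv m
        (fun z w => .op true (WF m d hd ι j (z.1 * 2 ^ (j + 1)) z.2.1 (vx m w))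
          (WF m d hd ι j (z.1 * 2 ^ (j + 1) + 2 ^ j) (vx m w) z.2.2)) C1 g1 (by
          rintro ⟨b, u, v⟩ w hw
          have := g4 (b, u, v, ⟨w, hw⟩)
          exact this)
      refine ⟨C2, f1, ?_, fun b hb u v => ?_⟩
      · simp only [Fintype.card_prod, Fintype.card_fin] at g2 f2
        rw [← hn] at f2 g2
        have hle : C2.length ≤ C0.length + B * (2 * (n * n * n)) := by
          have : C2.length ≤ C1.length + B * (n * n) * n := by omega
          calc C2.length ≤ C1.length + B * (n * n) * n := this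
            _ = C0.length + B * (n * (n * n)) + B * (n * n) * n := by rw [g2]
            _ = C0.length + B * (2 * (n * n * n)) := by ring
        calc C2.length + B * (2 * (n * n * n))
            ≤ C0.length + B * (2 * (n * n * n)) + B * (2 * (n * n * n)) := by omega
          _ = C0.length + 2 ^ (k - j) * (2 * (n * n * n)) := by rw [hp]; ring
          _ ≤ _ := h2
      · have := f4 (⟨b, hb⟩, u, v)
        exact this
  obtain ⟨C0, h1, h2, h3⟩ := key k le_rfl
  simp only [Nat.sub_self, pow_zero, one_mul, Nat.lt_one_iff, forall_eq, zero_mul] at h2 h3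
  obtain ⟨C1, g1, g2, g3, g4⟩ := build_bs_round (ι := Unit) fv (m + m)
    (fun _ s => WF m d hd ι k 0 (vx m (s / 2 ^ m)) (vx m s)) C0 h1
    (fun _ w _ => h3 _ _) (m + m - 1) (by omega)
  have e2 : m + m - (m + m - 1) = 1 := by omega
  rw [e2] at g2 g4
  obtain ⟨a0, ha0⟩ := g4 () 0 (by norm_num)
  obtain ⟨a1, ha1⟩ := g4 () 1 (by norm_num)
  refine ⟨C1 ++ [⟨false, a0, a1⟩], ?_, ?_, ?_, ?_⟩
  · exact decomposable_append_one g1 _ (fun h => by simp at h)
  · rw [List.length_append, List.length_singleton]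
    simp only [Fintype.card_unit, one_mul, pow_one] at g2
    have hnn : 2 ^ (m + m) = n * n := by rw [pow_add, hn]
    rw [hnn] at g2
    have : n * n ≤ 2 * (n * n * n) := by nlinarith [Nat.mul_le_mul_left (n * n) hn1]
    have h5 : 2 * d * (n * n * n) = 2 ^ k * (2 * (n * n * n)) := by rw [hk]; ring
    rw [h5]
    omega
  · rw [List.length_append, List.length_singleton]; omega
  · rw [List.length_append, List.length_singleton, Nat.add_sub_cancel]
    have := rep_one ha0 ha1 false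
    have e3 : TF m d hd ι k = .op false (bs (m + m - 1)
        (fun s => WF m d hd ι k 0 (vx m (s / 2 ^ m)) (vx m s)) 0)
        (bs (m + m - 1) (fun s => WF m d hd ι k 0 (vx m (s / 2 ^ m)) (vx m s)) 1) := by
      have : m + m = m + m - 1 + 1 := by omega
      unfold TF
      obtain ⟨q, hq⟩ : ∃ q, m + m = q + 1 := ⟨m + m - 1, this⟩
      rw [hq, Nat.add_sub_cancel]
      rfl
    rw [e3]
    exact this

end

end H5Width
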