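import Pool.Agent.H5Width.Transfer

namespace H5Width

open Finset Classical

variable {I K R : Type}

/-! ### Register programs -/

inductive RArg (I K : Type) where
  | inp (i : I)
  | const (c : K)
  | reg (j : ℕ)

structure Instr (I K : Type) where
  dst : ℕ
  isMul : Bool
  left : RArg I K
  right : RArg I K

def RArg.eval (A : Alg I K R) (σ : ℕ → R) : RArg I K → R
  | .inp i => A.inp i
  | .const c => A.const c
  | .reg j => σ j

def Instr.value (A : Alg I K R) (σ : ℕ → R) (ins : Instr I K) : R :=
  if ins.isMul then A.mul (ins.left.eval A σ) (ins.right.eval A σ)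
  else A.add (ins.left.eval A σ) (ins.right.eval A σ)

def Instr.exec (A : Alg I K R) (σ : ℕ → R) (ins : Instr I K) : ℕ → R :=
  Function.update σ ins.dst (ins.value A σ)

def run (A : Alg I K R) (σ : ℕ → R) (P : List (Instr I K)) : ℕ → R := P.foldl (Instr.exec A) σ

/-- All values computed by the program are good. -/
def AllGood (A : Alg I K R) (Good : R → Prop) : (ℕ → R) → List (Instr I K) → Prop
  | _, [] => True
  | σ, ins :: P => Good (ins.value A σ) ∧ AllGood A Good (ins.exec A σ) P

lemma run_append (A : Alg I K R) (σ : ℕ → R) (P Q : List (Instr I K)) :
    run A σ (P ++ Q) = run A (run A σ P) Q := List.foldl_append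

lemma allGood_append (A : Alg I K R) (Good : R → Prop) (σ : ℕ → R) (P Q : List (Instr I K)) :
    AllGood A Good σ (P ++ Q) ↔ AllGood A Good σ P ∧ AllGood A Good (run A σ P) Q := by
  induction P generalizing σ with
  | nil => simp [AllGood, run]
  | cons ins P ih =>
    rw [List.cons_append, AllGood, AllGood, ih, and_assoc]
    rfl

lemma loop (A : Alg I K R) (Good : R → Prop) (N : ℕ) (body : ℕ → List (Instr I K))
    (Inv : ℕ → (ℕ → R) → Prop) (σ : ℕ → R) (h0 : Inv 0 σ)
    (h : ∀ i, i < N → ∀ σ, Inv i σ → Inv (i + 1) (run A σ (body i)) ∧
      AllGood A Good σ (body i)) :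
    Inv N (run A σ ((List.range N).flatMap body)) ∧
      AllGood A Good σ ((List.range N).flatMap body) := by
  induction N with
  | zero => exact ⟨h0, trivial⟩
  | succ N ih =>
    obtain ⟨h1, h2⟩ := ih (fun i hi => h i (by omega))
    rw [List.range_succ, List.flatMap_append, run_append, allGood_append]
    have h3 := h N (by omega) _ h1
    simp only [List.flatMap_singleton]
    exact ⟨h3.1, h2, h3.2⟩

/-! ### Compilation to circuits -/

/-- The last instruction before time `t` that writes to register `j`. -/
def lastW (P : List (Instr I K)) : ℕ → ℕ → Option ℕ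
  | 0, _ => none
  | t + 1, j =>
    match P[t]? with
    | none => lastW P t j
    | some ins => if ins.dst = j then some t else lastW P t j

lemma lastW_lt (P : List (Instr I K)) (t j g : ℕ) (h : lastW P t j = some g) : g < t := by
  induction t with
  | zero => simp [lastW] at h
  | succ t ih =>
    rw [lastW] at h
    split at h
    · have := ih h; omega
    · split_ifs at h with h'
      · simp only [Option.some.injEq] at h; omega
      · have := ih h; omega

lemma lastW_back (P : List (Instr I K)) (t s j g : ℕ) (hts : t ≤ s) (h : lastW P s j = some g)
    (hg : g < t) : lastW P t j = some g := by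
  induction s, hts using Nat.le_induction with
  | base => exact h
  | succ s hts ih =>
    rw [lastW] at h
    split at h
    · exact ih h
    · split_ifs at h with h'
      · simp only [Option.some.injEq] at h; omega
      · exact ih h

/-- The argument of a gate for an argument of an instruction. -/
def conv (z : K) (ρ : ℕ → Option ℕ) : RArg I K → Arg I K
  | .inp i => .inp i
  | .const c => .const c
  | .reg j => match ρ j with
    | none => .const z
    | some g => .gate g

/-- The circuit of a program. -/
def compile (z : K) (P : List (Instr I K)) : Circuit I K :=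
  P.mapIdx fun t ins => ⟨ins.isMul, conv z (lastW P t) ins.left, conv z (lastW P t) ins.right⟩

lemma compile_length (z : K) (P : List (Instr I K)) : (compile z P).length = P.length := by
  simp [compile]

lemma compile_get (z : K) (P : List (Instr I K)) (t : ℕ) :
    (compile z P)[t]? = (P[t]?).map fun ins =>
      ⟨ins.isMul, conv z (lastW P t) ins.left, conv z (lastW P t) ins.right⟩ := by
  simp [compile]

lemma compile_val (z : K) (P : List (Instr I K)) (A : Alg I K R) (hz : A.const z = A.zero)
    (t : ℕ) (ht : t ≤ P.length) (j : ℕ) :
    run A (fun _ => A.zero) (P.take t) j = match lastW P t j with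
      | none => A.zero
      | some g => val A (compile z P) g := by
  induction t generalizing j with
  | zero => rfl
  | succ t ih =>
    have htl : t < P.length := by omega
    have hget : P[t]? = some P[t] := List.getElem?_eq_getElem htl
    rw [List.take_succ_eq_append_getElem htl, run_append]
    have harg : ∀ a : RArg I K, a.eval A (run A (fun _ => A.zero) (P.take t))
        = argVal A (compile z P) t (conv z (lastW P t) a) := by
      intro a
      cases a with
      | inp i => rfl
      | const c => rfl
      | reg q =>
        show run A (fun _ => A.zero) (P.take t) q = _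
        rw [ih (by omega) q]
        simp only [conv]
        cases hq : lastW P t q with
        | none => exact hz.symm
        | some g => exact (argVal_gate _ _ _ _ (lastW_lt P t q g hq)).symm
    have hval : (P[t]).value A (run A (fun _ => A.zero) (P.take t)) = val A (compile z P) t := by
      rw [val_some A (compile z P) t _ (by rw [compile_get, hget]; rfl), Instr.value, harg, harg]
    show Function.update _ _ _ j = _
    rw [hval, lastW, hget]
    simp only
    by_cases hj : (P[t]).dst = j
    · rw [if_pos hj, hj, Function.update_self]
    · rw [if_neg hj, Function.update_of_ne (Ne.symm hj), ih (by omega)]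

/-- All registers that are read are below `W`. -/
def RegsLt (W : ℕ) (P : List (Instr I K)) : Prop :=
  ∀ ins ∈ P, ∀ j, (ins.left = .reg j ∨ ins.right = .reg j) → j < W

lemma compile_width (z : K) (P : List (Instr I K)) (W : ℕ) (hP : RegsLt W P) :
    WidthLE (compile z P) W := by
  intro t
  have hconv : ∀ (s g : ℕ) (a : RArg I K), conv z (lastW P s) a = .gate g →
      ∃ j, a = .reg j ∧ lastW P s j = some g := by
    intro s g a h
    cases a with
    | inp i => simp [conv] at h
    | const c => simp [conv] at h
    | reg j =>
      refine ⟨j, rfl, ?_⟩
      simp only [conv] at h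
      split at h
      · simp at h
      · next g' hg' =>
        simp only [Arg.gate.injEq] at h
        rw [← h]; exact hg'
  have hsub : live (compile z P) t ⊆
      ((Finset.range W).image fun j => (lastW P t j).getD 0 : Finset ℕ) := by
    rintro g ⟨hg, s, hs, G, hG, huse⟩
    rw [compile_get] at hG
    obtain ⟨ins, hins, rfl⟩ := Option.map_eq_some_iff.mp hG
    have hmem : ins ∈ P := List.mem_of_getElem? hins
    have : ∃ j, (ins.left = .reg j ∨ ins.right = .reg j) ∧ lastW P s j = some g := by
      rcases huse with h | h
      · obtain ⟨j, h1, h2⟩ := hconv s g _ h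
        exact ⟨j, Or.inl h1, h2⟩
      · obtain ⟨j, h1, h2⟩ := hconv s g _ h
        exact ⟨j, Or.inr h1, h2⟩
    obtain ⟨j, hj, hlast⟩ := this
    rw [Finset.mem_coe, Finset.mem_image]
    refine ⟨j, Finset.mem_range.mpr (hP ins hmem j hj), ?_⟩
    rw [lastW_back P t s j g hs hlast hg]
    rfl
  calc (live (compile z P) t).ncard
      ≤ (((Finset.range W).image fun j => (lastW P t j).getD 0 : Finset ℕ) : Set ℕ).ncard :=
        Set.ncard_le_ncard hsub (Finset.finite_toSet _)
    _ = ((Finset.range W).image fun j => (lastW P t j).getD 0).card := Set.ncard_coe_finset _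
    _ ≤ W := by
        refine le_trans Finset.card_image_le ?_
        rw [Finset.card_range]

/-- The output of the compiled circuit. -/
lemma compile_out (z : K) (P : List (Instr I K)) (ins : Instr I K) (A : Alg I K R)
    (hz : A.const z = A.zero) :
    out A (compile z (P ++ [ins])) = run A (fun _ => A.zero) (P ++ [ins]) ins.dst := by
  have h := compile_val z (P ++ [ins]) A hz (P ++ [ins]).length le_rfl ins.dst
  rw [List.take_length] at h
  have hl : (P ++ [ins]).length = P.length + 1 := by simp
  have h2 : lastW (P ++ [ins]) (P ++ [ins]).length ins.dst = some P.length := by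
    rw [hl, lastW]
    simp
  rw [h, h2, out, compile_length, hl]
  rfl

/-- The values of all gates. -/
lemma compile_good (z : K) (P : List (Instr I K)) (A : Alg I K R) (hz : A.const z = A.zero)
    (Good : R → Prop) (hP : AllGood A Good (fun _ => A.zero) P) (t : ℕ) (ht : t < P.length) :
    Good (val A (compile z P) t) := by
  have h := compile_val z P A hz (t + 1) (by omega) (P[t]).dst
  have hget : P[t]? = some P[t] := List.getElem?_eq_getElem ht
  rw [lastW, hget] at h
  simp only [if_true] at h
  rw [← h, List.take_succ_eq_append_getElem ht, run_append]
  have e : run A (run A (fun _ => A.zero) (P.take t)) [P[t]] (P[t]).dst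
      = (P[t]).value A (run A (fun _ => A.zero) (P.take t)) := Function.update_self _ _ _
  rw [e]
  have h2 : P = P.take t ++ P[t] :: P.drop (t + 1) := by
    rw [List.getElem_cons_drop, List.take_append_drop]
  rw [h2, allGood_append, AllGood] at hP
  exact hP.2.1

end H5Width
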