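import Pool.Agent.H5Width.Prog

namespace H5Width

open Finset Classical

variable {R : Type}

section

variable (n d b g K : ℕ) (hn : 0 < n) (hd : 0 < d)

/-- The input for the arc from vertex `u` to vertex `v` at level `a`. -/
def ed (a u v : ℕ) : Edge n d := (⟨a % d, Nat.mod_lt _ hd⟩, ⟨u % n, Nat.mod_lt _ hn⟩,
  ⟨v % n, Nat.mod_lt _ hn⟩)

/-- One product and one addition: register `t b + i'` += register `s b + i` times an input. -/
def body0 (a I J s t i i' : ℕ) : List (Instr (Edge n d) Bool) :=
  [⟨(K + 2) * b, true, .reg (s * b + i), .inp (ed n d hn hd a (I * b + i) (J * b + i'))⟩,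
    ⟨t * b + i', false, .reg (t * b + i'), .reg ((K + 2) * b)⟩]

/-- Transport of block `s` (vertices of group `I`) to block `t` (group `J`) over one level. -/
def prog0 (a I J s t : ℕ) : List (Instr (Edge n d) Bool) :=
  (List.range b).flatMap fun i => (List.range b).flatMap fun i' => body0 n d b K hn hd a I J s t i i'

/-- Clearing block `s`. -/
def clear (s : ℕ) : List (Instr (Edge n d) Bool) :=
  (List.range b).flatMap fun i => [⟨s * b + i, false, .const false, .const false⟩]

/-- Transport over `2 ^ j` levels. -/
def prog : ℕ → ℕ → ℕ → ℕ → ℕ → ℕ → List (Instr (Edge n d) Bool)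
  | 0, a, I, J, s, t => prog0 n d b K hn hd a I J s t
  | j + 1, a, I, J, s, t => (List.range g).flatMap fun I' =>
      clear n d b j ++ (prog j a I I' s j ++ prog j (a + 2 ^ j) I' J j t)

/-- What is needed of an algebra together with a family of properties of its values. -/
structure Graded (A : Alg (Edge n d) Bool R) (Good : R → Prop) (Pr : ℕ → R → Prop) : Prop where
  good : ∀ a v, Pr a v → Good v
  mono : ∀ a a' v, a ≤ a' → Pr a v → Pr a' v
  add : ∀ a v v', Pr a v → Pr a v' → Pr a (A.add v v')
  mul : ∀ a v u w, a < d → Pr a v → Pr (a + 1) (A.mul v (A.inp (ed n d hn hd a u w)))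
  zero : Pr 0 A.zero
  const : ∀ c, Pr 0 (A.const c)

variable {n d}

/-- The block `t` of registers. -/
def inBlock (b t q : ℕ) : Prop := t * b ≤ q ∧ q < (t + 1) * b

lemma block_ne {b s t i q : ℕ} (hst : s ≠ t) (hi : i < b) (hq : inBlock b t q) :
    s * b + i ≠ q := by
  rintro rfl
  rcases Nat.lt_or_gt_of_ne hst with h | h
  · have : (s + 1) * b ≤ t * b := Nat.mul_le_mul_right _ h
    have h2 := hq.1
    rw [add_mul] at this
    omega
  · have : (t + 1) * b ≤ s * b := Nat.mul_le_mul_right _ h
    have h2 := hq.2
    omega

lemma clear_spec (A : Alg (Edge n d) Bool R) (Good : R → Prop) (Pr : ℕ → R → Prop)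
    (hG : Graded n d hn hd A Good Pr) (s : ℕ) (σ : ℕ → R) :
    ((∀ i, i < b → run A σ (clear n d b s) (s * b + i) = A.add (A.const false) (A.const false)) ∧
      ∀ q, ¬ inBlock b s q → run A σ (clear n d b s) q = σ q) ∧
      AllGood A Good σ (clear n d b s) := by
  have h := loop A Good b (fun i => [(⟨s * b + i, false, .const false, .const false⟩ :
      Instr (Edge n d) Bool)])
    (fun i τ => (∀ i', i' < i → τ (s * b + i') = A.add (A.const false) (A.const false)) ∧
      ∀ q, ¬ inBlock b s q → τ q = σ q) σ ⟨fun i' hi' => absurd hi' (by omega), fun _ _ => rfl⟩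
    (by
      rintro i hi τ ⟨h1, h2⟩
      refine ⟨⟨fun i' hi' => ?_, fun q hq => ?_⟩, ?_, trivial⟩
      · show Function.update τ _ _ _ = _
        by_cases h : i' = i
        · subst h
          rw [Function.update_self]; rfl
        · rw [Function.update_of_ne (show s * b + i' ≠ s * b + i by omega)]
          exact h1 i' (by omega)
      · show Function.update τ _ _ _ = _
        rw [Function.update_of_ne]
        · exact h2 q hq
        · intro hqq
          have hqq' : q = s * b + i := hqq
          apply hq
          rw [hqq']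
          exact ⟨Nat.le_add_right _ _, by rw [add_mul]; omega⟩
      · exact hG.good 0 _ (hG.add 0 _ _ (hG.const _) (hG.const _)))
  exact h

lemma allGood_true {I K : Type} (A : Alg I K R) (σ : ℕ → R) (P : List (Instr I K)) :
    AllGood A (fun _ => True) σ P := by
  induction P generalizing σ with
  | nil => trivial
  | cons ins P ih => exact ⟨trivial, ih _⟩

lemma clear_both (A : Alg (Edge n d) Bool R) (s : ℕ) (σ : ℕ → R) :
    (∀ i, i < b → run A σ (clear n d b s) (s * b + i) = A.add (A.const false) (A.const false)) ∧
      ∀ q, ¬ inBlock b s q → run A σ (clear n d b s) q = σ q := by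
  have h := loop A (fun _ => True) b (fun i => [(⟨s * b + i, false, .const false, .const false⟩ :
      Instr (Edge n d) Bool)])
    (fun i τ => (∀ i', i' < i → τ (s * b + i') = A.add (A.const false) (A.const false)) ∧
      ∀ q, ¬ inBlock b s q → τ q = σ q) σ ⟨fun i' hi' => absurd hi' (by omega), fun _ _ => rfl⟩
    (by
      rintro i hi τ ⟨h1, h2⟩
      refine ⟨⟨fun i' hi' => ?_, fun q hq => ?_⟩, trivial, trivial⟩
      · show Function.update τ _ _ _ = _
        by_cases h : i' = i
        · subst h
          rw [Function.update_self]; rfl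
        · rw [Function.update_of_ne (show s * b + i' ≠ s * b + i by omega)]
          exact h1 i' (by omega)
      · show Function.update τ _ _ _ = _
        rw [Function.update_of_ne]
        · exact h2 q hq
        · intro hqq
          have hqq' : q = s * b + i := hqq
          apply hq
          rw [hqq']
          exact ⟨Nat.le_add_right _ _, by rw [add_mul]; omega⟩)
  exact h.1

lemma clear_val (A : Alg (Edge n d) Bool R) (s : ℕ) (σ : ℕ → R) (i : ℕ) (hi : i < b) :
    run A σ (clear n d b s) (s * b + i) = A.add (A.const false) (A.const false) :=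
  (clear_both b A s σ).1 i hi

lemma clear_other (A : Alg (Edge n d) Bool R) (s : ℕ) (σ : ℕ → R) (q : ℕ)
    (hq : ¬ inBlock b s q) : run A σ (clear n d b s) q = σ q :=
  (clear_both b A s σ).2 q hq

lemma sum_blocks [AddCommMonoid R] (g b : ℕ) (f : ℕ → R) :
    ∑ x ∈ range (g * b), f x = ∑ I ∈ range g, ∑ i ∈ range b, f (I * b + i) := by
  induction g with
  | zero => simp
  | succ g ih =>
    rw [Finset.sum_range_succ, ← ih, add_mul, one_mul, Finset.sum_range_add]

/-- Specification of transports: values in a commutative semiring. -/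
lemma prog0_spec [CommSemiring R] (A : Alg (Edge n d) Bool R) (ha : ∀ a b, A.add a b = a + b)
    (hm : ∀ a b, A.mul a b = a * b) (a I J s t : ℕ) (hst : s ≠ t) (hs : s < K + 2)
    (ht : t < K + 2) (σ : ℕ → R) :
    (∀ i', i' < b → run A σ (prog0 n d b K hn hd a I J s t) (t * b + i')
      = σ (t * b + i') + ∑ i ∈ range b, σ (s * b + i) *
        A.inp (ed n d hn hd a (I * b + i) (J * b + i'))) ∧
      ∀ q, ¬ inBlock b t q → q ≠ (K + 2) * b →
        run A σ (prog0 n d b K hn hd a I J s t) q = σ q := by
  have htmp : ∀ r, r < K + 2 → ∀ i, i < b → r * b + i ≠ (K + 2) * b := by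
    intro r hr i hi h
    have : (r + 1) * b ≤ (K + 2) * b := Nat.mul_le_mul_right _ hr
    rw [add_mul] at this
    omega
  have h := (loop A (fun _ => True) b (fun i => (List.range b).flatMap fun i' =>
      body0 n d b K hn hd a I J s t i i')
    (fun i τ => (∀ i', i' < b → τ (t * b + i')
      = σ (t * b + i') + ∑ i ∈ range i, σ (s * b + i) *
        A.inp (ed n d hn hd a (I * b + i) (J * b + i'))) ∧
      ∀ q, ¬ inBlock b t q → q ≠ (K + 2) * b → τ q = σ q) σ
    ⟨fun i' _ => by simp, fun _ _ _ => rfl⟩ (by
      rintro i hi τ ⟨h1, h2⟩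
      have h := loop A (fun _ => True) b (fun i' => body0 n d b K hn hd a I J s t i i')
        (fun i' υ => (∀ i'', i'' < b → υ (t * b + i'')
          = τ (t * b + i'') + if i'' < i' then τ (s * b + i) *
            A.inp (ed n d hn hd a (I * b + i) (J * b + i'')) else 0) ∧
          ∀ q, ¬ inBlock b t q → q ≠ (K + 2) * b → υ q = τ q) τ
        ⟨fun i'' _ => by simp, fun _ _ _ => rfl⟩ (by
          rintro i' hi' υ ⟨g1, g2⟩
          refine ⟨⟨fun i'' hi'' => ?_, fun q hq hq' => ?_⟩, trivial, trivial, trivial⟩
          · have e0 : run A υ (body0 n d b K hn hd a I J s t i i')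
                = Function.update (Function.update υ ((K + 2) * b) (A.mul (υ (s * b + i))
                    (A.inp (ed n d hn hd a (I * b + i) (J * b + i')))))
                  (t * b + i') (A.add
                    (Function.update υ ((K + 2) * b) (A.mul (υ (s * b + i))
                      (A.inp (ed n d hn hd a (I * b + i) (J * b + i')))) (t * b + i'))
                    (Function.update υ ((K + 2) * b) (A.mul (υ (s * b + i))
                      (A.inp (ed n d hn hd a (I * b + i) (J * b + i')))) ((K + 2) * b))) := rfl
            rw [e0]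
            rw [Function.update_of_ne (htmp t ht i' hi'), Function.update_self, ha, hm]
            have hsi : υ (s * b + i) = τ (s * b + i) := by
              refine g2 _ ?_ (htmp s hs i hi)
              intro hin
              exact block_ne hst hi hin rfl
            by_cases h : i'' = i'
            · subst h
              rw [Function.update_self, g1 i'' hi', if_neg (lt_irrefl _), if_pos (by omega),
                add_zero, hsi]
            · rw [Function.update_of_ne (by omega), Function.update_of_ne (htmp t ht i'' hi''),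
                g1 i'' hi'']
              congr 1
              by_cases h' : i'' < i'
              · rw [if_pos h', if_pos (by omega)]
              · rw [if_neg h', if_neg (by omega)]
          · show Function.update (Function.update υ _ _) _ _ q = _
            rw [Function.update_of_ne, Function.update_of_ne hq']
            · exact g2 q hq hq'
            · intro hqq
              have hqq' : q = t * b + i' := hqq
              apply hq
              rw [hqq']
              exact ⟨Nat.le_add_right _ _, by rw [add_mul]; omega⟩)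
      obtain ⟨⟨k1, k2⟩, k3⟩ := h
      refine ⟨⟨fun i' hi' => ?_, fun q hq hq' => ?_⟩, k3⟩
      · rw [k1 i' hi', if_pos hi', h1 i' hi', Finset.sum_range_succ, add_assoc]
        congr 2
        rw [h2 (s * b + i) (fun hin => block_ne hst hi hin rfl) (htmp s hs i hi)]
      · rw [k2 q hq hq', h2 q hq hq'])).1
  exact h

lemma not_inBlock_of_lt {j t q : ℕ} (hjt : j ≤ t) (hq : inBlock b t q) : j * b ≤ q :=
  (Nat.mul_le_mul_right b hjt).trans hq.1

lemma inBlock_inj {s t q : ℕ} (h : inBlock b s q) (h' : inBlock b t q) : s = t := by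
  by_contra hst
  have hi : q - s * b < b := by
    have h1 := h.1
    have h2 := h.2
    rw [add_mul] at h2
    omega
  have := block_ne (b := b) hst hi h'
  have h1 := h.1
  omega

lemma prog_spec [CommSemiring R] (A : Alg (Edge n d) Bool R) (ha : ∀ a b, A.add a b = a + b)
    (hm : ∀ a b, A.mul a b = a * b) (hc : A.const false = 0)
    (M : ℕ → Matrix (Fin (g * b)) (Fin (g * b)) R)
    (hM : ∀ a u v, M a u v = A.inp (ed n d hn hd a u v))
    (j : ℕ) : ∀ (a I J s t : ℕ), s ≠ t → s < K + 2 → t < K + 2 → j ≤ s → j ≤ t → I < g → J < g →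
    ∀ σ : ℕ → R,
    (∀ i' (hi' : J * b + i' < g * b), i' < b →
      run A σ (prog n d b g K hn hd j a I J s t) (t * b + i')
      = σ (t * b + i') + ∑ i ∈ range b, σ (s * b + i) *
        (if h : I * b + i < g * b then PM M a (2 ^ j) ⟨I * b + i, h⟩ ⟨J * b + i', hi'⟩ else 0)) ∧
      ∀ q, j * b ≤ q → ¬ inBlock b t q → q ≠ (K + 2) * b →
        run A σ (prog n d b g K hn hd j a I J s t) q = σ q := by
  have hlt : ∀ I i, I < g → i < b → I * b + i < g * b := by
    intro I i hI hi
    calc I * b + i < I * b + b := by omega
      _ = (I + 1) * b := by ring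
      _ ≤ g * b := Nat.mul_le_mul_right _ hI
  induction j with
  | zero =>
    intro a I J s t hst hs ht _ _ hI hJ σ
    obtain ⟨h1, h2⟩ := prog0_spec b K hn hd A ha hm a I J s t hst hs ht σ
    refine ⟨fun i' hi' hi => ?_, fun q _ hq hq' => h2 q hq hq'⟩
    rw [prog, h1 i' hi]
    congr 1
    refine Finset.sum_congr rfl fun i hi => ?_
    rw [dif_pos (hlt I i hI (Finset.mem_range.mp hi))]
    simp only [pow_zero, PM, one_mul, add_zero, hM]
  | succ j ih =>
    intro a I J s t hst hs ht hjs hjt hI hJ σ
    have htmp : ∀ r, r < K + 2 → ∀ i, i < b → r * b + i ≠ (K + 2) * b := by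
      intro r hr i hi h
      have : (r + 1) * b ≤ (K + 2) * b := Nat.mul_le_mul_right _ hr
      rw [add_mul] at this
      omega
    have h := (loop A (fun _ => True) g (fun I' =>
        clear n d b j ++ (prog n d b g K hn hd j a I I' s j ++
          prog n d b g K hn hd j (a + 2 ^ j) I' J j t))
      (fun N τ => (∀ i' (hi' : J * b + i' < g * b), i' < b → τ (t * b + i')
        = σ (t * b + i') + ∑ i ∈ range b, σ (s * b + i) * ∑ I' ∈ range N, ∑ l ∈ range b,
          (if h : I * b + i < g * b then (if h' : I' * b + l < g * b then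
            PM M a (2 ^ j) ⟨I * b + i, h⟩ ⟨I' * b + l, h'⟩ *
            PM M (a + 2 ^ j) (2 ^ j) ⟨I' * b + l, h'⟩ ⟨J * b + i', hi'⟩ else 0) else 0)) ∧
        ∀ q, (j + 1) * b ≤ q → ¬ inBlock b t q → q ≠ (K + 2) * b → τ q = σ q) σ
      ⟨fun i' _ _ => by simp, fun _ _ _ _ => rfl⟩ (by
        rintro I' hI' τ ⟨h1, h2⟩
        refine ⟨?_, allGood_true _ _ _⟩
        rw [run_append, run_append]
        have hG : ∀ q, ¬ inBlock b j q → run A τ (clear n d b j) q = τ q := clear_other b A j τ
        have hZ : ∀ i, i < b → run A τ (clear n d b j) (j * b + i) = 0 := by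
          intro i hi
          rw [clear_val b A j τ i hi, ha, hc, add_zero]
        obtain ⟨p1, p2⟩ := ih a I I' s j (by omega) hs (by omega) (by omega) le_rfl hI hI'
          (run A τ (clear n d b j))
        set τ1 := run A (run A τ (clear n d b j)) (prog n d b g K hn hd j a I I' s j) with hτ1
        obtain ⟨q1, q2⟩ := ih (a + 2 ^ j) I' J j t (by omega) (by omega) ht le_rfl (by omega)
          hI' hJ τ1
        have hσs : ∀ i, i < b → run A τ (clear n d b j) (s * b + i) = σ (s * b + i) := by
          intro i hi
          rw [hG _ (fun hin => block_ne (by omega : s ≠ j) hi hin rfl)]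
          refine h2 _ ?_ (fun hin => block_ne hst hi hin rfl) (htmp s hs i hi)
          exact (Nat.mul_le_mul_right b hjs).trans (Nat.le_add_right _ _)
        constructor
        · intro i' hi' hib
          rw [q1 i' hi' hib]
          have e1 : τ1 (t * b + i') = τ (t * b + i') := by
            rw [p2 _ ((Nat.mul_le_mul_right b (by omega : j ≤ t)).trans (Nat.le_add_right _ _))
              (fun hin => block_ne (by omega : t ≠ j) hib hin rfl) (htmp t ht i' hib),
              hG _ (fun hin => block_ne (by omega : t ≠ j) hib hin rfl)]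
          rw [e1, h1 i' hi' hib, add_assoc]
          congr 1
          have e2 : ∀ l ∈ range b, τ1 (j * b + l) * (if h : I' * b + l < g * b then
              PM M (a + 2 ^ j) (2 ^ j) ⟨I' * b + l, h⟩ ⟨J * b + i', hi'⟩ else 0)
              = ∑ i ∈ range b, σ (s * b + i) *
                (if h : I * b + i < g * b then (if h' : I' * b + l < g * b then
                  PM M a (2 ^ j) ⟨I * b + i, h⟩ ⟨I' * b + l, h'⟩ *
                  PM M (a + 2 ^ j) (2 ^ j) ⟨I' * b + l, h'⟩ ⟨J * b + i', hi'⟩ else 0) else 0) := by
            intro l hl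
            have hl' := Finset.mem_range.mp hl
            rw [p1 l (hlt I' l hI' hl') hl', hZ l hl', zero_add, Finset.sum_mul]
            refine Finset.sum_congr rfl fun i hi => ?_
            have hi' := Finset.mem_range.mp hi
            rw [hσs i hi', dif_pos (hlt I i hI hi'), dif_pos (hlt I' l hI' hl'),
              dif_pos (hlt I i hI hi'), dif_pos (hlt I' l hI' hl')]
            ring
          rw [Finset.sum_congr rfl e2, Finset.sum_comm, ← Finset.sum_add_distrib]
          refine Finset.sum_congr rfl fun i _ => ?_
          rw [Finset.sum_range_succ _ I', mul_add]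
          congr 1
          rw [Finset.mul_sum]
        · intro q hq hqt hq'
          have hqj : ¬ inBlock b j q := fun hin => by
            have := hin.2
            omega
          have hjq : j * b ≤ q := le_trans (Nat.mul_le_mul_right b (by omega)) hq
          rw [q2 q hjq hqt hq', p2 q hjq hqj hq', hG q hqj, h2 q hq hqt hq'])).1
    obtain ⟨h1, h2⟩ := h
    refine ⟨fun i' hi' hib => ?_, h2⟩
    rw [prog, h1 i' hi' hib]
    congr 1
    refine Finset.sum_congr rfl fun i hi => ?_
    have hi'' := Finset.mem_range.mp hi
    congr 1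
    rw [dif_pos (hlt I i hI hi''), pow_succ, mul_two, PM_add, Matrix.mul_apply]
    simp only [dif_pos (hlt I i hI hi'')]
    rw [← sum_blocks g b (fun x => if h' : x < g * b then
      PM M a (2 ^ j) ⟨I * b + i, hlt I i hI hi''⟩ ⟨x, h'⟩ *
        PM M (a + 2 ^ j) (2 ^ j) ⟨x, h'⟩ ⟨J * b + i', hi'⟩ else 0), Finset.sum_range]
    refine Finset.sum_congr rfl fun x _ => ?_
    rw [dif_pos x.2]

end

end H5Width
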