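import Pool.Agent.H5Width.Sav

namespace H5Width

open Finset Classical

variable {R : Type}

section

variable {n d : ℕ} (b g K : ℕ) (hn : 0 < n) (hd : 0 < d)

lemma tmp_ne {r : ℕ} (hr : r < K + 2) {i : ℕ} (hi : i < b) : r * b + i ≠ (K + 2) * b := by
  intro h
  have : (r + 1) * b ≤ (K + 2) * b := Nat.mul_le_mul_right _ hr
  rw [add_mul] at this
  omega

lemma prog0_graded (A : Alg (Edge n d) Bool R) (Good : R → Prop) (Pr : ℕ → R → Prop)
    (hG : Graded n d hn hd A Good Pr) (a I J s t : ℕ) (had : a < d) (hst : s ≠ t)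
    (hs : s < K + 2) (ht : t < K + 2) (σ : ℕ → R) (h1 : ∀ i, i < b → Pr a (σ (s * b + i)))
    (h2 : ∀ i, i < b → Pr (a + 1) (σ (t * b + i))) :
    ((∀ i, i < b → Pr (a + 1) (run A σ (prog0 n d b K hn hd a I J s t) (t * b + i))) ∧
      ∀ q, ¬ inBlock b t q → q ≠ (K + 2) * b →
        run A σ (prog0 n d b K hn hd a I J s t) q = σ q) ∧
      AllGood A Good σ (prog0 n d b K hn hd a I J s t) := by
  refine loop A Good b (fun i => (List.range b).flatMap fun i' =>
      body0 n d b K hn hd a I J s t i i')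
    (fun _ τ => (∀ i, i < b → Pr (a + 1) (τ (t * b + i))) ∧
      ∀ q, ¬ inBlock b t q → q ≠ (K + 2) * b → τ q = σ q) σ ⟨h2, fun _ _ _ => rfl⟩ ?_
  rintro i hi τ hτ
  refine loop A Good b (fun i' => body0 n d b K hn hd a I J s t i i')
    (fun _ τ => (∀ i, i < b → Pr (a + 1) (τ (t * b + i))) ∧
      ∀ q, ¬ inBlock b t q → q ≠ (K + 2) * b → τ q = σ q) τ hτ ?_
  rintro i' hi' υ ⟨g1, g2⟩
  have hsi : υ (s * b + i) = σ (s * b + i) :=
    g2 _ (fun hin => block_ne hst hi hin rfl) (tmp_ne b K hs hi)
  have hv1 : Pr (a + 1) (A.mul (υ (s * b + i))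
      (A.inp (ed n d hn hd a (I * b + i) (J * b + i')))) := by
    rw [hsi]
    exact hG.mul a _ _ _ had (h1 i hi)
  have e0 : run A υ (body0 n d b K hn hd a I J s t i i')
      = Function.update (Function.update υ ((K + 2) * b) (A.mul (υ (s * b + i))
          (A.inp (ed n d hn hd a (I * b + i) (J * b + i')))))
        (t * b + i') (A.add
          (Function.update υ ((K + 2) * b) (A.mul (υ (s * b + i))
            (A.inp (ed n d hn hd a (I * b + i) (J * b + i')))) (t * b + i'))
          (Function.update υ ((K + 2) * b) (A.mul (υ (s * b + i))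
            (A.inp (ed n d hn hd a (I * b + i) (J * b + i')))) ((K + 2) * b))) := rfl
  have hv2 : Pr (a + 1) (A.add
          (Function.update υ ((K + 2) * b) (A.mul (υ (s * b + i))
            (A.inp (ed n d hn hd a (I * b + i) (J * b + i')))) (t * b + i'))
          (Function.update υ ((K + 2) * b) (A.mul (υ (s * b + i))
            (A.inp (ed n d hn hd a (I * b + i) (J * b + i')))) ((K + 2) * b))) := by
    rw [Function.update_self, Function.update_of_ne (tmp_ne b K ht hi')]
    exact hG.add _ _ _ (g1 i' hi') hv1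
  refine ⟨⟨fun i'' hi'' => ?_, fun q hq hq' => ?_⟩, hG.good _ _ hv1, hG.good _ _ hv2, trivial⟩
  · rw [e0]
    by_cases h : i'' = i'
    · subst h
      rw [Function.update_self]
      exact hv2
    · rw [Function.update_of_ne (show t * b + i'' ≠ t * b + i' by omega),
        Function.update_of_ne (tmp_ne b K ht hi'')]
      exact g1 i'' hi''
  · rw [e0, Function.update_of_ne, Function.update_of_ne hq']
    · exact g2 q hq hq'
    · intro hqq
      apply hq
      rw [hqq]
      exact ⟨Nat.le_add_right _ _, by rw [add_mul]; omega⟩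

lemma prog_graded (A : Alg (Edge n d) Bool R) (Good : R → Prop) (Pr : ℕ → R → Prop)
    (hG : Graded n d hn hd A Good Pr) (j : ℕ) : ∀ (a I J s t : ℕ), a + 2 ^ j ≤ d → s ≠ t →
    s < K + 2 → t < K + 2 → j ≤ s → j ≤ t → ∀ σ : ℕ → R, (∀ i, i < b → Pr a (σ (s * b + i))) →
    (∀ i, i < b → Pr (a + 2 ^ j) (σ (t * b + i))) →
    ((∀ i, i < b → Pr (a + 2 ^ j) (run A σ (prog n d b g K hn hd j a I J s t) (t * b + i))) ∧
      ∀ q, j * b ≤ q → ¬ inBlock b t q → q ≠ (K + 2) * b →
        run A σ (prog n d b g K hn hd j a I J s t) q = σ q) ∧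
      AllGood A Good σ (prog n d b g K hn hd j a I J s t) := by
  induction j with
  | zero =>
    intro a I J s t had hst hs ht _ _ σ h1 h2
    obtain ⟨⟨k1, k2⟩, k3⟩ := prog0_graded b K hn hd A Good Pr hG a I J s t
      (by simp at had; omega) hst hs ht σ h1 h2
    exact ⟨⟨k1, fun q _ => k2 q⟩, k3⟩
  | succ j ih =>
    intro a I J s t had hst hs ht hjs hjt σ h1 h2
    have hp : 2 ^ (j + 1) = 2 ^ j + 2 ^ j := by rw [pow_succ]; ring
    have hp0 : 0 < 2 ^ j := by positivity
    refine loop A Good g (fun I' =>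
        clear n d b j ++ (prog n d b g K hn hd j a I I' s j ++
          prog n d b g K hn hd j (a + 2 ^ j) I' J j t))
      (fun _ τ => (∀ i, i < b → Pr (a + 2 ^ (j + 1)) (τ (t * b + i))) ∧
        ∀ q, (j + 1) * b ≤ q → ¬ inBlock b t q → q ≠ (K + 2) * b → τ q = σ q) σ
      ⟨h2, fun _ _ _ _ => rfl⟩ ?_
    rintro I' hI' τ ⟨g1, g2⟩
    rw [run_append, run_append, allGood_append, allGood_append]
    obtain ⟨⟨c1, c2⟩, c3⟩ := clear_spec b hn hd A Good Pr hG j τ
    have hsrc : ∀ i, i < b → Pr a (run A τ (clear n d b j) (s * b + i)) := by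
      intro i hi
      rw [c2 _ (fun hin => block_ne (by omega : s ≠ j) hi hin rfl),
        g2 _ ((Nat.mul_le_mul_right b hjs).trans (Nat.le_add_right _ _))
          (fun hin => block_ne hst hi hin rfl) (tmp_ne b K hs hi)]
      exact h1 i hi
    have hdst : ∀ i, i < b → Pr (a + 2 ^ j) (run A τ (clear n d b j) (j * b + i)) := by
      intro i hi
      rw [c1 i hi]
      exact hG.mono 0 _ _ (Nat.zero_le _) (hG.add 0 _ _ (hG.const _) (hG.const _))
    obtain ⟨⟨p1, p2⟩, p3⟩ := ih a I I' s j (by omega) (by omega) hs (by omega) (by omega) le_rfl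
      (run A τ (clear n d b j)) hsrc hdst
    set τ1 := run A (run A τ (clear n d b j)) (prog n d b g K hn hd j a I I' s j) with hτ1
    have hdst2 : ∀ i, i < b → Pr (a + 2 ^ j + 2 ^ j) (τ1 (t * b + i)) := by
      intro i hi
      rw [p2 _ ((Nat.mul_le_mul_right b (by omega : j ≤ t)).trans (Nat.le_add_right _ _))
        (fun hin => block_ne (by omega : t ≠ j) hi hin rfl) (tmp_ne b K ht hi),
        c2 _ (fun hin => block_ne (by omega : t ≠ j) hi hin rfl), add_assoc, ← hp]
      exact g1 i hi
    obtain ⟨⟨q1, q2⟩, q3⟩ := ih (a + 2 ^ j) I' J j t (by omega) (by omega) (by omega) ht le_rfl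
      (by omega) τ1 p1 hdst2
    refine ⟨⟨?_, ?_⟩, c3, p3, q3⟩
    · intro i hi
      have := q1 i hi
      rw [add_assoc, ← hp] at this
      exact this
    · intro q hq hqt hq'
      have hqj : ¬ inBlock b j q := fun hin => by
        have := hin.2
        omega
      have hjq : j * b ≤ q := le_trans (Nat.mul_le_mul_right b (by omega)) hq
      rw [q2 q hjq hqt hq', p2 q hjq hqj hq', c2 q hqj, g2 q hq hqt hq']

/-! ### Lengths and registers -/

/-- The length of `prog`. -/
def Ln : ℕ → ℕ
  | 0 => b * (b * 2)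
  | j + 1 => g * (b + (Ln j + Ln j))

lemma length_loop {I K : Type} (N c : ℕ) (f : ℕ → List (Instr I K)) (h : ∀ i, (f i).length = c) :
    ((List.range N).flatMap f).length = N * c := by
  rw [List.length_flatMap]
  simp only [h]
  simp

lemma clear_length (s : ℕ) : (clear n d b s).length = b := by
  rw [clear, length_loop b 1 _ (fun _ => rfl), mul_one]

lemma prog_length (j : ℕ) : ∀ a I J s t,
    (prog n d b g K hn hd j a I J s t).length = Ln b g j := by
  induction j with
  | zero =>
    intro a I J s t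
    rw [prog, prog0, Ln]
    exact length_loop b _ _ (fun i => length_loop b 2 _ (fun _ => rfl))
  | succ j ih =>
    intro a I J s t
    rw [prog, Ln]
    refine length_loop g _ _ (fun I' => ?_)
    rw [List.length_append, List.length_append, ih, ih, clear_length]

lemma Ln_le (hg : 1 ≤ g) (j : ℕ) (hb : 1 ≤ b) : Ln b g j + b ≤ (2 * g) ^ j * (3 * b ^ 2) := by
  induction j with
  | zero =>
    simp only [Ln, pow_zero, one_mul]
    nlinarith
  | succ j ih =>
    rw [Ln, pow_succ]
    calc g * (b + (Ln b g j + Ln b g j)) + b ≤ 2 * g * (Ln b g j + b) := by nlinarith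
      _ ≤ 2 * g * ((2 * g) ^ j * (3 * b ^ 2)) := Nat.mul_le_mul_left _ ih
      _ = (2 * g) ^ j * (2 * g) * (3 * b ^ 2) := by ring

lemma regs_loop {I K : Type} (W N : ℕ) (f : ℕ → List (Instr I K))
    (h : ∀ i, i < N → RegsLt W (f i)) : RegsLt W ((List.range N).flatMap f) := by
  intro ins hins j hj
  obtain ⟨i, hi, hins'⟩ := List.mem_flatMap.mp hins
  exact h i (List.mem_range.mp hi) ins hins' j hj

lemma regs_append {I K : Type} {W : ℕ} {P Q : List (Instr I K)} (hP : RegsLt W P)
    (hQ : RegsLt W Q) : RegsLt W (P ++ Q) := by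
  intro ins hins j hj
  rcases List.mem_append.mp hins with h | h
  · exact hP ins h j hj
  · exact hQ ins h j hj

lemma reg_lt {r : ℕ} (hr : r < K + 2) {i : ℕ} (hi : i < b) : r * b + i < (K + 2) * b + 1 := by
  have : (r + 1) * b ≤ (K + 2) * b := Nat.mul_le_mul_right _ hr
  rw [add_mul] at this
  omega

lemma clear_regs (s : ℕ) : RegsLt ((K + 2) * b + 1) (clear n d b s) := by
  refine regs_loop _ _ _ fun i _ => ?_
  intro ins hins j hj
  rw [List.mem_singleton] at hins
  subst hins
  rcases hj with h | h <;> simp at h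

lemma prog_regs (j : ℕ) : ∀ a I J s t, j ≤ K → s < K + 2 → t < K + 2 →
    RegsLt ((K + 2) * b + 1) (prog n d b g K hn hd j a I J s t) := by
  induction j with
  | zero =>
    intro a I J s t _ hs ht
    rw [prog, prog0]
    refine regs_loop _ _ _ fun i hi => regs_loop _ _ _ fun i' hi' => ?_
    intro ins hins q hq
    rw [body0, List.mem_cons, List.mem_singleton] at hins
    rcases hins with rfl | rfl
    · rcases hq with h | h
      · simp only [RArg.reg.injEq] at h
        rw [← h]; exact reg_lt b K hs hi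
      · simp at h
    · rcases hq with h | h
      · simp only [RArg.reg.injEq] at h
        rw [← h]; exact reg_lt b K ht hi'
      · simp only [RArg.reg.injEq] at h
        rw [← h]; exact Nat.lt_succ_self _
  | succ j ih =>
    intro a I J s t hj hs ht
    rw [prog]
    refine regs_loop _ _ _ fun I' _ => ?_
    exact regs_append (clear_regs b K j) (regs_append (ih _ _ _ _ _ (by omega) hs (by omega))
      (ih _ _ _ _ _ (by omega) (by omega) ht))

end

end H5Width
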