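import Pool.Agent.H5Width.Sav2

namespace H5Width

open Finset Classical

variable {R : Type}

section

variable (n d b g K : ℕ) (hn : 0 < n) (hd : 0 < d)

/-- Block `K` is set to ones. -/
def ones : List (Instr (Edge n d) Bool) :=
  (List.range b).flatMap fun i => [⟨K * b + i, false, .const true, .const false⟩]

/-- All pairs of groups. -/
def pairsP : List (Instr (Edge n d) Bool) :=
  (List.range g).flatMap fun I => (List.range g).flatMap fun J =>
    prog n d b g K hn hd K 0 I J K (K + 1)

/-- The sum of block `K + 1` is accumulated in the temporary register. -/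
def sumP (N : ℕ) : List (Instr (Edge n d) Bool) :=
  (List.range N).flatMap fun i => [⟨(K + 2) * b, false, .reg ((K + 2) * b), .reg ((K + 1) * b + i)⟩]

/-- The whole program. -/
def full (N : ℕ) : List (Instr (Edge n d) Bool) :=
  ones n d b K ++ (clear n d b (K + 1) ++ (pairsP n d b g K hn hd ++
    ([⟨(K + 2) * b, false, .const false, .const false⟩] ++ sumP n d b K N)))

variable {n d}

lemma ones_graded (A : Alg (Edge n d) Bool R) (Good : R → Prop) (Pr : ℕ → R → Prop)
    (hG : Graded n d hn hd A Good Pr) (σ : ℕ → R) :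
    (∀ i, i < b → Pr 0 (run A σ (ones n d b K) (K * b + i))) ∧
      AllGood A Good σ (ones n d b K) := by
  have h := loop A Good b (fun i => [(⟨K * b + i, false, .const true, .const false⟩ :
      Instr (Edge n d) Bool)])
    (fun i τ => (∀ i', i' < i → Pr 0 (τ (K * b + i')))) σ (fun i' hi' => absurd hi' (by omega))
    (by
      rintro i hi τ h1
      have hv : Pr 0 (A.add (A.const true) (A.const false)) :=
        hG.add 0 _ _ (hG.const _) (hG.const _)
      refine ⟨fun i' hi' => ?_, hG.good 0 _ hv, trivial⟩
      show Pr 0 (Function.update τ _ _ _)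
      by_cases h : i' = i
      · subst h
        rw [Function.update_self]; exact hv
      · rw [Function.update_of_ne (show K * b + i' ≠ K * b + i by omega)]
        exact h1 i' (by omega))
  exact h

lemma ones_spec (A : Alg (Edge n d) Bool R) (σ : ℕ → R) :
    ∀ i, i < b → run A σ (ones n d b K) (K * b + i) = A.add (A.const true) (A.const false) := by
  have h := loop A (fun _ => True) b (fun i => [(⟨K * b + i, false, .const true, .const false⟩ :
      Instr (Edge n d) Bool)])
    (fun i τ => (∀ i', i' < i → τ (K * b + i') = A.add (A.const true) (A.const false))) σ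
    (fun i' hi' => absurd hi' (by omega))
    (by
      rintro i hi τ h1
      refine ⟨fun i' hi' => ?_, trivial, trivial⟩
      show Function.update τ _ _ _ = _
      by_cases h : i' = i
      · subst h
        rw [Function.update_self]; rfl
      · rw [Function.update_of_ne (show K * b + i' ≠ K * b + i by omega)]
        exact h1 i' (by omega))
  exact h.1

/-- The whole program respects graded properties. -/
lemma full_graded (A : Alg (Edge n d) Bool R) (Good : R → Prop) (Pr : ℕ → R → Prop)
    (hG : Graded n d hn hd A Good Pr) (hd2 : d = 2 ^ K) (σ : ℕ → R) (N : ℕ) (hN : N ≤ b) :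
    Pr d (run A σ (full n d b g K hn hd N) ((K + 2) * b)) ∧
      AllGood A Good σ (full n d b g K hn hd N) := by
  rw [full, run_append, run_append, run_append, run_append, allGood_append, allGood_append,
    allGood_append, allGood_append]
  obtain ⟨o1, o2⟩ := ones_graded b K hn hd A Good Pr hG σ
  set σ1 := run A σ (ones n d b K) with hσ1
  obtain ⟨⟨c1, c2⟩, c3⟩ := clear_spec b hn hd A Good Pr hG (K + 1) σ1
  set σ2 := run A σ1 (clear n d b (K + 1)) with hσ2
  -- the loop over pairs
  have hloop := loop A Good g (fun I => (List.range g).flatMap fun J =>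
      prog n d b g K hn hd K 0 I J K (K + 1))
    (fun _ τ => (∀ i, i < b → Pr 0 (τ (K * b + i))) ∧ ∀ i, i < b → Pr d (τ ((K + 1) * b + i))) σ2
    (by
      constructor
      · intro i hi
        rw [c2 _ (fun hin => block_ne (by omega : K ≠ K + 1) hi hin rfl)]
        exact o1 i hi
      · intro i hi
        rw [c1 i hi]
        exact hG.mono 0 _ _ (Nat.zero_le _) (hG.add 0 _ _ (hG.const _) (hG.const _)))
    (by
      rintro I hI τ hτ
      refine loop A Good g (fun J => prog n d b g K hn hd K 0 I J K (K + 1))
        (fun _ τ => (∀ i, i < b → Pr 0 (τ (K * b + i))) ∧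
          ∀ i, i < b → Pr d (τ ((K + 1) * b + i))) τ hτ ?_
      rintro J hJ υ ⟨u1, u2⟩
      obtain ⟨⟨p1, p2⟩, p3⟩ := prog_graded b g K hn hd A Good Pr hG K 0 I J K (K + 1) (by omega)
        (by omega) (by omega) (by omega) le_rfl (by omega) υ u1 (by
          intro i hi
          rw [zero_add, ← hd2]
          exact u2 i hi)
      refine ⟨⟨fun i hi => ?_, fun i hi => ?_⟩, p3⟩
      · rw [p2 _ (Nat.le_add_right _ _) (fun hin => block_ne (by omega : K ≠ K + 1) hi hin rfl)
          (tmp_ne b K (by omega) hi)]
        exact u1 i hi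
      · have := p1 i hi
        rw [zero_add, ← hd2] at this
        exact this)
  obtain ⟨⟨l1, l2⟩, l3⟩ := hloop
  set σ3 := run A σ2 (pairsP n d b g K hn hd) with hσ3
  have hv0 : Pr d (A.add (A.const false) (A.const false)) :=
    hG.mono 0 _ _ (Nat.zero_le _) (hG.add 0 _ _ (hG.const _) (hG.const _))
  set σ4 := run A σ3 [(⟨(K + 2) * b, false, .const false, .const false⟩ :
    Instr (Edge n d) Bool)] with hσ4
  have h4a : σ4 ((K + 2) * b) = A.add (A.const false) (A.const false) := Function.update_self _ _ _
  have h4b : ∀ i, i < b → σ4 ((K + 1) * b + i) = σ3 ((K + 1) * b + i) := by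
    intro i hi
    exact Function.update_of_ne (tmp_ne b K (by omega) hi) _ _
  have hsum := loop A Good N (fun i => [(⟨(K + 2) * b, false, .reg ((K + 2) * b),
      .reg ((K + 1) * b + i)⟩ : Instr (Edge n d) Bool)])
    (fun _ τ => Pr d (τ ((K + 2) * b)) ∧ ∀ i, i < b → Pr d (τ ((K + 1) * b + i))) σ4
    ⟨by rw [h4a]; exact hv0, fun i hi => by rw [h4b i hi]; exact l2 i hi⟩
    (by
      rintro i hi τ ⟨t1, t2⟩
      have hv : Pr d (A.add (τ ((K + 2) * b)) (τ ((K + 1) * b + i))) :=
        hG.add _ _ _ t1 (t2 i (by omega))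
      refine ⟨⟨?_, fun i' hi' => ?_⟩, hG.good _ _ hv, trivial⟩
      · show Pr d (Function.update τ _ _ _)
        rw [Function.update_self]
        exact hv
      · show Pr d (Function.update τ _ _ _)
        rw [Function.update_of_ne (tmp_ne b K (by omega) hi')]
        exact t2 i' hi')
  exact ⟨hsum.1.1, o2, c3, l3, ⟨hG.good _ _ hv0, trivial⟩, hsum.2⟩

/-- The value computed by the whole program. -/
lemma full_spec [CommSemiring R] (hgb : n = g * b) (A : Alg (Edge n d) Bool R)
    (ha : ∀ a b, A.add a b = a + b)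
    (hm : ∀ a b, A.mul a b = a * b) (hc : A.const false = 0) (hc1 : A.const true = 1)
    (σ : ℕ → R) :
    run A σ (full n d b g K hn hd b) ((K + 2) * b)
      = ∑ u, ∑ v, PM (MX hd A.inp) 0 (2 ^ K) u v := by
  subst hgb
  rw [full, run_append, run_append, run_append, run_append]
  have o1 := ones_spec b K A σ
  set σ1 := run A σ (ones (g * b) d b K) with hσ1
  have c1 := clear_val b A (K + 1) σ1
  have c2 := clear_other b A (K + 1) σ1
  set σ2 := run A σ1 (clear (g * b) d b (K + 1)) with hσ2
  let M : ℕ → Matrix (Fin (g * b)) (Fin (g * b)) R := MX hd A.inp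
  have hM : ∀ a u v, M a u v = A.inp (ed (g * b) d hn hd a u v) := by
    intro a u v
    show A.inp _ = A.inp _
    congr 1
    simp only [ed, Prod.mk.injEq, true_and]
    exact ⟨Fin.ext (Nat.mod_eq_of_lt u.2).symm, Fin.ext (Nat.mod_eq_of_lt v.2).symm⟩
  have hlt : ∀ I i, I < g → i < b → I * b + i < g * b := by
    intro I i hI hi
    calc I * b + i < I * b + b := by omega
      _ = (I + 1) * b := by ring
      _ ≤ g * b := Nat.mul_le_mul_right _ hI
  let F : ℕ → ℕ → R := fun u v =>
    if h : u < g * b then (if h' : v < g * b then PM M 0 (2 ^ K) ⟨u, h⟩ ⟨v, h'⟩ else 0) else 0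
  have hloop := (loop A (fun _ => True) g (fun I => (List.range g).flatMap fun J =>
      prog (g * b) d b g K hn hd K 0 I J K (K + 1))
    (fun N τ => (∀ i, i < b → τ (K * b + i) = 1) ∧ ∀ i, i < b → τ ((K + 1) * b + i)
      = ∑ I ∈ range N, ∑ J ∈ range g, ∑ l ∈ range b, F (I * b + l) (J * b + i)) σ2
    (by
      constructor
      · intro i hi
        rw [c2 _ (fun hin => block_ne (by omega : K ≠ K + 1) hi hin rfl), o1 i hi, ha, hc1, hc,
          add_zero]
      · intro i hi
        rw [c1 i hi, ha, hc, add_zero]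
        simp)
    (by
      rintro I hI τ ⟨t1, t2⟩
      refine ⟨?_, allGood_true _ _ _⟩
      have hin := (loop A (fun _ => True) g (fun J => prog (g * b) d b g K hn hd K 0 I J K (K + 1))
        (fun N υ => (∀ i, i < b → υ (K * b + i) = 1) ∧ ∀ i, i < b → υ ((K + 1) * b + i)
          = τ ((K + 1) * b + i) + ∑ J ∈ range N, ∑ l ∈ range b, F (I * b + l) (J * b + i)) τ
        ⟨t1, fun i _ => by simp⟩
        (by
          rintro J hJ υ ⟨u1, u2⟩
          refine ⟨?_, allGood_true _ _ _⟩
          obtain ⟨p1, p2⟩ := prog_spec b g K hn hd A ha hm hc M hM K 0 I J K (K + 1) (by omega)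
            (by omega) (by omega) le_rfl (by omega) hI hJ υ
          constructor
          · intro i hi
            rw [p2 _ (Nat.le_add_right _ _) (fun hin => block_ne (by omega : K ≠ K + 1) hi hin rfl)
              (tmp_ne b K (by omega) hi)]
            exact u1 i hi
          · intro i hi
            rw [p1 i (hlt J i hJ hi) hi, u2 i hi, Finset.sum_range_succ, add_assoc]
            congr 2
            refine Finset.sum_congr rfl fun l hl => ?_
            have hl' := Finset.mem_range.mp hl
            rw [u1 l hl', one_mul, dif_pos (hlt I l hI hl')]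
            simp only [F, dif_pos (hlt I l hI hl'), dif_pos (hlt J i hJ hi)])).1
      refine ⟨hin.1, fun i hi => ?_⟩
      rw [hin.2 i hi, t2 i hi, Finset.sum_range_succ])).1
  obtain ⟨l1, l2⟩ := hloop
  set σ3 := run A σ2 (pairsP (g * b) d b g K hn hd) with hσ3
  set σ4 := run A σ3 [(⟨(K + 2) * b, false, .const false, .const false⟩ :
    Instr (Edge (g * b) d) Bool)] with hσ4
  have h4a : σ4 ((K + 2) * b) = 0 := by
    have : σ4 ((K + 2) * b) = A.add (A.const false) (A.const false) := Function.update_self _ _ _
    rw [this, ha, hc, add_zero]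
  have h4b : ∀ i, i < b → σ4 ((K + 1) * b + i) = σ3 ((K + 1) * b + i) := by
    intro i hi
    exact Function.update_of_ne (tmp_ne b K (by omega) hi) _ _
  have hsum := (loop A (fun _ => True) b (fun i => [(⟨(K + 2) * b, false, .reg ((K + 2) * b),
      .reg ((K + 1) * b + i)⟩ : Instr (Edge (g * b) d) Bool)])
    (fun N τ => τ ((K + 2) * b) = ∑ i ∈ range N, σ3 ((K + 1) * b + i) ∧
      ∀ i, i < b → τ ((K + 1) * b + i) = σ3 ((K + 1) * b + i)) σ4
    ⟨by rw [h4a]; simp, h4b⟩
    (by
      rintro i hi τ ⟨t1, t2⟩
      refine ⟨⟨?_, fun i' hi' => ?_⟩, trivial, trivial⟩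
      · have e : run A τ [(⟨(K + 2) * b, false, .reg ((K + 2) * b),
          .reg ((K + 1) * b + i)⟩ : Instr (Edge (g * b) d) Bool)] ((K + 2) * b)
            = A.add (τ ((K + 2) * b)) (τ ((K + 1) * b + i)) := Function.update_self _ _ _
        rw [e, ha, t1, t2 i hi, Finset.sum_range_succ]
      · have e : run A τ [(⟨(K + 2) * b, false, .reg ((K + 2) * b),
          .reg ((K + 1) * b + i)⟩ : Instr (Edge (g * b) d) Bool)] ((K + 1) * b + i')
            = τ ((K + 1) * b + i') := Function.update_of_ne (tmp_ne b K (by omega) hi') _ _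
        rw [e, t2 i' hi'])).1.1
  refine Eq.trans hsum ?_
  have h5 : ∀ i ∈ range b, σ3 ((K + 1) * b + i)
      = ∑ J ∈ range g, ∑ u ∈ range (g * b), F u (J * b + i) := by
    intro i hi
    refine (l2 i (Finset.mem_range.mp hi)).trans ?_
    rw [Finset.sum_comm]
    refine Finset.sum_congr rfl fun J _ => ?_
    rw [sum_blocks]
  rw [Finset.sum_congr rfl h5, Finset.sum_comm, ← sum_blocks g b (fun v => ∑ u ∈ range (g * b), F u v),
    Finset.sum_comm, Finset.sum_range]
  refine Finset.sum_congr rfl fun u _ => ?_
  rw [Finset.sum_range]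
  refine Finset.sum_congr rfl fun v _ => ?_
  simp only [F, dif_pos u.2, dif_pos v.2]
  rfl

/-! ### Decomposability and degree -/

/-- The algebra that checks decomposability. -/
def decAlg (n d : ℕ) : Alg (Edge n d) Bool (Set (Edge n d) × Prop) where
  add a b := (a.1 ∪ b.1, a.2 ∧ b.2)
  mul a b := (a.1 ∪ b.1, a.2 ∧ b.2 ∧ Disjoint a.1 b.1)
  zero := (∅, True)
  inp e := ({e}, True)
  const _ := (∅, True)

lemma decomposable_of (C : Circuit (Edge n d) Bool)
    (h : ∀ t, t < C.length → (val (decAlg n d) C t).2) : Decomposable id C := by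
  intro t G hG hb
  have ht : t < C.length := by
    by_contra hc
    rw [List.getElem?_eq_none (by omega)] at hG
    cases hG
  have h1 := h t ht
  rw [val_some _ _ _ G hG, if_pos hb] at h1
  have h2 : ∀ a : Arg (Edge n d) Bool,
      (argVal (decAlg n d) C t a).1 = argVal (varsAlg id) C t a := by
    refine (val_rel' (decAlg n d) (varsAlg id) C (fun p s => p.1 = s) rfl (fun _ => rfl)
      (fun _ => rfl) ?_ ?_ t).2
    · rintro a b _ _ rfl rfl; rfl
    · intro s G' _ _ h3 h4
      show _ ∪ _ = _ ∪ _
      rw [h3, h4]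
  rw [← h2, ← h2]
  exact h1.2.2

lemma decAlg_graded : Graded n d hn hd (decAlg n d) (fun v => v.2)
    (fun a v => (∀ e ∈ v.1, (e.1 : ℕ) < a) ∧ v.2) where
  good _ _ h := h.2
  mono a a' v h1 h2 := ⟨fun e he => lt_of_lt_of_le (h2.1 e he) h1, h2.2⟩
  add a v v' h h' := by
    refine ⟨?_, h.2, h'.2⟩
    rintro e (he | he)
    · exact h.1 e he
    · exact h'.1 e he
  mul a v u w had h := by
    have ha : a % d = a := Nat.mod_eq_of_lt had
    refine ⟨?_, h.2, trivial, ?_⟩
    · rintro e (he | he)
      · exact Nat.lt_succ_of_lt (h.1 e he)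
      · rw [Set.mem_singleton_iff.mp he]
        simp only [ed, ha]
        exact Nat.lt_succ_self _
    · show Disjoint v.1 ({ed n d hn hd a u w} : Set (Edge n d))
      rw [Set.disjoint_singleton_right]
      intro he
      have := h.1 _ he
      simp only [ed, ha] at this
      exact absurd this (lt_irrefl _)
  zero := ⟨fun e he => absurd he (Set.notMem_empty _), trivial⟩
  const _ := ⟨fun e he => absurd he (Set.notMem_empty _), trivial⟩

lemma degAlg_graded : Graded n d hn hd (degAlg : Alg (Edge n d) Bool ℕ) (fun _ => True)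
    (fun a v => v ≤ a) where
  good _ _ _ := trivial
  mono a a' v h1 h2 := h2.trans h1
  add a v v' h h' := max_le h h'
  mul a v u w _ h := Nat.succ_le_succ h
  zero := le_rfl
  const _ := le_rfl

/-- Circuits of small width. -/
theorem upper_width (hb : 1 ≤ b) (hg : 1 ≤ g) (k : ℕ) (μ : Model) :
    HasCircuit (g * b) (2 ^ k) (6 * (g * b) ^ 2 * (2 * g) ^ k) (6 * (g * b) ^ 2 * (2 * g) ^ k)
      ((k + 2) * b + 1) μ := by
  have hn : 0 < g * b := Nat.mul_pos hg hb
  have hd : 0 < 2 ^ k := by positivity
  have hz : ∀ (R : Type) (A : Alg (Edge (g * b) (2 ^ k)) Bool R), A.const false = A.zero →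
      out A (compile false (full (g * b) (2 ^ k) b g k hn hd b))
        = run A (fun _ => A.zero) (full (g * b) (2 ^ k) b g k hn hd b) ((k + 2) * b) := by
    intro R A hA
    obtain ⟨b', rfl⟩ : ∃ b', b = b' + 1 := ⟨b - 1, by omega⟩
    have e : full (g * (b' + 1)) (2 ^ k) (b' + 1) g k hn hd (b' + 1)
        = full (g * (b' + 1)) (2 ^ k) (b' + 1) g k hn hd b' ++
          [⟨(k + 2) * (b' + 1), false, .reg ((k + 2) * (b' + 1)),
            .reg ((k + 1) * (b' + 1) + b')⟩] := by
      simp only [full, sumP, List.range_succ, List.flatMap_append, List.flatMap_singleton,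
        List.append_assoc]
    rw [e]
    exact compile_out false _ _ A hA
  set P := full (g * b) (2 ^ k) b g k hn hd b with hP
  set C := compile false P with hC
  have hlen : C.length ≤ 6 * (g * b) ^ 2 * (2 * g) ^ k := by
    rw [hC, compile_length, hP, full]
    simp only [List.length_append, List.length_singleton]
    have h1 : (ones (g * b) (2 ^ k) b k).length = b := by
      rw [ones, length_loop b 1 _ (fun _ => rfl), mul_one]
    have h2 : (sumP (g * b) (2 ^ k) b k b).length = b := by
      rw [sumP, length_loop b 1 _ (fun _ => rfl), mul_one]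
    have h3 : (pairsP (g * b) (2 ^ k) b g k hn hd).length = g * (g * Ln b g k) := by
      rw [pairsP]
      exact length_loop g _ _ (fun I => length_loop g _ _ (fun J => prog_length b g k hn hd k _ _ _ _ _))
    rw [h1, h2, h3, clear_length]
    have h4 := Ln_le b g hg k hb
    have h5 : g * (g * Ln b g k) + g * g * b ≤ 3 * (g * b) ^ 2 * (2 * g) ^ k := by
      calc g * (g * Ln b g k) + g * g * b = g * g * (Ln b g k + b) := by ring
        _ ≤ g * g * ((2 * g) ^ k * (3 * b ^ 2)) := Nat.mul_le_mul_left _ h4
        _ = 3 * (g * b) ^ 2 * (2 * g) ^ k := by ring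
    have h6 : 1 ≤ (2 * g) ^ k := Nat.one_le_pow _ _ (by omega)
    have h7 : b ≤ g * g * b := by nlinarith
    have h8 : 1 ≤ (g * b) ^ 2 := Nat.one_le_pow _ _ hn
    have h9 : b ≤ (g * b) ^ 2 := by nlinarith
    have h10 : (g * b) ^ 2 ≤ (g * b) ^ 2 * (2 * g) ^ k := Nat.le_mul_of_pos_right _ h6
    have h11 : 6 * (g * b) ^ 2 * (2 * g) ^ k = 6 * ((g * b) ^ 2 * (2 * g) ^ k) := by ring
    have h12 : 3 * (g * b) ^ 2 * (2 * g) ^ k = 3 * ((g * b) ^ 2 * (2 * g) ^ k) := by ring
    rw [h11]
    rw [h12] at h5
    omega
  have hregs : RegsLt ((k + 2) * b + 1) P := by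
    rw [hP, full]
    refine regs_append ?_ (regs_append (clear_regs b k _) (regs_append ?_ (regs_append ?_ ?_)))
    · refine regs_loop _ _ _ fun i _ => ?_
      intro ins hins j hj
      rw [List.mem_singleton] at hins
      subst hins
      rcases hj with h | h <;> simp at h
    · exact regs_loop _ _ _ fun I _ => regs_loop _ _ _ fun J _ =>
        prog_regs b g k hn hd k _ _ _ _ _ le_rfl (by omega) (by omega)
    · intro ins hins j hj
      rw [List.mem_singleton] at hins
      subst hins
      rcases hj with h | h <;> simp at h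
    · refine regs_loop _ _ _ fun i hi => ?_
      intro ins hins j hj
      rw [List.mem_singleton] at hins
      subst hins
      rcases hj with h | h
      · simp only [RArg.reg.injEq] at h
        rw [← h]; exact Nat.lt_succ_self _
      · simp only [RArg.reg.injEq] at h
        rw [← h]; exact reg_lt b k (by omega) hi
  have hwid : WidthLE C ((k + 2) * b + 1) := compile_width false P _ hregs
  have hdec : Decomposable id C := by
    refine decomposable_of C fun t ht => ?_
    rw [hC, compile_length] at ht
    exact compile_good false P (decAlg _ _) rfl (fun v => v.2)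
      (full_graded b g k hn hd _ _ _ (decAlg_graded hn hd) rfl _ b le_rfl).2 t ht
  have hdeg : out degAlg C ≤ 2 ^ k := by
    rw [hC, hz _ degAlg rfl]
    exact (full_graded b g k hn hd _ _ _ (degAlg_graded hn hd) rfl _ b le_rfl).1
  have hval : out (natAlg (Edge (g * b) (2 ^ k))) C = pathPoly (g * b) (2 ^ k) ℕ := by
    rw [hC, hz _ (natAlg _) rfl, full_spec b g k hn hd rfl (natAlg _) (fun _ _ => rfl)
      (fun _ _ => rfl) rfl rfl]
    exact PM_paths hd _
  have hT := transfer hn C _ hdec hdeg hval hwid μ
  have hdepth : out depthAlg C ≤ C.length := depth_le_length C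
  exact hT.mono hlen (hdepth.trans hlen) le_rfl

end

end H5Width
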