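import Pool.Agent.H5Width.Core

namespace H5Width

open Finset Classical

variable {I K : Type} {n d : ℕ}

namespace Data

variable (X : Data n d I K)

/-- The total monomial of a state. -/
noncomputable def Cov (μ : ℕ → Edge n d →₀ ℕ) : Edge n d →₀ ℕ := ∑ g ∈ range X.C.length, μ g

/-- The entries of a state at time `t` are correct. -/
def Entries (p : ℕ → Fin n) (t : ℕ) (μ : ℕ → Edge n d →₀ ℕ) : Prop :=
  ∀ g, μ g ≠ 0 → g < t ∧ ((∃ s, t ≤ s ∧ Uses X.C s g) ∨ g = X.C.length - 1) ∧ X.Used p g (μ g)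

/-- A state at time `t` for the path `p`. -/
def Valid (p : ℕ → Fin n) (t : ℕ) (μ : ℕ → Edge n d →₀ ℕ) : Prop :=
  X.Entries p t μ ∧ X.Cov μ ≤ pathMon n d p

/-- The argument `a` is the input variable `e`. -/
def ArgIs (a : Arg I K) (e : Edge n d) : Prop := ∃ i, a = .inp i ∧ X.mon i e ≠ 0

lemma Cov_update (μ : ℕ → Edge n d →₀ ℕ) (g : ℕ) (hg : g < X.C.length) (m : Edge n d →₀ ℕ)
    (h0 : μ g = 0) : X.Cov (Function.update μ g m) = X.Cov μ + m := by
  have hmem : g ∈ range X.C.length := mem_range.mpr hg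
  rw [Cov, Cov, Finset.sum_update_of_mem hmem, ← Finset.sum_erase_add _ _ hmem, h0, add_zero,
    add_comm]
  congr 1
  rw [Finset.erase_eq]

lemma Cov_zero (μ : ℕ → Edge n d →₀ ℕ) (g : ℕ) (hg : g < X.C.length) :
    X.Cov (Function.update μ g 0) + μ g = X.Cov μ := by
  have hmem : g ∈ range X.C.length := mem_range.mpr hg
  rw [Cov, Cov, Finset.sum_update_of_mem hmem, ← Finset.sum_erase_add _ _ hmem, zero_add]
  congr 1
  rw [Finset.erase_eq]

lemma assign (p : ℕ → Fin n) (t : ℕ) (μ : ℕ → Edge n d →₀ ℕ) (hE : X.Entries p t μ)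
    (G : Gate I K) (hG : X.C[t]? = some G) (a : Arg I K) (ha : a = G.left ∨ a = G.right)
    (m : Edge n d →₀ ℕ) (hm : m ∈ X.DA t a)
    (hcl : ∀ m' ∈ X.DA t a, pathMon n d p - m + m' ∈ X.O)
    (hle : X.Cov μ + m ≤ pathMon n d p) :
    ∃ μ', X.Entries p t μ' ∧ X.Cov μ' ≤ X.Cov μ + m ∧
      ∀ e, (X.Cov μ + m) e ≠ 0 → X.Cov μ' e = 0 → X.ArgIs a e := by
  have htl : t < X.C.length := by
    by_contra h
    have : X.C[t]? = none := List.getElem?_eq_none (by omega)
    rw [this] at hG; cases hG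
  by_cases hm0 : m = 0
  · refine ⟨μ, hE, by rw [hm0, add_zero], fun e h1 h2 => ?_⟩
    rw [hm0, add_zero] at h1
    exact absurd h2 h1
  cases a with
  | inp i =>
    have hmi : m = X.mon i := hm
    refine ⟨μ, hE, le_self_add, fun e h1 h2 => ⟨i, rfl, ?_⟩⟩
    rw [Finsupp.add_apply, h2, zero_add, hmi] at h1
    exact h1
  | const c =>
    have : m = 0 ∧ X.nz c := hm
    exact absurd this.1 hm0
  | gate g =>
    by_cases hg : g < t
    · have hDA : X.DA t (.gate g) = X.D g := argVal_gate _ _ _ _ hg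
      rw [hDA] at hm hcl
      have hmP : m ≤ pathMon n d p := le_trans le_add_self hle
      have hU : X.Used p g m := ⟨hm0, hmP, hm, hcl⟩
      have hg0 : μ g = 0 := by
        by_contra hne
        refine X.noMerge p g (μ g) m (hE g hne).2.2 hU ?_
        refine le_trans ?_ hle
        refine add_le_add_left ?_ m
        exact Finset.single_le_sum (f := μ) (fun _ _ => zero_le) (mem_range.mpr (by omega))
      refine ⟨Function.update μ g m, ?_, ?_, ?_⟩
      · intro g' hg'
        by_cases h : g' = g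
        · subst h
          rw [Function.update_self] at hg' ⊢
          refine ⟨hg, Or.inl ⟨t, le_rfl, G, hG, ?_⟩, hU⟩
          rcases ha with h | h
          · exact Or.inl h.symm
          · exact Or.inr h.symm
        · rw [Function.update_of_ne h] at hg' ⊢
          exact hE g' hg'
      · rw [X.Cov_update μ g (by omega) m hg0]
      · intro e h1 h2
        rw [X.Cov_update μ g (by omega) m hg0] at h2
        exact absurd h2 h1
    · have hDA : X.DA t (.gate g) = ∅ := argVal_gate' _ _ _ _ hg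
      rw [hDA] at hm
      exact absurd hm (Set.notMem_empty _)

/-- One step back in time. -/
lemma step (p : ℕ → Fin n) (t : ℕ) (ht : t < X.C.length) (μ : ℕ → Edge n d →₀ ℕ)
    (hV : X.Valid p (t + 1) μ) :
    ∃ μ', X.Valid p t μ' ∧ X.Cov μ' ≤ X.Cov μ ∧ ∀ e, X.Cov μ e ≠ 0 → X.Cov μ' e = 0 →
      ∃ G, X.C[t]? = some G ∧ (X.ArgIs G.left e ∨ X.ArgIs G.right e) := by
  obtain ⟨hE, hle⟩ := hV
  obtain ⟨G, hG⟩ : ∃ G, X.C[t]? = some G := ⟨X.C[t], List.getElem?_eq_getElem ht⟩
  set μ0 := Function.update μ t 0 with hμ0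
  have hE0 : X.Entries p t μ0 := by
    intro g hg
    by_cases h : g = t
    · subst h
      rw [hμ0, Function.update_self] at hg
      exact absurd rfl hg
    · rw [hμ0, Function.update_of_ne h] at hg ⊢
      obtain ⟨h1, h2, h3⟩ := hE g hg
      refine ⟨by omega, ?_, h3⟩
      rcases h2 with ⟨s, hs, hs'⟩ | h2
      · exact Or.inl ⟨s, by omega, hs'⟩
      · omega
  have hcov0 : X.Cov μ0 + μ t = X.Cov μ := X.Cov_zero μ t ht
  by_cases hm0 : μ t = 0
  · refine ⟨μ0, ⟨hE0, ?_⟩, ?_, ?_⟩
    · rw [← hcov0, hm0, add_zero] at hle; exact hle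
    · rw [← hcov0, hm0, add_zero]
    · intro e h1 h2
      rw [← hcov0, hm0, add_zero] at h1
      exact absurd h2 h1
  obtain ⟨_, _, hU⟩ := hE t hm0
  obtain ⟨_, hmP, hmD, hcl⟩ := hU
  have hD : X.D t = if G.isMul then (monAlg X.mon X.nz).mul (X.DA t G.left) (X.DA t G.right)
      else (monAlg X.mon X.nz).add (X.DA t G.left) (X.DA t G.right) :=
    val_some _ _ _ _ hG
  by_cases hb : G.isMul = true
  · rw [if_pos hb] at hD
    have hmD' := hmD
    rw [hD] at hmD'
    obtain ⟨a, ha, b, hb', hab⟩ := hmD'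
    have hle1 : X.Cov μ0 + a + b ≤ pathMon n d p := by
      rw [add_assoc, ← hab, hcov0]; exact hle
    have hP1 : ∀ x, μ t x = a x + b x := fun x => by rw [hab]; rfl
    obtain ⟨μ1, hE1, hle1', hlost1⟩ := X.assign p t μ0 hE0 G hG G.left (Or.inl rfl) a ha (by
      intro a' ha'
      have := hcl (a' + b) (by rw [hD]; exact ⟨a', ha', b, hb', rfl⟩)
      convert this using 1
      ext x
      have h1 := hmP x
      have h2 := hP1 x
      simp only [Finsupp.coe_add, Finsupp.coe_tsub, Pi.add_apply, Pi.sub_apply]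
      omega) (le_trans le_self_add hle1)
    obtain ⟨μ2, hE2, hle2, hlost2⟩ := X.assign p t μ1 hE1 G hG G.right (Or.inr rfl) b hb' (by
      intro b' hb''
      have := hcl (a + b') (by rw [hD]; exact ⟨a, ha, b', hb'', rfl⟩)
      convert this using 1
      ext x
      have h1 := hmP x
      have h2 := hP1 x
      simp only [Finsupp.coe_add, Finsupp.coe_tsub, Pi.add_apply, Pi.sub_apply]
      omega) (le_trans (add_le_add_left hle1' b) hle1)
    have hfin : X.Cov μ2 ≤ X.Cov μ := by
      calc X.Cov μ2 ≤ X.Cov μ1 + b := hle2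
        _ ≤ X.Cov μ0 + a + b := add_le_add_left hle1' b
        _ = X.Cov μ := by rw [add_assoc, ← hab, hcov0]
    refine ⟨μ2, ⟨hE2, le_trans hfin hle⟩, hfin, ?_⟩
    intro e h1 h2
    refine ⟨G, hG, ?_⟩
    by_cases h3 : (X.Cov μ1 + b) e ≠ 0
    · exact Or.inr (hlost2 e h3 h2)
    · push Not at h3
      have h4 : X.Cov μ1 e = 0 := by
        simp only [Finsupp.coe_add, Pi.add_apply] at h3; omega
      have h5 : b e = 0 := by
        simp only [Finsupp.coe_add, Pi.add_apply] at h3; omega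
      refine Or.inl (hlost1 e ?_ h4)
      rw [← hcov0, hab] at h1
      simp only [Finsupp.coe_add, Pi.add_apply] at h1 ⊢
      omega
  · rw [if_neg hb] at hD
    have hmD' := hmD
    rw [hD] at hmD'
    have key : ∀ a, (a = G.left ∨ a = G.right) → μ t ∈ X.DA t a → X.DA t a ⊆ X.D t →
        ∃ μ', X.Valid p t μ' ∧ X.Cov μ' ≤ X.Cov μ ∧ ∀ e, X.Cov μ e ≠ 0 → X.Cov μ' e = 0 →
          X.ArgIs a e := by
      intro a ha hma hsub
      obtain ⟨μ1, hE1, hle1, hlost1⟩ := X.assign p t μ0 hE0 G hG a ha (μ t) hma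
        (fun m' hm' => hcl m' (hsub hm')) (by rw [hcov0]; exact hle)
      rw [hcov0] at hle1 hlost1
      exact ⟨μ1, ⟨hE1, le_trans hle1 hle⟩, hle1, hlost1⟩
    rcases hmD' with h | h
    · obtain ⟨μ', h1, h2, h3⟩ := key G.left (Or.inl rfl) h (by
        rw [hD]; exact Set.subset_union_left)
      exact ⟨μ', h1, h2, fun e he he' => ⟨G, hG, Or.inl (h3 e he he')⟩⟩
    · obtain ⟨μ', h1, h2, h3⟩ := key G.right (Or.inr rfl) h (by
        rw [hD]; exact Set.subset_union_right)
      exact ⟨μ', h1, h2, fun e he he' => ⟨G, hG, Or.inr (h3 e he he')⟩⟩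

/-- The relation between successive states. -/
def StepRel (p : ℕ → Fin n) (t : ℕ) (μ μ' : ℕ → Edge n d →₀ ℕ) : Prop :=
  X.Valid p t μ' ∧ X.Cov μ' ≤ X.Cov μ ∧ ∀ e, X.Cov μ e ≠ 0 → X.Cov μ' e = 0 →
      ∃ G, X.C[t]? = some G ∧ (X.ArgIs G.left e ∨ X.ArgIs G.right e)

/-- The states, backwards in time. -/
noncomputable def seq (p : ℕ → Fin n) : ℕ → (ℕ → Edge n d →₀ ℕ)
  | 0 => fun g => if g = X.C.length - 1 then pathMon n d p else 0
  | s + 1 => if h : ∃ μ', X.StepRel p (X.C.length - (s + 1)) (seq p s) μ' then h.choose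
      else seq p s

lemma length_pos : 0 < X.C.length := by
  by_contra h
  have h0 : X.C.length = 0 := by omega
  have := X.H1 (fun _ => ⟨0, X.hn⟩)
  rw [out, h0, val_none _ _ _ (List.getElem?_eq_none (by omega))] at this
  exact this

lemma Cov_seq_zero (p : ℕ → Fin n) : X.Cov (X.seq p 0) = pathMon n d p := by
  have := X.length_pos
  rw [Cov, seq, Finset.sum_ite_eq' (range X.C.length) (X.C.length - 1)]
  rw [if_pos (mem_range.mpr (by omega))]

lemma valid_zero (p : ℕ → Fin n) : X.Valid p X.C.length (X.seq p 0) := by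
  have hl := X.length_pos
  constructor
  · intro g hg
    by_cases h : g = X.C.length - 1
    · have e : X.seq p 0 g = pathMon n d p := by simp [seq, h]
      rw [e] at hg ⊢
      refine ⟨by omega, Or.inr h, hg, le_rfl, ?_, ?_⟩
      · rw [h]; exact X.H1 p
      · intro m' hm'
        rw [tsub_self, zero_add]
        rw [h] at hm'
        exact hm'
    · have e : X.seq p 0 g = 0 := by simp [seq, h]
      exact absurd e hg
  · rw [X.Cov_seq_zero]

lemma seq_valid (p : ℕ → Fin n) : ∀ s, s ≤ X.C.length →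
    X.Valid p (X.C.length - s) (X.seq p s) ∧
      (1 ≤ s → X.StepRel p (X.C.length - s) (X.seq p (s - 1)) (X.seq p s)) := by
  intro s
  induction s with
  | zero => intro _; exact ⟨X.valid_zero p, fun h => absurd h (by omega)⟩
  | succ s ih =>
    intro hs
    have hV := (ih (by omega)).1
    have e : X.C.length - s = X.C.length - (s + 1) + 1 := by omega
    rw [e] at hV
    obtain ⟨μ', hμ'⟩ := X.step p (X.C.length - (s + 1)) (by omega) _ hV
    have hex : ∃ μ', X.StepRel p (X.C.length - (s + 1)) (X.seq p s) μ' := ⟨μ', hμ'⟩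
    have hseq : X.seq p (s + 1) = hex.choose := by
      rw [seq, dif_pos hex]
    have hspec := hex.choose_spec
    rw [← hseq] at hspec
    exact ⟨hspec.1, fun _ => by simpa using hspec⟩

lemma Cov_antitone (p : ℕ → Fin n) (s s' : ℕ) (h : s ≤ s') (hs' : s' ≤ X.C.length) :
    X.Cov (X.seq p s') ≤ X.Cov (X.seq p s) := by
  induction s', h using Nat.le_induction with
  | base => exact le_rfl
  | succ s' h ih =>
    refine le_trans ?_ (ih (by omega))
    have := ((X.seq_valid p (s' + 1) hs').2 (by omega)).2.1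
    simpa using this

/-- Level `i` of path `p` has been read before time `t`. -/
def cov (p : ℕ → Fin n) (t i : ℕ) : Prop :=
  X.C.length ≤ t ∨ ∃ h : i < d, X.Cov (X.seq p (X.C.length - t)) (⟨i, h⟩, p i, p (i + 1)) ≠ 0

lemma cov_mono (p : ℕ → Fin n) (t t' i : ℕ) (h : t ≤ t') (hc : X.cov p t i) : X.cov p t' i := by
  by_cases ht' : X.C.length ≤ t'
  · exact Or.inl ht'
  · rcases hc with hc | ⟨hi, hc⟩
    · omega
    · refine Or.inr ⟨hi, ?_⟩
      have := X.Cov_antitone p (X.C.length - t') (X.C.length - t) (by omega) (by omega)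
        (⟨i, hi⟩, p i, p (i + 1))
      omega

lemma not_cov_zero (p : ℕ → Fin n) (i : ℕ) : ¬ X.cov p 0 i := by
  have hl := X.length_pos
  rintro (h | ⟨hi, h⟩)
  · omega
  · have hV := (X.seq_valid p X.C.length le_rfl).1
    rw [Nat.sub_self] at hV
    have hzero : X.Cov (X.seq p X.C.length) = 0 := by
      rw [Cov]
      refine Finset.sum_eq_zero fun g _ => ?_
      by_contra hne
      have := (hV.1 g hne).1
      omega
    rw [Nat.sub_zero, hzero] at h
    exact h rfl

end Data

end H5Width
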