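import Pool.Agent.H5Width.Values
import Pool.Agent.H5Width.Lower

namespace H5Width

open Finset Classical

variable {I J K L R S V : Type} {n d : ℕ}

/-- Renaming of the inputs and constants of a circuit. -/
def Arg.map (fi : I → J) (fc : K → L) : Arg I K → Arg J L
  | .inp i => .inp (fi i)
  | .const c => .const (fc c)
  | .gate g => .gate g

def Gate.map (fi : I → J) (fc : K → L) (G : Gate I K) : Gate J L :=
  ⟨G.isMul, G.left.map fi fc, G.right.map fi fc⟩

def cmap (fi : I → J) (fc : K → L) (C : Circuit I K) : Circuit J L := List.map (Gate.map fi fc) C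

/-- The algebra seen through the renaming. -/
def Alg.pull2 (A : Alg J L R) (fi : I → J) (fc : K → L) : Alg I K R where
  add := A.add
  mul := A.mul
  zero := A.zero
  inp i := A.inp (fi i)
  const c := A.const (fc c)

lemma cmap_length (fi : I → J) (fc : K → L) (C : Circuit I K) :
    (cmap fi fc C).length = C.length := List.length_map _

lemma cmap_get (fi : I → J) (fc : K → L) (C : Circuit I K) (t : ℕ) :
    (cmap fi fc C)[t]? = (C[t]?).map (Gate.map fi fc) := by
  simp [cmap]

lemma cmap_val (A : Alg J L R) (fi : I → J) (fc : K → L) (C : Circuit I K) (t : ℕ) :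
    val A (cmap fi fc C) t = val (A.pull2 fi fc) C t ∧
      ∀ a : Arg I K, argVal A (cmap fi fc C) t (a.map fi fc) = argVal (A.pull2 fi fc) C t a := by
  induction t using Nat.strong_induction_on with
  | _ t ih =>
    have harg : ∀ a : Arg I K,
        argVal A (cmap fi fc C) t (a.map fi fc) = argVal (A.pull2 fi fc) C t a := by
      intro a
      cases a with
      | inp i => rfl
      | const c => rfl
      | gate g =>
        show argVal A (cmap fi fc C) t (.gate g) = _
        by_cases h : g < t
        · rw [argVal_gate _ _ _ _ h, argVal_gate _ _ _ _ h, (ih g h).1]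
        · rw [argVal_gate' _ _ _ _ h, argVal_gate' _ _ _ _ h]; rfl
    refine ⟨?_, harg⟩
    cases hG : C[t]? with
    | none =>
      rw [val_none _ _ _ hG, val_none _ _ _ (by rw [cmap_get, hG]; rfl)]; rfl
    | some G =>
      rw [val_some _ _ _ G hG, val_some _ _ _ (G.map fi fc) (by rw [cmap_get, hG]; rfl)]
      simp only [Gate.map]
      rw [harg, harg]
      rfl

lemma cmap_out (A : Alg J L R) (fi : I → J) (fc : K → L) (C : Circuit I K) :
    out A (cmap fi fc C) = out (A.pull2 fi fc) C := by
  rw [out, out, cmap_length, (cmap_val A fi fc C _).1]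

lemma cmap_uses (fi : I → J) (fc : K → L) (C : Circuit I K) (s g : ℕ) :
    Uses (cmap fi fc C) s g ↔ Uses C s g := by
  have key : ∀ a : Arg I K, a.map fi fc = .gate g ↔ a = .gate g := by
    intro a
    cases a <;> simp [Arg.map]
  constructor
  · rintro ⟨G', hG', h⟩
    rw [cmap_get] at hG'
    obtain ⟨G, hG, rfl⟩ := Option.map_eq_some_iff.mp hG'
    exact ⟨G, hG, by simpa only [Gate.map, key] using h⟩
  · rintro ⟨G, hG, h⟩
    exact ⟨G.map fi fc, by rw [cmap_get, hG]; rfl, by simpa only [Gate.map, key] using h⟩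

lemma cmap_width (fi : I → J) (fc : K → L) (C : Circuit I K) (w : ℕ) (h : WidthLE C w) :
    WidthLE (cmap fi fc C) w := by
  intro t
  have : live (cmap fi fc C) t = live C t := by
    ext g
    simp only [live, Set.mem_ofPred_eq, cmap_uses]
  rw [this]
  exact h t

/-- The algebra of polynomials with natural coefficients; the constants are `0` and `1`. -/
noncomputable def natAlg (V : Type) : Alg V Bool (MvPolynomial V ℕ) where
  add a b := a + b
  mul a b := a * b
  zero := 0
  inp := MvPolynomial.X
  const b := if b = true then 1 else 0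

/-- The path polynomial. -/
noncomputable def pathPoly (n d : ℕ) (R : Type) [CommSemiring R] : MvPolynomial (Edge n d) R :=
  ∑ p : Fin (d + 1) → Fin n, ∏ i : Fin d, MvPolynomial.X (i, p i.castSucc, p i.succ)

lemma nat_pos' (a b : ℕ) (h : a + b = 0) : a = 0 := by omega

lemma support_nat (C : Circuit V Bool) (t : ℕ) :
    ((val (natAlg V) C t).support : Set (V →₀ ℕ))
      = val (monAlg (fun v => Finsupp.single v 1) (fun c : Bool => c = true)) C t := by
  refine val_rel (natAlg V) (monAlg (fun v => Finsupp.single v 1) (fun c : Bool => c = true)) C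
    (fun p s => (p.support : Set (V →₀ ℕ)) = s) ?_ ?_ ?_ ?_ ?_ t
  · simp [natAlg, monAlg]
  · intro v
    simp [natAlg, monAlg, MvPolynomial.support_X]
  · intro c
    cases c
    · simp [natAlg, monAlg]
    · ext m
      simp [natAlg, monAlg]
  · rintro p q _ _ rfl rfl
    ext m
    simp only [natAlg, monAlg, Finset.mem_coe, Set.mem_union]
    exact mem_support_add nat_pos' p q m
  · rintro p q _ _ rfl rfl
    ext m
    simp only [natAlg, monAlg, Finset.mem_coe, Set.mem_ofPred_eq]
    exact mem_support_mul nat_pos' p q m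

/-- One circuit for all models. -/
theorem transfer (hn : 0 < n) (C : Circuit (Edge n d) Bool) (w : ℕ) (hdec : Decomposable id C)
    (hdeg : out degAlg C ≤ d) (hval : out (natAlg (Edge n d)) C = pathPoly n d ℕ)
    (hW : WidthLE C w) (μ : Model) : HasCircuit n d C.length (out depthAlg C) w μ := by
  have hdepth : ∀ (J L : Type) (fi : Edge n d → J) (fc : Bool → L),
      out depthAlg (cmap fi fc C) ≤ out depthAlg C := fun J L fi fc => (cmap_out _ fi fc C).le
  have hmon : out (monAlg (fun v => Finsupp.single v 1) (fun c : Bool => c = true)) C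
      = Set.range (pathMon n d) := by
    rw [out, ← support_nat]
    have := support_pathPoly (n := n) (d := d) nat_pos'
    rw [← this]
    exact congrArg (fun q : MvPolynomial (Edge n d) ℕ => (q.support : Set (Edge n d →₀ ℕ))) hval
  have hbool : ∀ x : Edge n d → Bool, out (monoAlg x) C = true ↔
        ∃ p : ℕ → Fin n, ∀ i : Fin d, x (i, p i, p (i + 1)) = true := by
    intro x
    rw [out, rel_mono]
    have : val (monAlg (fun v => Finsupp.single v 1) (fun c : Bool => c = true)) C
        (C.length - 1) = Set.range (pathMon n d) := hmon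
    rw [this]
    constructor
    · rintro ⟨_, ⟨p, rfl⟩, h⟩
      exact ⟨p, fun i => h _ (by rw [pathMon_self]; exact one_ne_zero)⟩
    · rintro ⟨p, h⟩
      refine ⟨_, ⟨p, rfl⟩, fun e he => ?_⟩
      rw [eq_of_pathMon p e he]
      exact h _
  cases μ with
  | monotone =>
    exact ⟨C, le_rfl, le_rfl, hW, hdeg, hbool⟩
  | decomposable =>
    refine ⟨cmap (fun e => (e, true)) id C, (cmap_length _ _ C).le, hdepth _ _ _ _,
      cmap_width _ _ _ _ hW, ?_, fun x => ?_⟩
    · intro t G' hG' hb
      rw [cmap_get] at hG'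
      obtain ⟨G, hG, rfl⟩ := Option.map_eq_some_iff.mp hG'
      have h1 := hdec t G hG hb
      have hA : (varsAlg (K := Bool) (Prod.fst : Edge n d × Bool → Edge n d)).pull2
          (fun e => (e, true)) id = varsAlg id := rfl
      simp only [Gate.map]
      rw [(cmap_val _ _ _ C t).2, (cmap_val _ _ _ C t).2, hA]
      exact h1
    · rw [cmap_out, ← hbool x]
      have hA : (boolAlg x).pull2 (fun e => (e, true)) id = monoAlg x := by
        simp [Alg.pull2, boolAlg, monoAlg]
      rw [hA]
  | counting =>
    refine ⟨cmap id (fun b => if b = true then 1 else 0) C, (cmap_length _ _ C).le,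
      hdepth _ _ _ _, cmap_width _ _ _ _ hW, ?_⟩
    rw [cmap_out]
    have h1 : MvPolynomial.map (Nat.castRingHom NNReal) (out (natAlg (Edge n d)) C)
        = out ((polyAlg (Edge n d) NNReal).pull2 id (fun b : Bool => if b = true then 1 else 0)) C
        := by
      refine val_rel (natAlg (Edge n d)) _ C
        (fun p q => MvPolynomial.map (Nat.castRingHom NNReal) p = q) ?_ ?_ ?_ ?_ ?_ _
      · simp [natAlg, Alg.pull2, polyAlg]
      · intro v; simp [natAlg, Alg.pull2, polyAlg]
      · intro c; cases c <;> simp [natAlg, Alg.pull2, polyAlg]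
      · rintro a b _ _ rfl rfl; simp [natAlg, Alg.pull2, polyAlg]
      · rintro a b _ _ rfl rfl; simp [natAlg, Alg.pull2, polyAlg]
    rw [← h1, hval, pathPoly]
    simp [map_sum, map_prod]
  | support =>
    refine ⟨cmap id (fun b => if b = true then 1 else 0) C, (cmap_length _ _ C).le,
      hdepth _ _ _ _, cmap_width _ _ _ _ hW, ?_⟩
    rw [cmap_out]
    have h1 : MvPolynomial.map (Nat.castRingHom NNReal) (out (natAlg (Edge n d)) C)
        = out ((polyAlg (Edge n d) NNReal).pull2 id (fun b : Bool => if b = true then 1 else 0)) C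
        := by
      refine val_rel (natAlg (Edge n d)) _ C
        (fun p q => MvPolynomial.map (Nat.castRingHom NNReal) p = q) ?_ ?_ ?_ ?_ ?_ _
      · simp [natAlg, Alg.pull2, polyAlg]
      · intro v; simp [natAlg, Alg.pull2, polyAlg]
      · intro c; cases c <;> simp [natAlg, Alg.pull2, polyAlg]
      · rintro a b _ _ rfl rfl; simp [natAlg, Alg.pull2, polyAlg]
      · rintro a b _ _ rfl rfl; simp [natAlg, Alg.pull2, polyAlg]
    have h2 : out ((polyAlg (Edge n d) NNReal).pull2 id
        (fun b : Bool => if b = true then 1 else 0)) C = pathPoly n d NNReal := by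
      rw [← h1, hval, pathPoly, pathPoly]
      simp [map_sum, map_prod]
    rw [h2]
    exact support_pathPoly nnreal_pos
  | minPlus =>
    refine ⟨cmap id (fun b => if b = true then 0 else ⊤) C, (cmap_length _ _ C).le,
      hdepth _ _ _ _, cmap_width _ _ _ _ hW, fun x => ?_⟩
    rw [cmap_out]
    have h1 : (∀ m ∈ out (monAlg (fun v => Finsupp.single v 1) (fun c : Bool => c = true)) C,
        out ((minAlg x).pull2 id (fun b : Bool => if b = true then 0 else ⊤)) C
          ≤ ((wt x m : ℕ) : ℕ∞)) ∧
        (out ((minAlg x).pull2 id (fun b : Bool => if b = true then 0 else ⊤)) C = ⊤ ∨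
        ∃ m ∈ out (monAlg (fun v => Finsupp.single v 1) (fun c : Bool => c = true)) C,
          out ((minAlg x).pull2 id (fun b : Bool => if b = true then 0 else ⊤)) C
            = ((wt x m : ℕ) : ℕ∞)) := by
      refine val_rel ((minAlg x).pull2 id (fun b : Bool => if b = true then 0 else ⊤))
        (monAlg (fun v => Finsupp.single v 1) (fun c : Bool => c = true)) C
        (fun v s => (∀ m ∈ s, v ≤ ((wt x m : ℕ) : ℕ∞)) ∧
          (v = ⊤ ∨ ∃ m ∈ s, v = ((wt x m : ℕ) : ℕ∞))) ?_ ?_ ?_ ?_ ?_ _
      · exact ⟨fun y hy => absurd hy (Set.notMem_empty _), Or.inl rfl⟩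
      · intro v
        constructor
        · rintro y rfl
          rw [wt_single]
          exact le_rfl
        · exact Or.inr ⟨_, rfl, by rw [wt_single]; rfl⟩
      · intro c
        cases c
        · exact ⟨fun y hy => absurd hy.2 (by simp), Or.inl rfl⟩
        · refine ⟨fun y hy => ?_, Or.inr ⟨0, ⟨rfl, rfl⟩, ?_⟩⟩
          · rw [hy.1, wt_zero]; exact le_rfl
          · rw [wt_zero]; rfl
      · rintro a b s s' ⟨h1, h2⟩ ⟨h3, h4⟩
        constructor
        · rintro y (hy | hy)
          · exact le_trans (min_le_left _ _) (h1 y hy)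
          · exact le_trans (min_le_right _ _) (h3 y hy)
        · show min a b = ⊤ ∨ ∃ y ∈ s ∪ s', min a b = _
          rcases le_total a b with h | h
          · rw [min_eq_left h]
            rcases h2 with h2 | ⟨y, hy, h2⟩
            · exact Or.inl h2
            · exact Or.inr ⟨y, Or.inl hy, h2⟩
          · rw [min_eq_right h]
            rcases h4 with h4 | ⟨y, hy, h4⟩
            · exact Or.inl h4
            · exact Or.inr ⟨y, Or.inr hy, h4⟩
      · rintro a b s s' ⟨h1, h2⟩ ⟨h3, h4⟩
        constructor
        · rintro _ ⟨y, hy, z, hz, rfl⟩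
          rw [wt_add, Nat.cast_add]
          exact add_le_add (h1 y hy) (h3 z hz)
        · show a + b = ⊤ ∨ _
          rcases h2 with h2 | ⟨y, hy, h2⟩
          · left; rw [h2]; exact top_add _
          · rcases h4 with h4 | ⟨z, hz, h4⟩
            · left; rw [h4]; exact add_top _
            · right
              exact ⟨y + z, ⟨y, hy, z, hz, rfl⟩, by rw [wt_add, Nat.cast_add, ← h2, ← h4]; rfl⟩
    rw [hmon] at h1
    obtain ⟨h1, h2⟩ := h1
    constructor
    · rcases h2 with h2 | ⟨_, ⟨p, rfl⟩, h2⟩
      · exfalso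
        have := h1 _ ⟨fun _ => ⟨0, hn⟩, rfl⟩
        rw [h2] at this
        simp at this
      · exact ⟨p, by rw [h2, wt_pathMon]⟩
    · rintro _ ⟨p, rfl⟩
      have := h1 _ ⟨p, rfl⟩
      rw [wt_pathMon] at this
      exact this
  | maxPlus =>
    refine ⟨cmap id (fun b => if b = true then 0 else ⊥) C, (cmap_length _ _ C).le,
      hdepth _ _ _ _, cmap_width _ _ _ _ hW, fun x => ?_⟩
    rw [cmap_out]
    have h1 : (∀ m ∈ out (monAlg (fun v => Finsupp.single v 1) (fun c : Bool => c = true)) C,
        ((wt x m : ℕ) : WithBot ℕ) ≤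
          out ((maxAlg x).pull2 id (fun b : Bool => if b = true then 0 else ⊥)) C) ∧
        (out ((maxAlg x).pull2 id (fun b : Bool => if b = true then 0 else ⊥)) C = ⊥ ∨
        ∃ m ∈ out (monAlg (fun v => Finsupp.single v 1) (fun c : Bool => c = true)) C,
          out ((maxAlg x).pull2 id (fun b : Bool => if b = true then 0 else ⊥)) C
            = ((wt x m : ℕ) : WithBot ℕ)) := by
      refine val_rel ((maxAlg x).pull2 id (fun b : Bool => if b = true then 0 else ⊥))
        (monAlg (fun v => Finsupp.single v 1) (fun c : Bool => c = true)) C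
        (fun v s => (∀ m ∈ s, ((wt x m : ℕ) : WithBot ℕ) ≤ v) ∧
          (v = ⊥ ∨ ∃ m ∈ s, v = ((wt x m : ℕ) : WithBot ℕ))) ?_ ?_ ?_ ?_ ?_ _
      · exact ⟨fun y hy => absurd hy (Set.notMem_empty _), Or.inl rfl⟩
      · intro v
        constructor
        · rintro y rfl
          rw [wt_single]
          exact le_rfl
        · exact Or.inr ⟨_, rfl, by rw [wt_single]; rfl⟩
      · intro c
        cases c
        · exact ⟨fun y hy => absurd hy.2 (by simp), Or.inl rfl⟩
        · refine ⟨fun y hy => ?_, Or.inr ⟨0, ⟨rfl, rfl⟩, ?_⟩⟩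
          · rw [hy.1, wt_zero]; exact le_rfl
          · rw [wt_zero]; rfl
      · rintro a b s s' ⟨h1, h2⟩ ⟨h3, h4⟩
        constructor
        · rintro y (hy | hy)
          · exact le_trans (h1 y hy) (le_max_left _ _)
          · exact le_trans (h3 y hy) (le_max_right _ _)
        · show max a b = ⊥ ∨ ∃ y ∈ s ∪ s', max a b = _
          rcases le_total a b with h | h
          · rw [max_eq_right h]
            rcases h4 with h4 | ⟨y, hy, h4⟩
            · exact Or.inl h4
            · exact Or.inr ⟨y, Or.inr hy, h4⟩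
          · rw [max_eq_left h]
            rcases h2 with h2 | ⟨y, hy, h2⟩
            · exact Or.inl h2
            · exact Or.inr ⟨y, Or.inl hy, h2⟩
      · rintro a b s s' ⟨h1, h2⟩ ⟨h3, h4⟩
        constructor
        · rintro _ ⟨y, hy, z, hz, rfl⟩
          rw [wt_add, Nat.cast_add]
          exact add_le_add (h1 y hy) (h3 z hz)
        · show a + b = ⊥ ∨ _
          rcases h2 with h2 | ⟨y, hy, h2⟩
          · left; rw [h2]; exact WithBot.bot_add _
          · rcases h4 with h4 | ⟨z, hz, h4⟩
            · left; rw [h4]; exact WithBot.add_bot _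
            · right
              exact ⟨y + z, ⟨y, hy, z, hz, rfl⟩, by rw [wt_add, Nat.cast_add, ← h2, ← h4]; rfl⟩
    rw [hmon] at h1
    obtain ⟨h1, h2⟩ := h1
    constructor
    · rcases h2 with h2 | ⟨_, ⟨p, rfl⟩, h2⟩
      · exfalso
        have := h1 _ ⟨fun _ => ⟨0, hn⟩, rfl⟩
        rw [h2] at this
        exact absurd (le_bot_iff.mp this) (WithBot.natCast_ne_bot _)
      · exact ⟨p, by rw [h2, wt_pathMon]⟩
    · rintro _ ⟨p, rfl⟩
      have := h1 _ ⟨p, rfl⟩
      rw [wt_pathMon] at this
      exact this

lemma width_le_length {C : Circuit I K} : WidthLE C C.length := by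
  intro t
  have hsub : live C t ⊆ (Finset.range C.length : Set ℕ) := by
    rintro g ⟨hg, s, hs, G, hG, _⟩
    have : s < C.length := by
      by_contra h
      rw [List.getElem?_eq_none (by omega)] at hG
      cases hG
    rw [Finset.mem_coe, Finset.mem_range]
    omega
  calc (live C t).ncard ≤ ((Finset.range C.length : Set ℕ)).ncard :=
        Set.ncard_le_ncard hsub (Finset.finite_toSet _)
    _ = C.length := by rw [Set.ncard_coe_finset, Finset.card_range]

lemma HasCircuit.mono {n d s s' D D' w w' : ℕ} {μ : Model} (h : HasCircuit n d s D w μ)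
    (hs : s ≤ s') (hD : D ≤ D') (hw : w ≤ w') : HasCircuit n d s' D' w' μ := by
  cases μ <;>
  · obtain ⟨C, h1, h2, h3, h4⟩ := h
    exact ⟨C, h1.trans hs, h2.trans hD, fun t => (h3 t).trans hw, h4⟩

/-- Small circuits of logarithmic-squared depth. -/
theorem upper_nc (m k : ℕ) (hm : 1 ≤ m) (μ : Model) :
    HasCircuit (2 ^ m) (2 ^ k) (2 * 2 ^ k * (2 ^ m) ^ 3) (k * (m + 1) + 2 * m)
      (2 * 2 ^ k * (2 ^ m) ^ 3) μ := by
  have hd : 0 < 2 ^ k := by positivity
  obtain ⟨C, h1, h2, h3, h4⟩ := exists_nc (K := Bool) m (2 ^ k) hd id k rfl hm id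
    (fun _ => rfl)
  have hout : ∀ (R : Type) (A : Alg (Edge (2 ^ m) (2 ^ k)) Bool R),
      out A C = (TF m (2 ^ k) hd id k).eval A := by
    intro R A
    rw [← h4.2 R A, argVal_gate _ _ _ _ (by omega)]
    rfl
  have hT := transfer (by positivity) C C.length h1
    (by rw [hout]; exact TF_deg m (2 ^ k) hd id k)
    (by
      rw [hout, TF_paths m (2 ^ k) hd (natAlg _) (fun _ _ => rfl) (fun _ _ => rfl) k rfl]
      rfl)
    width_le_length μ
  have e : 2 ^ (3 * m) = (2 ^ m) ^ 3 := by rw [← pow_mul, mul_comm]
  rw [e] at h2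
  refine hT.mono h2 ?_ h2
  rw [hout]
  exact TF_depth m (2 ^ k) hd id k

end H5Width
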