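import Pool.Agent.H5Width.Inst

namespace H5Width

open Finset Classical

variable {n d : ℕ}

lemma eq_of_le_of_degree_le {V : Type} {a b : V →₀ ℕ} (h : a ≤ b) (hd : b.degree ≤ a.degree) :
    a = b := by
  have h1 : b - a + a = b := tsub_add_cancel_of_le h
  have h2 : (b - a).degree + a.degree = b.degree := by rw [← map_add, h1]
  have h3 : (b - a).degree = 0 := by omega
  rw [Finsupp.degree_eq_zero_iff] at h3
  rw [h3, zero_add] at h1
  exact h1

lemma pathMon_le_of {p : ℕ → Fin n} {m : Edge n d →₀ ℕ}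
    (h : ∀ i : Fin d, m (i, p i, p (i + 1)) ≠ 0) : pathMon n d p ≤ m := by
  intro e
  rw [pathMon_apply]
  split_ifs with h'
  · rcases e with ⟨i, u, v⟩
    simp only at h'
    have := h i
    rw [← h'.1, ← h'.2] at this
    omega
  · exact Nat.zero_le _

/-- Criterion for circuits whose monomials all contain a path. -/
lemma core_min {I K : Type} (mon : I → Edge n d →₀ ℕ) (nz : K → Prop)
    (hmon : ∀ i, mon i = 0 ∨ ∃ e, mon i = Finsupp.single e 1) (C : Circuit I K)
    (ha : ∀ m ∈ out (monAlg mon nz) C, ∃ q, pathMon n d q ≤ m)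
    (hb : ∀ p, ∃ m ∈ out (monAlg mon nz) C, m.degree ≤ d ∧ m.support ⊆ (pathMon n d p).support)
    (k r w : ℕ) (hr : 1 ≤ r) (hw : 1 ≤ w)
    (hn : 4 * r ^ 2 * w ≤ n) (hk : 2 ^ (k + 1) ≤ d + 1) (hW : WidthLE C w) :
    r ^ k < C.length := by
  have hn0 : 0 < n := by
    have : 0 < 4 * r ^ 2 * w := by positivity
    omega
  have hd0 : 0 < d := by
    have : 2 ≤ 2 ^ (k + 1) := by
      calc 2 = 2 ^ 1 := by norm_num
        _ ≤ 2 ^ (k + 1) := Nat.pow_le_pow_right (by norm_num) (by omega)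
    omega
  refine Data.core
    { mon := mon
      nz := nz
      C := C
      hmon := hmon
      hd := hd0
      hn := hn0
      H1 := fun p => ?_
      H2 := fun m hm hdeg => ?_
      H3 := Or.inl fun m hm => ?_ } k r w hr hw hn hk hW
  · obtain ⟨m, hm, hdeg, hsup⟩ := hb p
    obtain ⟨q, hq⟩ := ha m hm
    have e1 : pathMon n d q = m := eq_of_le_of_degree_le hq (by rw [degree_pathMon]; exact hdeg)
    have e2 : pathMon n d q ≤ pathMon n d p := by
      refine pathMon_le_of fun i => ?_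
      have h1 : (i, q i, q (i + 1)) ∈ (pathMon n d p).support := by
        apply hsup
        rw [Finsupp.mem_support_iff, ← e1, pathMon_self]
        exact one_ne_zero
      rwa [Finsupp.mem_support_iff] at h1
    have e3 : pathMon n d q = pathMon n d p :=
      eq_of_le_of_degree_le e2 (by rw [degree_pathMon, degree_pathMon])
    rw [← e3, e1]
    exact hm
  · obtain ⟨q, hq⟩ := ha m hm
    exact ⟨q, (eq_of_le_of_degree_le hq (by rw [degree_pathMon]; exact hdeg.le)).symm⟩
  · obtain ⟨q, hq⟩ := ha m hm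
    have := Finsupp.degree_mono hq
    rwa [degree_pathMon] at this

/-! ### min-plus -/

lemma rel_min (x : Edge n d → ℕ) (C : Circuit (Edge n d) ℕ∞) (t : ℕ) :
    (∀ y ∈ val (pairAlg fun c : ℕ∞ => {k | c = (k : ℕ)}) C t,
      val (minAlg x) C t ≤ ((y.1 + wt x y.2 : ℕ) : ℕ∞)) ∧
    (val (minAlg x) C t = ⊤ ∨ ∃ y ∈ val (pairAlg fun c : ℕ∞ => {k | c = (k : ℕ)}) C t,
      val (minAlg x) C t = ((y.1 + wt x y.2 : ℕ) : ℕ∞)) := by
  refine val_rel (minAlg x) (pairAlg fun c : ℕ∞ => {k | c = (k : ℕ)}) C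
    (fun v s => (∀ y ∈ s, v ≤ ((y.1 + wt x y.2 : ℕ) : ℕ∞)) ∧
      (v = ⊤ ∨ ∃ y ∈ s, v = ((y.1 + wt x y.2 : ℕ) : ℕ∞))) ?_ ?_ ?_ ?_ ?_ t
  · exact ⟨fun y hy => absurd hy (Set.notMem_empty _), Or.inl rfl⟩
  · intro v
    constructor
    · rintro y rfl
      simp [minAlg, wt_single]
    · exact Or.inr ⟨_, rfl, by simp [minAlg, wt_single]⟩
  · intro c
    constructor
    · rintro y ⟨h1, h2⟩
      simp only [Set.mem_ofPred_eq] at h2
      rw [h1, wt_zero, add_zero]
      exact h2.le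
    · induction c using WithTop.recTopCoe with
      | top => exact Or.inl rfl
      | coe k => exact Or.inr ⟨(k, 0), ⟨rfl, rfl⟩, by rw [wt_zero, add_zero]; rfl⟩
  · rintro a b s s' ⟨h1, h2⟩ ⟨h3, h4⟩
    constructor
    · rintro y (hy | hy)
      · exact le_trans (min_le_left _ _) (h1 y hy)
      · exact le_trans (min_le_right _ _) (h3 y hy)
    · show min a b = ⊤ ∨ ∃ y ∈ s ∪ s', min a b = _
      rcases le_total a b with h | h
      · rw [min_eq_left h]
        rcases h2 with h2 | ⟨y, hy, h2⟩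
        · exact Or.inl h2
        · exact Or.inr ⟨y, Or.inl hy, h2⟩
      · rw [min_eq_right h]
        rcases h4 with h4 | ⟨y, hy, h4⟩
        · exact Or.inl h4
        · exact Or.inr ⟨y, Or.inr hy, h4⟩
  · rintro a b s s' ⟨h1, h2⟩ ⟨h3, h4⟩
    have hsum : ∀ y z : ℕ × (Edge n d →₀ ℕ), (((y + z).1 + wt x (y + z).2 : ℕ) : ℕ∞)
        = ((y.1 + wt x y.2 : ℕ) : ℕ∞) + ((z.1 + wt x z.2 : ℕ) : ℕ∞) := by
      intro y z
      rw [Prod.fst_add, Prod.snd_add, wt_add]
      push_cast
      ring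
    constructor
    · rintro _ ⟨y, hy, z, hz, rfl⟩
      rw [hsum]
      exact add_le_add (h1 y hy) (h3 z hz)
    · show a + b = ⊤ ∨ _
      rcases h2 with h2 | ⟨y, hy, h2⟩
      · left; rw [h2]; exact top_add _
      · rcases h4 with h4 | ⟨z, hz, h4⟩
        · left; rw [h4]; exact add_top _
        · right
          exact ⟨y + z, ⟨y, hy, z, hz, rfl⟩, by rw [hsum, ← h2, ← h4]; rfl⟩

theorem lower_min (C : Circuit (Edge n d) ℕ∞)
    (hC : ∀ x : Edge n d → ℕ, IsLeast
      (Set.range fun p : ℕ → Fin n => ((∑ i : Fin d, x (i, p i, p (i + 1)) : ℕ) : ℕ∞))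
      (out (minAlg x) C)) (k r w : ℕ) (hr : 1 ≤ r) (hw : 1 ≤ w)
    (hn : 4 * r ^ 2 * w ≤ n) (hk : 2 ^ (k + 1) ≤ d + 1) (hW : WidthLE C w) :
    r ^ k < C.length := by
  set A : Alg (Edge n d) ℕ∞ (Set (ℕ × (Edge n d →₀ ℕ))) :=
    pairAlg fun c : ℕ∞ => {k | c = (k : ℕ)} with hA
  have hpm : Prod.snd '' (out A C)
      = out (monAlg (fun v => Finsupp.single v 1)
        (fun c : ℕ∞ => ({k | c = (k : ℕ)} : Set ℕ).Nonempty)) C :=
    pair_mon (fun c : ℕ∞ => {k | c = (k : ℕ)}) C _
  -- every monomial contains a path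
  have F1 : ∀ y ∈ out A C, ∃ q, pathMon n d q ≤ y.2 := by
    intro y hy
    let x : Edge n d → ℕ := fun e => if y.2 e = 0 then y.1 + 1 else 0
    have h1 := (rel_min x C (C.length - 1)).1 y hy
    obtain ⟨q, hq⟩ := (hC x).1
    simp only at hq
    have h2 : wt x y.2 = 0 := by
      rw [wt_eq_sum]
      refine Finset.sum_eq_zero fun e _ => ?_
      by_cases h : y.2 e = 0
      · rw [h, zero_mul]
      · simp [x, h]
    have h3 : ((∑ i : Fin d, x (i, q i, q (i + 1)) : ℕ) : ℕ∞) ≤ ((y.1 + wt x y.2 : ℕ) : ℕ∞) := by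
      rw [hq]; exact h1
    rw [h2, add_zero, Nat.cast_le] at h3
    refine ⟨q, pathMon_le_of fun i hi => ?_⟩
    have h4 : x (i, q i, q (i + 1)) = y.1 + 1 := by simp [x, hi]
    have h5 : x (i, q i, q (i + 1)) ≤ ∑ i : Fin d, x (i, q i, q (i + 1)) :=
      Finset.single_le_sum (f := fun i : Fin d => x (i, q i, q (i + 1)))
        (fun _ _ => Nat.zero_le _) (mem_univ i)
    omega
  refine core_min (fun v => Finsupp.single v 1)
    (fun c : ℕ∞ => ({k | c = (k : ℕ)} : Set ℕ).Nonempty) (fun v => Or.inr ⟨v, rfl⟩) C ?_ ?_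
    k r w hr hw hn hk hW
  · rw [← hpm]
    rintro m ⟨y, hy, rfl⟩
    exact F1 y hy
  · intro p
    rw [← hpm]
    let x : Edge n d → ℕ := fun e => if pathMon n d p e = 0 then d + 1 else 1
    have h1 : out (minAlg x) C ≤ ((d : ℕ) : ℕ∞) := by
      refine (hC x).2 ⟨p, ?_⟩
      simp only
      congr 1
      have : ∀ i : Fin d, x (i, p i, p (i + 1)) = 1 := by
        intro i
        simp [x, pathMon_self]
      simp [this]
    rcases (rel_min x C (C.length - 1)).2 with h | ⟨y, hy, h⟩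
    · rw [out, h] at h1
      simp at h1
    · rw [out, h, Nat.cast_le] at h1
      have hw1 := wt_eq_sum x y.2
      have hsup : ∀ e, pathMon n d p e = 0 → y.2 e = 0 := by
        intro e he
        by_contra hne
        have hxe : x e = d + 1 := by simp [x, he]
        have : y.2 e * x e ≤ ∑ e, y.2 e * x e :=
          Finset.single_le_sum (f := fun e => y.2 e * x e) (fun _ _ => Nat.zero_le _) (mem_univ e)
        have : d + 1 ≤ y.2 e * x e := by
          rw [hxe]; exact Nat.le_mul_of_pos_left _ (by omega)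
        omega
      refine ⟨y.2, ⟨y, hy, rfl⟩, ?_, ?_⟩
      · rw [Finsupp.degree_eq_sum]
        have : ∑ e, y.2 e ≤ ∑ e, y.2 e * x e := by
          refine Finset.sum_le_sum fun e _ => ?_
          refine Nat.le_mul_of_pos_right _ ?_
          simp only [x]
          split_ifs <;> omega
        omega
      · intro e he
        rw [Finsupp.mem_support_iff] at he ⊢
        exact fun h0 => he (hsup e h0)

/-! ### max-plus -/

lemma rel_max (x : Edge n d → ℕ) (C : Circuit (Edge n d) (WithBot ℕ)) (t : ℕ) :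
    (∀ y ∈ val (pairAlg fun c : WithBot ℕ => {k | c = (k : ℕ)}) C t,
      ((y.1 + wt x y.2 : ℕ) : WithBot ℕ) ≤ val (maxAlg x) C t) ∧
    (val (maxAlg x) C t = ⊥ ∨ ∃ y ∈ val (pairAlg fun c : WithBot ℕ => {k | c = (k : ℕ)}) C t,
      val (maxAlg x) C t = ((y.1 + wt x y.2 : ℕ) : WithBot ℕ)) := by
  refine val_rel (maxAlg x) (pairAlg fun c : WithBot ℕ => {k | c = (k : ℕ)}) C
    (fun v s => (∀ y ∈ s, ((y.1 + wt x y.2 : ℕ) : WithBot ℕ) ≤ v) ∧
      (v = ⊥ ∨ ∃ y ∈ s, v = ((y.1 + wt x y.2 : ℕ) : WithBot ℕ))) ?_ ?_ ?_ ?_ ?_ t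
  · exact ⟨fun y hy => absurd hy (Set.notMem_empty _), Or.inl rfl⟩
  · intro v
    constructor
    · rintro y rfl
      simp [maxAlg, wt_single]
    · exact Or.inr ⟨_, rfl, by simp [maxAlg, wt_single]⟩
  · intro c
    constructor
    · rintro y ⟨h1, h2⟩
      simp only [Set.mem_ofPred_eq] at h2
      rw [h1, wt_zero, add_zero]
      exact h2.ge
    · induction c using WithBot.recBotCoe with
      | bot => exact Or.inl rfl
      | coe k => exact Or.inr ⟨(k, 0), ⟨rfl, rfl⟩, by rw [wt_zero, add_zero]; rfl⟩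
  · rintro a b s s' ⟨h1, h2⟩ ⟨h3, h4⟩
    constructor
    · rintro y (hy | hy)
      · exact le_trans (h1 y hy) (le_max_left _ _)
      · exact le_trans (h3 y hy) (le_max_right _ _)
    · show max a b = ⊥ ∨ ∃ y ∈ s ∪ s', max a b = _
      rcases le_total a b with h | h
      · rw [max_eq_right h]
        rcases h4 with h4 | ⟨y, hy, h4⟩
        · exact Or.inl h4
        · exact Or.inr ⟨y, Or.inr hy, h4⟩
      · rw [max_eq_left h]
        rcases h2 with h2 | ⟨y, hy, h2⟩
        · exact Or.inl h2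
        · exact Or.inr ⟨y, Or.inl hy, h2⟩
  · rintro a b s s' ⟨h1, h2⟩ ⟨h3, h4⟩
    have hsum : ∀ y z : ℕ × (Edge n d →₀ ℕ), (((y + z).1 + wt x (y + z).2 : ℕ) : WithBot ℕ)
        = ((y.1 + wt x y.2 : ℕ) : WithBot ℕ) + ((z.1 + wt x z.2 : ℕ) : WithBot ℕ) := by
      intro y z
      rw [Prod.fst_add, Prod.snd_add, wt_add]
      push_cast
      ring
    constructor
    · rintro _ ⟨y, hy, z, hz, rfl⟩
      rw [hsum]
      exact add_le_add (h1 y hy) (h3 z hz)
    · show a + b = ⊥ ∨ _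
      rcases h2 with h2 | ⟨y, hy, h2⟩
      · left; rw [h2]; exact WithBot.bot_add _
      · rcases h4 with h4 | ⟨z, hz, h4⟩
        · left; rw [h4]; exact WithBot.add_bot _
        · right
          exact ⟨y + z, ⟨y, hy, z, hz, rfl⟩, by rw [hsum, ← h2, ← h4]; rfl⟩

theorem lower_max (C : Circuit (Edge n d) (WithBot ℕ))
    (hC : ∀ x : Edge n d → ℕ, IsGreatest
      (Set.range fun p : ℕ → Fin n => ((∑ i : Fin d, x (i, p i, p (i + 1)) : ℕ) : WithBot ℕ))
      (out (maxAlg x) C)) (k r w : ℕ) (hr : 1 ≤ r) (hw : 1 ≤ w)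
    (hn : 4 * r ^ 2 * w ≤ n) (hk : 2 ^ (k + 1) ≤ d + 1) (hW : WidthLE C w) :
    r ^ k < C.length := by
  set A : Alg (Edge n d) (WithBot ℕ) (Set (ℕ × (Edge n d →₀ ℕ))) :=
    pairAlg fun c : WithBot ℕ => {k | c = (k : ℕ)} with hA
  have hpm : Prod.snd '' (out A C)
      = out (monAlg (fun v => Finsupp.single v 1)
        (fun c : WithBot ℕ => ({k | c = (k : ℕ)} : Set ℕ).Nonempty)) C :=
    pair_mon (fun c : WithBot ℕ => {k | c = (k : ℕ)}) C _
  have hn0 : 0 < n := by
    have : 0 < 4 * r ^ 2 * w := by positivity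
    omega
  have hd0 : 0 < d := by
    have : 2 ≤ 2 ^ (k + 1) := by
      calc 2 = 2 ^ 1 := by norm_num
        _ ≤ 2 ^ (k + 1) := Nat.pow_le_pow_right (by norm_num) (by omega)
    omega
  have G1 : ∀ x : Edge n d → ℕ, ∀ y ∈ out A C, ∃ q : ℕ → Fin n,
      y.1 + wt x y.2 ≤ ∑ i : Fin d, x (i, q i, q (i + 1)) := by
    intro x y hy
    have h1 := (rel_max x C (C.length - 1)).1 y hy
    obtain ⟨q, hq⟩ := (hC x).1
    simp only at hq
    refine ⟨q, ?_⟩
    have h3 : ((y.1 + wt x y.2 : ℕ) : WithBot ℕ)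
        ≤ ((∑ i : Fin d, x (i, q i, q (i + 1)) : ℕ) : WithBot ℕ) := by
      rw [hq]; exact h1
    exact_mod_cast h3
  have G2 : ∀ (x : Edge n d → ℕ) (p : ℕ → Fin n), ∃ y ∈ out A C,
      ∑ i : Fin d, x (i, p i, p (i + 1)) ≤ y.1 + wt x y.2 := by
    intro x p
    have h1 : ((∑ i : Fin d, x (i, p i, p (i + 1)) : ℕ) : WithBot ℕ) ≤ out (maxAlg x) C :=
      (hC x).2 ⟨p, rfl⟩
    rcases (rel_max x C (C.length - 1)).2 with h | ⟨y, hy, h⟩
    · rw [out, h] at h1
      have h2 := le_bot_iff.mp h1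
      exact absurd h2 (WithBot.natCast_ne_bot _)
    · rw [out, h] at h1
      exact ⟨y, hy, by exact_mod_cast h1⟩
  have hdeg : ∀ y ∈ out A C, y.2.degree ≤ d := by
    intro y hy
    obtain ⟨q, hq⟩ := G1 (fun _ => 1) y hy
    rw [wt_eq_sum] at hq
    simp only [mul_one, Finset.sum_const, card_univ, Fintype.card_fin, smul_eq_mul] at hq
    rw [Finsupp.degree_eq_sum]
    omega
  have hpath : ∀ y ∈ out A C, y.2.degree = d → ∃ q, y.2 = pathMon n d q := by
    intro y hy hyd
    obtain ⟨q, hq⟩ := G1 (fun e => if y.2 e = 0 then 0 else 1) y hy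
    have h1 : wt (fun e => if y.2 e = 0 then 0 else 1) y.2 = d := by
      refine Eq.trans ?_ hyd
      rw [wt_eq_sum, Finsupp.degree_eq_sum]
      refine Finset.sum_congr rfl fun e _ => ?_
      split_ifs with h
      · rw [h]
      · rw [mul_one]
    have h2 : ∀ i : Fin d, y.2 (i, q i, q (i + 1)) ≠ 0 := by
      intro i hi
      have h3 : ∑ i : Fin d, (if y.2 (i, q i, q (i + 1)) = 0 then 0 else 1) < ∑ i : Fin d, 1 := by
        refine Finset.sum_lt_sum (fun j _ => by split_ifs <;> omega) ⟨i, mem_univ i, ?_⟩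
        rw [if_pos hi]; omega
      simp only [Finset.sum_const, card_univ, Fintype.card_fin, smul_eq_mul, mul_one] at h3
      omega
    exact ⟨q, (eq_of_le_of_degree_le (pathMon_le_of h2) (by rw [degree_pathMon]; omega)).symm⟩
  refine Data.core
    { mon := fun v => Finsupp.single v 1
      nz := fun c : WithBot ℕ => ({k | c = (k : ℕ)} : Set ℕ).Nonempty
      C := C
      hmon := fun v => Or.inr ⟨v, rfl⟩
      hd := hd0
      hn := hn0
      H1 := fun p => ?_
      H2 := fun m hm hdeg => ?_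
      H3 := Or.inr fun m hm => ?_ } k r w hr hw hn hk hW
  · rw [← hpm]
    obtain ⟨y, hy, h⟩ := G2 (fun e => if pathMon n d p e = 0 then 0 else 1) p
    have h1 : ∑ i : Fin d, (fun e => if pathMon n d p e = 0 then 0 else 1)
        (i, p i, p (i + 1)) = d := by
      simp [pathMon_self]
    have h0 : y.1 = 0 := by
      obtain ⟨q, hq⟩ := G1 (fun _ => 0) y hy
      simp at hq
      exact hq.1
    rw [h1, h0, zero_add, wt_eq_sum] at h
    have hone : ∀ e, y.2 e ≤ 1 := by
      intro e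
      obtain ⟨q, hq⟩ := G1 (fun e' => if e' = e then 1 else 0) y hy
      have h2 : wt (fun e' => if e' = e then 1 else 0) y.2 = y.2 e := by
        rw [wt_eq_sum]; simp
      have h3 : ∑ i : Fin d, (if ((i, q i, q (i + 1)) : Edge n d) = e then 1 else 0) ≤ 1 := by
        calc ∑ i : Fin d, (if ((i, q i, q (i + 1)) : Edge n d) = e then 1 else 0)
            ≤ ∑ i : Fin d, (if i = e.1 then 1 else 0) := by
              refine Finset.sum_le_sum fun i _ => ?_
              by_cases hie : i = e.1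
              · rw [if_pos hie]; split_ifs <;> omega
              · have : ¬ ((i, q i, q (i + 1)) : Edge n d) = e := fun h => hie (by rw [← h])
                rw [if_neg this]; exact Nat.zero_le _
          _ = 1 := by simp
      rw [h2] at hq
      omega
    -- all edges of the path occur
    have hall : ∀ i : Fin d, y.2 (i, p i, p (i + 1)) ≠ 0 := by
      have hle : ∀ e, y.2 e * (if pathMon n d p e = 0 then 0 else 1) ≤ pathMon n d p e := by
        intro e
        have := pathMon_le_one (d := d) p e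
        have := hone e
        split_ifs <;> omega
      intro i hi
      have hlt : ∑ e, y.2 e * (if pathMon n d p e = 0 then 0 else 1) < ∑ e, pathMon n d p e := by
        refine Finset.sum_lt_sum (fun e _ => hle e) ⟨(i, p i, p (i + 1)), mem_univ _, ?_⟩
        rw [hi, zero_mul, pathMon_self]
        exact one_pos
      rw [← Finsupp.degree_eq_sum, degree_pathMon] at hlt
      omega
    have := eq_of_le_of_degree_le (pathMon_le_of hall) (by rw [degree_pathMon]; exact hdeg y hy)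
    rw [this]
    exact ⟨y, hy, rfl⟩
  · rw [← hpm] at hm
    obtain ⟨y, hy, rfl⟩ := hm
    exact hpath y hy hdeg
  · rw [← hpm] at hm
    obtain ⟨y, hy, rfl⟩ := hm
    exact hdeg y hy

end H5Width
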