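import Pool.Agent.H5Width.Nc

namespace H5Width

open Finset Classical

variable {I K R S V : Type}

/-! ### Pulling back along the embedding of the inputs -/

/-- The algebra with other inputs. -/
def Alg.pull {J : Type} (A : Alg I K R) (ι : J → I) : Alg J K R where
  add := A.add
  mul := A.mul
  zero := A.zero
  inp j := A.inp (ι j)
  const := A.const

lemma bs_pull {J : Type} (A : Alg I K R) (ι : J → I) (m : ℕ) (F : ℕ → Fm I) (F' : ℕ → Fm J)
    (h : ∀ w, (F w).eval A = (F' w).eval (A.pull ι)) (s : ℕ) :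
    (bs m F s).eval A = (bs m F' s).eval (A.pull ι) := by
  induction m generalizing s with
  | zero => exact h s
  | succ m ih =>
    show A.add _ _ = A.add _ _
    rw [ih, ih]

lemma WF_pull (m d : ℕ) (hd : 0 < d) (ι : Edge (2 ^ m) d → I) (A : Alg I K R) (j a : ℕ)
    (u v : Fin (2 ^ m)) :
    (WF m d hd ι j a u v).eval A = (WF m d hd id j a u v).eval (A.pull ι) := by
  induction j generalizing a u v with
  | zero => rfl
  | succ j ih =>
    rw [WF, WF]
    refine bs_pull A ι m _ _ (fun w => ?_) 0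
    show A.mul _ _ = A.mul _ _
    rw [ih, ih]

lemma TF_pull (m d : ℕ) (hd : 0 < d) (ι : Edge (2 ^ m) d → I) (A : Alg I K R) (k : ℕ) :
    (TF m d hd ι k).eval A = (TF m d hd id k).eval (A.pull ι) :=
  bs_pull A ι _ _ _ (fun _ => WF_pull m d hd ι A _ _ _ _) 0

/-! ### The value in a commutative semiring -/

/-- Products of consecutive matrices. -/
def PM {n : ℕ} [CommSemiring R] (M : ℕ → Matrix (Fin n) (Fin n) R) (a : ℕ) :
    ℕ → Matrix (Fin n) (Fin n) R
  | 0 => 1
  | L + 1 => PM M a L * M (a + L)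

lemma PM_add {n : ℕ} [CommSemiring R] (M : ℕ → Matrix (Fin n) (Fin n) R) (a L L' : ℕ) :
    PM M a (L + L') = PM M a L * PM M (a + L) L' := by
  induction L' with
  | zero => rw [add_zero, PM, mul_one]
  | succ L' ih => rw [← add_assoc, PM, PM, ih, mul_assoc, add_assoc]

/-- The matrices of the input. -/
def MX {n d : ℕ} (hd : 0 < d) (x : Edge n d → R) (i : ℕ) : Matrix (Fin n) (Fin n) R :=
  fun u v => x (⟨i % d, Nat.mod_lt _ hd⟩, u, v)

lemma vx_val (m : ℕ) (w : Fin (2 ^ m)) : vx m w = w := by
  apply Fin.ext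
  exact Nat.mod_eq_of_lt w.2

lemma WF_eval [CommSemiring R] (m d : ℕ) (hd : 0 < d) (A : Alg (Edge (2 ^ m) d) K R)
    (ha : ∀ a b, A.add a b = a + b) (hm : ∀ a b, A.mul a b = a * b) (j a : ℕ)
    (u v : Fin (2 ^ m)) :
    (WF m d hd id j a u v).eval A = PM (MX hd A.inp) a (2 ^ j) u v := by
  induction j generalizing a u v with
  | zero =>
    simp only [WF, id, pow_zero, PM, one_mul, add_zero]
    rfl
  | succ j ih =>
    rw [WF, bs_eval A ha, Finset.sum_range, pow_succ, mul_two, PM_add, Matrix.mul_apply]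
    refine Finset.sum_congr rfl fun w _ => ?_
    rw [zero_mul, zero_add, vx_val]
    show A.mul _ _ = _
    rw [hm, ih, ih]

lemma TF_eval [CommSemiring R] (m d : ℕ) (hd : 0 < d) (A : Alg (Edge (2 ^ m) d) K R)
    (ha : ∀ a b, A.add a b = a + b) (hm : ∀ a b, A.mul a b = a * b) (k : ℕ) :
    (TF m d hd id k).eval A = ∑ u, ∑ v, PM (MX hd A.inp) 0 (2 ^ k) u v := by
  rw [TF, bs_eval A ha]
  have hpow : 2 ^ (m + m) = 2 ^ m * 2 ^ m := pow_add 2 m m
  rw [hpow, Finset.sum_range, ← finProdFinEquiv.sum_comp, Fintype.sum_prod_type]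
  refine Finset.sum_congr rfl fun u _ => Finset.sum_congr rfl fun v _ => ?_
  have e1 : ((finProdFinEquiv (u, v) : Fin (2 ^ m * 2 ^ m)) : ℕ) = v + 2 ^ m * u := rfl
  rw [e1, zero_mul, zero_add]
  have h1 : vx m ((v + 2 ^ m * u : ℕ) / 2 ^ m) = u := by
    apply Fin.ext
    show ((v : ℕ) + 2 ^ m * u) / 2 ^ m % 2 ^ m = u
    rw [Nat.add_mul_div_left _ _ (by positivity), Nat.div_eq_of_lt v.2, zero_add,
      Nat.mod_eq_of_lt u.2]
  have h2 : vx m (v + 2 ^ m * u : ℕ) = v := by
    apply Fin.ext
    show ((v : ℕ) + 2 ^ m * u) % 2 ^ m = v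
    rw [Nat.add_mul_mod_self_left, Nat.mod_eq_of_lt v.2]
  rw [h1, h2, WF_eval m d hd A ha hm]

lemma path_sum {n : ℕ} [CommSemiring R] (M : ℕ → Matrix (Fin n) (Fin n) R) (L : ℕ)
    (y : Fin n → R) :
    ∑ p : Fin (L + 1) → Fin n, (∏ i : Fin L, M i (p i.castSucc) (p i.succ)) * y (p (Fin.last L))
      = ∑ u, ∑ v, PM M 0 L u v * y v := by
  induction L generalizing y with
  | zero =>
    simp only [Finset.univ_eq_empty, Finset.prod_empty, one_mul, PM]
    rw [← (Equiv.funUnique (Fin 1) (Fin n)).symm.sum_comp]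
    refine Finset.sum_congr rfl fun u _ => ?_
    rw [Finset.sum_eq_single u]
    · simp
    · intro v _ hv
      rw [Matrix.one_apply_ne hv.symm, zero_mul]
    · simp
  | succ L ih =>
    rw [← (Fin.snocEquiv (fun _ : Fin (L + 2) => Fin n)).sum_comp, Fintype.sum_prod_type,
      Finset.sum_comm]
    have h1 : ∀ (p : Fin (L + 1) → Fin n) (w : Fin n),
        (∏ i : Fin (L + 1), M i ((Fin.snocEquiv (fun _ : Fin (L + 2) => Fin n)) (w, p) i.castSucc)
          ((Fin.snocEquiv (fun _ : Fin (L + 2) => Fin n)) (w, p) i.succ)) *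
            y ((Fin.snocEquiv (fun _ : Fin (L + 2) => Fin n)) (w, p) (Fin.last (L + 1)))
        = (∏ i : Fin L, M i (p i.castSucc) (p i.succ)) * (M L (p (Fin.last L)) w * y w) := by
      intro p w
      rw [Fin.prod_univ_castSucc]
      have e0 : (Fin.snocEquiv (fun _ : Fin (L + 2) => Fin n)) (w, p)
          = Fin.snoc (α := fun _ => Fin n) p w := rfl
      rw [e0]
      have e1 : ∀ i : Fin (L + 1), Fin.snoc (α := fun _ => Fin n) p w i.castSucc = p i :=
        fun i => Fin.snoc_castSucc (α := fun _ => Fin n) w p i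
      have e2 : Fin.snoc (α := fun _ => Fin n) p w (Fin.last (L + 1)) = w :=
        Fin.snoc_last (α := fun _ => Fin n) w p
      have e3 : ∀ i : Fin L, Fin.snoc (α := fun _ => Fin n) p w i.castSucc.succ = p i.succ := by
        intro i
        rw [Fin.succ_castSucc]
        exact e1 _
      rw [e2, Fin.succ_last, e2]
      simp only [e1, e3, Fin.val_castSucc, Fin.val_last]
      ring
    calc _ = ∑ p : Fin (L + 1) → Fin n, ∑ w : Fin n,
          (∏ i : Fin L, M i (p i.castSucc) (p i.succ)) * (M L (p (Fin.last L)) w * y w) :=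
          Finset.sum_congr rfl fun p _ => Finset.sum_congr rfl fun w _ => h1 p w
      _ = ∑ p : Fin (L + 1) → Fin n, (∏ i : Fin L, M i (p i.castSucc) (p i.succ)) *
          (fun v => ∑ w, M L v w * y w) (p (Fin.last L)) := by
          refine Finset.sum_congr rfl fun p _ => ?_
          rw [Finset.mul_sum]
      _ = _ := by
          refine (ih (fun v => ∑ w, M L v w * y w)).trans ?_
          refine Finset.sum_congr rfl fun u _ => ?_
          simp only [PM, zero_add, Matrix.mul_apply, Finset.mul_sum, Finset.sum_mul]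
          rw [Finset.sum_comm]
          refine Finset.sum_congr rfl fun w _ => Finset.sum_congr rfl fun v _ => ?_
          ring

/-- The value of the formula is the sum over all paths. -/
lemma TF_paths [CommSemiring R] (m d : ℕ) (hd : 0 < d) (A : Alg (Edge (2 ^ m) d) K R)
    (ha : ∀ a b, A.add a b = a + b) (hm : ∀ a b, A.mul a b = a * b) (k : ℕ) (hk : d = 2 ^ k) :
    (TF m d hd id k).eval A
      = ∑ p : Fin (d + 1) → Fin (2 ^ m), ∏ i : Fin d, A.inp (i, p i.castSucc, p i.succ) := by
  rw [TF_eval m d hd A ha hm]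
  have h1 := path_sum (MX hd A.inp) (2 ^ k) (fun _ => 1)
  simp only [mul_one] at h1
  rw [← h1]
  subst hk
  refine Finset.sum_congr rfl fun p _ => Finset.prod_congr rfl fun i _ => ?_
  simp only [MX]
  congr 2
  exact Fin.ext (Nat.mod_eq_of_lt i.2)

lemma PM_paths [CommSemiring R] {n d : ℕ} (hd : 0 < d) (x : Edge n d → R) :
    ∑ u, ∑ v, PM (MX hd x) 0 d u v
      = ∑ p : Fin (d + 1) → Fin n, ∏ i : Fin d, x (i, p i.castSucc, p i.succ) := by
  have h1 := path_sum (MX hd x) d (fun _ => 1)
  simp only [mul_one] at h1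
  rw [← h1]
  refine Finset.sum_congr rfl fun p _ => Finset.prod_congr rfl fun i _ => ?_
  simp only [MX]
  congr 2
  exact Fin.ext (Nat.mod_eq_of_lt i.2)

/-- The depth of a gate is at most its number plus one. -/
lemma depth_le (C : Circuit I K) (t : ℕ) : val depthAlg C t ≤ t + 1 := by
  induction t using Nat.strong_induction_on with
  | _ t ih =>
    have harg : ∀ a : Arg I K, argVal depthAlg C t a ≤ t := by
      intro a
      cases a with
      | inp i => exact Nat.zero_le _
      | const c => exact Nat.zero_le _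
      | gate g =>
        by_cases h : g < t
        · rw [argVal_gate _ _ _ _ h]
          have := ih g h
          omega
        · rw [argVal_gate' _ _ _ _ h]; exact Nat.zero_le _
    cases hG : C[t]? with
    | none => rw [val_none _ _ _ hG]; exact Nat.zero_le _
    | some G =>
      rw [val_some _ _ _ G hG]
      have h1 := harg G.left
      have h2 := harg G.right
      split_ifs
      · show max _ _ + 1 ≤ _
        omega
      · show max _ _ + 1 ≤ _
        omega

lemma depth_le_length (C : Circuit I K) : out depthAlg C ≤ C.length := by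
  by_cases h : C.length = 0
  · rw [out, val_none _ _ _ (List.getElem?_eq_none (by omega))]
    exact Nat.zero_le _
  · have := depth_le C (C.length - 1)
    rw [out]
    omega

end H5Width
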